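import Pool.Agent.Helper98.Ladder

/-!
Basic material: index types of regular cardinals, recursion, least strict upper bounds, and a ladder
above the cofinality of a singular cardinal.
-/

open Set Ordinal Cardinal

universe u

namespace Pool.Agent.Helper92.CS

open Pool.Agent.Helper98

/-! ### index types -/

/-- the well-ordered type of a cardinal -/
abbrev W (ν : Cardinal.{u}) : Type u := ν.ord.ToType

section W

variable {ν : Cardinal.{u}}

theorem mk_W : #(W ν) = ν := mk_ord_toType ν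

theorem cof_W (h : ν.IsRegular) : Order.cof (W ν) = ν := by
  rw [Ordinal.cof_toType, h.cof_ord]

theorem W_Iio (i : W ν) : #(Iio i) < ν := by simpa using Cardinal.mk_Iio_lt i (by simp)

theorem W_Iic (h : ν.IsRegular) (i : W ν) : #(Iic i) < ν := by
  have h1 : (Iic i) = insert i (Iio i) := by
    ext j
    simp [le_iff_eq_or_lt]
  rw [h1]
  refine (mk_insert_le).trans_lt ?_
  exact add_lt_of_lt h.aleph0_le (W_Iio i) (one_lt_aleph0.trans_le h.aleph0_le)

theorem W_nonempty (h : ν.IsRegular) : Nonempty (W ν) := by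
  rw [nonempty_toType_iff]
  exact h.ord_pos.ne'

theorem W_above (h : ν.IsRegular) (i : W ν) : ∃ j, i < j := by
  by_contra hcon
  push Not at hcon
  have h2 : IsCofinal (Iic i) := fun b => ⟨i, mem_Iic.2 le_rfl, hcon b⟩
  refine (Order.cof_le h2).not_gt ?_
  rw [cof_W h]
  exact W_Iic h i

theorem W_bdd (h : ν.IsRegular) {A : Type u} (hA : #A < ν) (f : A → W ν) : ∃ b, ∀ a, f a < b := by
  have h1 : ¬ IsCofinal (range f) := by
    intro h2
    refine (Order.cof_le h2).not_gt ?_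
    rw [cof_W h]
    exact mk_range_le.trans_lt hA
  obtain ⟨b, hb⟩ := not_isCofinal_iff.1 h1
  exact ⟨b, fun a => hb _ ⟨a, rfl⟩⟩

theorem W_cof_ne (h : ν.IsRegular) (h0 : ℵ₀ < ν) : Order.cof (W ν) ≠ ℵ₀ := by
  rw [cof_W h]
  exact h0.ne'

theorem isClub_iInter (h : ν.IsRegular) (h0 : ℵ₀ < ν) {A : Type u} (hA : #A < ν)
    {C : A → Set (W ν)} (hC : ∀ a, IsClub (C a)) : IsClub (⋂ a, C a) := by
  refine IsClub.iInter (W_cof_ne h h0) ?_ hC
  rw [cof_W h, Cardinal.lift_lt]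
  exact hA

theorem isClub_Ioi (h : ν.IsRegular) (i : W ν) : IsClub (Ioi i : Set (W ν)) := by
  constructor
  · intro d hd hd0 _ a ha
    obtain ⟨x, hx⟩ := hd0
    exact lt_of_lt_of_le (hd hx) (ha.1 hx)
  · intro a
    obtain ⟨j, hj⟩ := W_above h (max a i)
    exact ⟨j, (le_max_right a i).trans_lt hj, ((le_max_left a i).trans_lt hj).le⟩

theorem isClub_diag' (h : ν.IsRegular) (h0 : ℵ₀ < ν) {C : W ν → Set (W ν)}
    (hC : ∀ ξ, IsClub (C ξ)) : IsClub {i | ∀ ξ, ξ < i → i ∈ C ξ} :=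
  isClub_diag (by rw [cof_W h]; exact h0) (fun i => by rw [cof_W h]; exact W_Iic h i) hC

/-- closure points of a function form a club -/
theorem isClub_closure (h : ν.IsRegular) (h0 : ℵ₀ < ν) (F : W ν → W ν) :
    IsClub {i | ∀ ξ, ξ < i → F ξ < i} :=
  isClub_diag' h h0 (C := fun ξ => Ioi (F ξ)) (fun ξ => isClub_Ioi h (F ξ))

theorem isClub_lim (h : ν.IsRegular) (h0 : ℵ₀ < ν) : IsClub {i : W ν | Lim i} := by
  have h1 : ∀ i : W ν, ∃ j, i < j := W_above h
  choose F hF using h1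
  obtain ⟨a⟩ := W_nonempty h
  have h2 := (isClub_closure h h0 F)
  have h3 := IsClub.inter (W_cof_ne h h0) h2 (isClub_Ioi h a)
  have h4 : IsClub {i : W ν | ∀ ξ, ξ < i → ∃ ξ', ξ < ξ' ∧ ξ' < i} := by
    constructor
    · intro d hd hd0 _ x hx ξ hξ
      obtain ⟨z, hz, hξz⟩ := (lt_isLUB_iff hx).1 hξ
      obtain ⟨ξ', h5, h6⟩ := hd hz ξ hξz
      exact ⟨ξ', h5, h6.trans_le (hx.1 hz)⟩
    · intro b
      obtain ⟨c, hc, hbc⟩ := h2.isCofinal b
      exact ⟨c, fun ξ hξ => ⟨F ξ, hF ξ, hc ξ hξ⟩, hbc⟩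
  have h5 : {i : W ν | Lim i} = {i : W ν | ∀ ξ, ξ < i → ∃ ξ', ξ < ξ' ∧ ξ' < i} ∩
      {i | ∃ ξ, ξ < i} := by
    ext i
    exact and_comm
  have h6 : IsClub {i : W ν | ∃ ξ, ξ < i} := by
    constructor
    · intro d hd hd0 _ x hx
      obtain ⟨z, hz⟩ := hd0
      obtain ⟨ξ, hξ⟩ := hd hz
      exact ⟨ξ, hξ.trans_le (hx.1 hz)⟩
    · intro b
      obtain ⟨c, hc⟩ := W_above h b
      exact ⟨c, ⟨b, hc⟩, hc.le⟩
  rw [h5]
  exact IsClub.inter (W_cof_ne h h0) h4 h6

end W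

/-! ### recursion -/

theorem exists_rec {J : Type*} [LinearOrder J] [WellFoundedLT J] {A : Type*} [Nonempty A]
    (R : J → (J → A) → A → Prop)
    (hloc : ∀ j f f' a, (∀ j' < j, f j' = f' j') → R j f a → R j f' a)
    (hex : ∀ j f, (∀ j' < j, R j' f (f j')) → ∃ a, R j f a) : ∃ F : J → A, ∀ j, R j F (F j) := by
  classical
  obtain ⟨d⟩ : Nonempty A := inferInstance
  have h1 : ∀ j f, ∃ a, (∀ j' < j, R j' f (f j')) → R j f a := by
    intro j f
    by_cases h : ∀ j' < j, R j' f (f j')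
    · obtain ⟨a, ha⟩ := hex j f h
      exact ⟨a, fun _ => ha⟩
    · exact ⟨d, fun h' => (h h').elim⟩
  choose c hc using h1
  let F : J → A := (wellFounded_lt (α := J)).fix
    (fun j IH => c j (fun j' => if h : j' < j then IH j' h else d))
  have hF : ∀ j, F j = c j (fun j' => if j' < j then F j' else d) := by
    intro j
    have h2 := (wellFounded_lt (α := J)).fix_eq
      (fun j (IH : (y : J) → y < j → A) => c j (fun j' => if h : j' < j then IH j' h else d)) j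
    exact h2
  refine ⟨F, fun j => ?_⟩
  induction j using WellFoundedLT.induction with
  | ind j ih =>
    have h2 := hc j (fun j' => if j' < j then F j' else d) (by
      intro j' hj'
      have h3 : (if j' < j then F j' else d) = F j' := if_pos hj'
      rw [h3]
      refine hloc j' F _ _ ?_ (ih j' hj')
      intro j'' hj''
      exact (if_pos (hj''.trans hj')).symm)
    rw [← hF] at h2
    refine hloc j _ F _ ?_ h2
    intro j' hj'
    exact if_pos hj'

/-! ### least strict upper bounds -/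

/-- `v` is the least strict upper bound of the ordinals satisfying `P` -/
def LS (P : Ordinal.{u} → Prop) (v : Ordinal.{u}) : Prop :=
  (∀ x, P x → x < v) ∧ ∀ v' < v, ∃ x, P x ∧ v' ≤ x

theorem LS.le {P P' : Ordinal.{u} → Prop} {v v' : Ordinal.{u}} (h : LS P v) (h' : LS P' v')
    (hPP : ∀ x, P x → ∃ x', P' x' ∧ x ≤ x') : v ≤ v' := by
  by_contra hcon
  obtain ⟨x, hx, hx'⟩ := h.2 v' (not_le.1 hcon)
  obtain ⟨x', h1, h2⟩ := hPP x hx
  exact ((hx'.trans h2).trans_lt (h'.1 x' h1)).false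

theorem LS.unique {P P' : Ordinal.{u} → Prop} {v v' : Ordinal.{u}} (h : LS P v) (h' : LS P' v')
    (hPP : ∀ x, P x ↔ P' x) : v = v' :=
  le_antisymm (h.le h' fun x hx => ⟨x, (hPP x).1 hx, le_rfl⟩)
    (h'.le h fun x hx => ⟨x, (hPP x).2 hx, le_rfl⟩)

theorem LS.congr {P P' : Ordinal.{u} → Prop} {v : Ordinal.{u}} (h : LS P v)
    (hPP : ∀ x, P x ↔ P' x) : LS P' v := by
  refine ⟨fun x hx => h.1 x ((hPP x).2 hx), fun v' hv' => ?_⟩
  obtain ⟨x, hx, hx'⟩ := h.2 v' hv'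
  exact ⟨x, (hPP x).1 hx, hx'⟩

theorem exists_LS {P : Ordinal.{u} → Prop} {b : Ordinal.{u}} (hb : ∀ x, P x → x < b) :
    ∃ v, v ≤ b ∧ LS P v := by
  refine ⟨sInf {v | ∀ x, P x → x < v}, csInf_le' hb, ?_, ?_⟩
  · exact csInf_mem (s := {v | ∀ x, P x → x < v}) ⟨b, hb⟩
  · intro v' hv'
    by_contra hcon
    push Not at hcon
    exact (csInf_le' (s := {v | ∀ x, P x → x < v}) (a := v') hcon).not_gt hv'

theorem exists_bound {κ : Cardinal.{u}} (hκ : κ.IsRegular) {X : Set Ordinal.{u}}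
    (hX : #X < Cardinal.lift.{u + 1} κ) (f : Ordinal.{u} → Ordinal.{u})
    (hf : ∀ x ∈ X, f x < κ.ord) : ∃ b, b < κ.ord ∧ ∀ x ∈ X, f x < b := by
  have h1 : sSup ((· + 1) '' (f '' X)) < κ.ord := by
    apply Ordinal.sSup_add_one_lt_of_lt_cof
    · rw [← Ordinal.lift_cof, hκ.cof_ord]
      exact mk_image_le.trans_lt hX
    · rintro _ ⟨x, hx, rfl⟩
      exact hf x hx
  refine ⟨_, h1, fun x hx => ?_⟩
  refine lt_of_lt_of_le (lt_add_one _) (le_csSup ?_ ⟨f x, ⟨x, hx, rfl⟩, rfl⟩)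
  refine ⟨κ.ord, ?_⟩
  rintro _ ⟨_, ⟨y, hy, rfl⟩, rfl⟩
  exact Order.add_one_le_of_lt (hf y hy)

theorem exists_bound' {κ : Cardinal.{u}} (hκ : κ.IsRegular) {A : Type u} (hA : #A < κ)
    (f : A → Ordinal.{u}) (hf : ∀ x, f x < κ.ord) : ∃ b, b < κ.ord ∧ ∀ x, f x < b := by
  refine ⟨⨆ x, f x + 1, ?_, ?_⟩
  · apply Ordinal.iSup_add_one_lt_of_lt_cof _ hf
    rw [hκ.cof_ord]
    exact hA
  · intro x
    exact lt_of_lt_of_le (lt_add_one _) (Ordinal.le_iSup (fun x => f x + 1) x)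

/-! ### the ladder -/

theorem cof_lt {lam : Cardinal.{u}} (hs : lam.IsSingular) : lam.ord.cof < lam := by
  refine lt_of_le_of_ne (Ordinal.cof_ord_le lam) ?_
  intro h
  exact hs.not_isRegular ⟨hs.aleph0_le, h.ge⟩

/-- the standing assumptions -/
structure Sg (lam : Cardinal.{u}) : Prop where
  sing : lam.IsSingular
  unc : ℵ₀ < lam.ord.cof

variable {lam : Cardinal.{u}}

/-- the continuous ladder above the cofinality -/
noncomputable def tm (lam : Cardinal.{u}) (i : Idx lam) : Ordinal.{u} :=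
  max (th lam i) (lam.ord.cof).ord

noncomputable def cm (lam : Cardinal.{u}) (i : Idx lam) : Cardinal.{u} := (tm lam i).card

noncomputable def km (lam : Cardinal.{u}) (i : Idx lam) : Ordinal.{u} :=
  (Order.succ (cm lam i)).ord

theorem Sg.tm_lt (h : Sg lam) (i : Idx lam) : tm lam i < lam.ord :=
  max_lt (th_lt h.unc i) (ord_lt_ord.2 (cof_lt h.sing))

theorem Sg.cm_lt (h : Sg lam) (i : Idx lam) : cm lam i < lam := lt_ord.1 (h.tm_lt i)

theorem tm_lim (i : Idx lam) (hi : Lim i) (x : Ordinal.{u}) (hx : x < tm lam i) :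
    ∃ ξ, ξ < i ∧ x < tm lam ξ := by
  rcases lt_max_iff.1 hx with h | h
  · obtain ⟨ξ, h1, h2⟩ := th_lim i hi x h
    exact ⟨ξ, h1, lt_max_of_lt_left h2⟩
  · obtain ⟨ξ, hξ⟩ := hi.1
    exact ⟨ξ, hξ, lt_max_of_lt_right h⟩

theorem cof_le_cm (i : Idx lam) : lam.ord.cof ≤ cm lam i := by
  have h1 : lam.ord.cof = ((lam.ord.cof).ord).card := (card_ord _).symm
  rw [h1]
  exact Ordinal.card_le_card (le_max_right _ _)

theorem Sg.aleph0_le_cm (h : Sg lam) (i : Idx lam) : ℵ₀ ≤ cm lam i :=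
  h.unc.le.trans (cof_le_cm i)

theorem Sg.reg_km (h : Sg lam) (i : Idx lam) : (Order.succ (cm lam i)).IsRegular :=
  isRegular_succ (h.aleph0_le_cm i)

theorem Sg.cof_reg (h : Sg lam) : (lam.ord.cof).IsRegular := by
  refine ⟨h.unc.le, ?_⟩
  rw [Ordinal.cof_ord_cof]

theorem eventually_iff {P : Idx lam → Prop} [Nonempty (Idx lam)] :
    (∀ᶠ i in Filter.atTop, P i) ↔ ∃ n, ∀ i, n ≤ i → P i := Filter.eventually_atTop

theorem Sg.nonempty (h : Sg lam) : Nonempty (Idx lam) := by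
  have := Idx_infinite h.unc
  infer_instance

theorem Sg.tm_ev (h : Sg lam) {x : Ordinal.{u}} (hx : x < lam.ord) :
    ∀ᶠ i in Filter.atTop, x < tm lam i := by
  have := h.nonempty
  obtain ⟨i0, hi0⟩ := th_cofinal x hx
  obtain ⟨i1, hi1⟩ := W_above h.cof_reg i0
  rw [Filter.eventually_atTop]
  refine ⟨i1, fun i hi => ?_⟩
  exact lt_max_of_lt_left (hi0 i (lt_of_lt_of_le hi1 hi))

theorem Sg.cm_ev (h : Sg lam) {c : Cardinal.{u}} (hc : c < lam) :
    ∀ᶠ i in Filter.atTop, c ≤ cm lam i := by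
  filter_upwards [h.tm_ev (ord_lt_ord.2 hc)] with i hi
  have h1 : c = (c.ord).card := (card_ord _).symm
  rw [h1]
  exact Ordinal.card_le_card hi.le

theorem Sg.limit (h : Sg lam) {c : Cardinal.{u}} (hc : c < lam) : Order.succ c < lam :=
  h.sing.isSuccLimit.succ_lt hc

theorem Sg.succ_cm_lt (h : Sg lam) (i : Idx lam) : Order.succ (cm lam i) < lam := h.limit (h.cm_lt i)

theorem exists_inj (lam : Cardinal.{u}) (i : Idx lam) (η : Ordinal.{u}) :
    ∃ e : Ordinal.{u} → Ordinal.{u}, η < km lam i →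
      (∀ x, x < η → e x < tm lam i) ∧ ∀ x y, x < η → y < η → e x = e y → x = y := by
  classical
  by_cases hη : η < km lam i
  · have h1 : #(Iio η) ≤ #(Iio (tm lam i)) := by
      rw [Cardinal.mk_Iio_ordinal, Cardinal.mk_Iio_ordinal, Cardinal.lift_le]
      rw [km, lt_ord, Order.lt_succ_iff] at hη
      exact hη
    obtain ⟨e⟩ := h1
    have key : ∀ x, ∀ hx : x ∈ Iio η, (if h : x ∈ Iio η then (e ⟨x, h⟩).1 else 0) = (e ⟨x, hx⟩).1 :=
      fun x hx => dif_pos hx
    refine ⟨fun x => if h : x ∈ Iio η then (e ⟨x, h⟩).1 else 0, fun _ => ⟨?_, ?_⟩⟩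
    · intro x hx
      exact lt_of_eq_of_lt (key x hx) (e ⟨x, hx⟩).2
    · intro x y hx hy hxy
      have h3 := (key x hx).symm.trans (hxy.trans (key y hy))
      have h2 := e.injective (Subtype.ext h3)
      exact congrArg Subtype.val h2
  · exact ⟨fun _ => 0, fun h => (hη h).elim⟩

/-- the chosen injections -/
noncomputable def ee (lam : Cardinal.{u}) (i : Idx lam) (η : Ordinal.{u}) : Ordinal.{u} → Ordinal.{u} :=
  (exists_inj lam i η).choose

theorem ee_lt {i : Idx lam} {η x : Ordinal.{u}} (hη : η < km lam i) (hx : x < η) :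
    ee lam i η x < tm lam i := ((exists_inj lam i η).choose_spec hη).1 x hx

theorem ee_inj {i : Idx lam} {η x y : Ordinal.{u}} (hη : η < km lam i) (hx : x < η) (hy : y < η)
    (h : ee lam i η x = ee lam i η y) : x = y :=
  ((exists_inj lam i η).choose_spec hη).2 x y hx hy h

end Pool.Agent.Helper92.CS
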