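import Pool.Agent.Helper92.CS.Enc

/-!
Correctness of the formulas.
-/

open Set Ordinal Cardinal

universe u

namespace Pool.Agent.Helper92.CS

open Pool.Agent.Helper98
open ZFSet (pair)

variable {lam : Cardinal.{u}} {dE : TT lam → LB lam} {w : Wit.{u}} {g : Ordinal.{u} → Fn lam}
  {a : Ordinal.{u}} {h v : Fn lam}

/-- `f` is the function coded by the section of `G` at `a` -/
def Sec (dE : TT lam → LB lam) (G a : ZFSet.{u}) (f : Fn lam) : Prop :=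
  ∀ t, pair (enc t) a ∈ G ↔ vl dE t = f (ix dE t)

/-- the coded relation at `a` -/
def Yr (w : Wit.{u}) (a : Ordinal.{u}) {ν : Cardinal.{u}} (γ : W ν) (η : Ordinal.{u}) : Prop :=
  pair (enc γ) (pair η.toZFSet a.toZFSet) ∈ w.Y

/-- the situation at the ordinal `a` -/
structure Ctx (dE : TT lam → LB lam) (w : Wit.{u}) (g : Ordinal.{u} → Fn lam) (a : Ordinal.{u}) :
    Prop where
  hs : Sg lam
  hE : Function.Surjective dE
  hB : HB lam w.B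
  hG : ∀ ξ, ξ < a → Sec dE w.G ξ.toZFSet (g ξ)
  hg : ∀ ξ, ξ < a → ∀ i, g ξ i < km lam i

theorem goodS_iff (hs : Sg lam) (hE : Function.Surjective dE) {G x : ZFSet.{u}} :
    GoodS (par dE) G x ↔ ∃ f : Fn lam, (∀ i, f i < km lam i) ∧ Sec dE G x f := by
  rw [GoodS, par_L]
  constructor
  · rintro ⟨h1, h2, h3⟩
    have h4 : ∀ i : Idx lam, ∃ t, pair (enc t) x ∈ G ∧ ix dE t = i := by
      intro i
      obtain ⟨p, hp, _⟩ := exists_label hE (hs.reg_km i).ord_pos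
      obtain ⟨q, hq, hq1, hq2⟩ := h3 _ (enc_mem_L p)
      obtain ⟨t, rfl⟩ := mem_L_iff.1 hq
      exact ⟨t, hq1, (mem_par_SI.1 hq2).symm.trans hp⟩
    choose T hT1 hT2 using h4
    refine ⟨fun i => vl dE (T i), fun i => ?_, fun t => ⟨fun ht => ?_, fun ht => ?_⟩⟩
    · have h5 := vl_lt (dE := dE) (T i)
      rw [hT2] at h5
      exact h5
    · rcases lt_trichotomy (vl dE t) (vl dE (T (ix dE t))) with h5 | h5 | h5
      · exact (h1 _ (enc_mem_L _) _ (enc_mem_L _) ht (hT1 _) (mem_par_Lv.2 ⟨(hT2 _).symm, h5⟩)).elim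
      · exact h5
      · exact (h1 _ (enc_mem_L _) _ (enc_mem_L _) (hT1 _) ht (mem_par_Lv.2 ⟨hT2 _, h5⟩)).elim
    · refine h2 _ (enc_mem_L (T (ix dE t))) _ (enc_mem_L t) (hT1 _) (mem_par_SI.2 (hT2 _)) ?_ ?_
      · intro h5
        have h6 := (mem_par_Lv.1 h5).2
        rw [ht] at h6
        exact lt_irrefl _ h6
      · intro h5
        have h6 := (mem_par_Lv.1 h5).2
        rw [ht] at h6
        exact lt_irrefl _ h6
  · rintro ⟨f, hf, hS⟩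
    refine ⟨?_, ?_, ?_⟩
    · intro p hp q hq hp1 hq1 h1
      obtain ⟨s, rfl⟩ := mem_L_iff.1 hp
      obtain ⟨t, rfl⟩ := mem_L_iff.1 hq
      obtain ⟨h2, h3⟩ := mem_par_Lv.1 h1
      rw [(hS s).1 hp1, (hS t).1 hq1, h2] at h3
      exact lt_irrefl _ h3
    · intro p hp q hq hp1 h1 h2 h3
      obtain ⟨s, rfl⟩ := mem_L_iff.1 hp
      obtain ⟨t, rfl⟩ := mem_L_iff.1 hq
      have h4 := mem_par_SI.1 h1
      rw [mem_par_Lv] at h2 h3
      refine (hS t).2 ?_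
      rw [← h4, ← (hS s).1 hp1]
      rcases lt_trichotomy (vl dE t) (vl dE s) with h5 | h5 | h5
      · exact (h3 ⟨h4.symm, h5⟩).elim
      · exact h5
      · exact (h2 ⟨h4, h5⟩).elim
    · rw [forall_mem_L]
      intro t
      obtain ⟨s, hs1, hs2⟩ := exists_label hE (hf (ix dE t))
      exact ⟨enc s, enc_mem_L s, (hS s).2 (by rw [hs1]; exact hs2), mem_par_SI.2 hs1.symm⟩

theorem LS_iff (hE : Function.Surjective dE) {t : TT lam} {P : Ordinal.{u} → Prop}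
    (hP : ∀ x, P x → x < km lam (ix dE t)) :
    LS P (vl dE t) ↔ (∀ r, ix dE r = ix dE t → P (vl dE r) → vl dE r < vl dE t) ∧
      ∀ q, ix dE q = ix dE t → vl dE q < vl dE t →
        ∃ r, ix dE r = ix dE t ∧ P (vl dE r) ∧ ¬ vl dE r < vl dE q := by
  constructor
  · rintro ⟨h1, h2⟩
    refine ⟨fun r _ hr => h1 _ hr, fun q _ hq2 => ?_⟩
    obtain ⟨x, hx, hx2⟩ := h2 _ hq2
    obtain ⟨r, hr1, hr2⟩ := exists_label hE (hP x hx)
    refine ⟨r, hr1, by rw [hr2]; exact hx, ?_⟩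
    rw [hr2]
    exact not_lt.2 hx2
  · rintro ⟨h1, h2⟩
    refine ⟨fun x hx => ?_, fun v' hv' => ?_⟩
    · obtain ⟨r, hr1, hr2⟩ := exists_label hE (hP x hx)
      have h3 := h1 r hr1 (by rw [hr2]; exact hx)
      rw [hr2] at h3
      exact h3
    · obtain ⟨q, hq1, hq2⟩ := exists_label hE (hv'.trans (vl_lt t))
      obtain ⟨r, _, hr2, hr3⟩ := h2 q hq1 (by rw [hq2]; exact hv')
      rw [hq2] at hr3
      exact ⟨_, hr2, not_lt.1 hr3⟩

theorem v1F_iff : V1F (par dE) w a.toZFSet ↔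
    V1 (lam := lam) a (fun γ η => η < a ∧ Yr w a γ η) := by
  rw [V1F, par_m]
  constructor
  · rintro ⟨h1, h2⟩
    refine ⟨fun γ η h3 => h3.1, ?_, ?_⟩
    · rintro γ η η' ⟨h3, h4⟩ ⟨h5, h6⟩
      exact Ordinal.toZFSet_injective (h1 _ (enc_mem_L γ) _
        (Ordinal.toZFSet_mem_toZFSet_iff.2 h3) _ (Ordinal.toZFSet_mem_toZFSet_iff.2 h5) h4 h6)
    · intro ξ hξ
      obtain ⟨γ, hγ, η, hη, h3, h4⟩ := h2 _ (Ordinal.toZFSet_mem_toZFSet_iff.2 hξ)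
      obtain ⟨γ, rfl⟩ := mem_L_iff.1 hγ
      obtain ⟨η, hηo, rfl⟩ := Ordinal.mem_toZFSet_iff.1 hη
      have hη := hηo
      refine ⟨γ, η, ⟨hη, h3⟩, ?_⟩
      rcases h4 with h4 | h4
      · exact (Ordinal.toZFSet_mem_toZFSet_iff.1 h4).le
      · exact (Ordinal.toZFSet_injective h4).le
  · intro H
    refine ⟨?_, ?_⟩
    · intro γ hγ η hη η' hη' h3 h4
      obtain ⟨γ, rfl⟩ := mem_L_iff.1 hγ
      obtain ⟨η, hηo, rfl⟩ := Ordinal.mem_toZFSet_iff.1 hη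
      have hη := hηo
      obtain ⟨η', hη'o, rfl⟩ := Ordinal.mem_toZFSet_iff.1 hη'
      have hη' := hη'o
      rw [H.uniq γ η η' ⟨hη, h3⟩ ⟨hη', h4⟩]
    · intro ξ hξ
      obtain ⟨ξ, hξo, rfl⟩ := Ordinal.mem_toZFSet_iff.1 hξ
      have hξ := hξo
      obtain ⟨γ, η, ⟨h1, h2⟩, h3⟩ := H.cof ξ hξ
      refine ⟨_, enc_mem_L γ, _, Ordinal.toZFSet_mem_toZFSet_iff.2 h1, h2, ?_⟩
      rcases h3.eq_or_lt with h4 | h4
      · right
        rw [h4]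
      · left
        exact Ordinal.toZFSet_mem_toZFSet_iff.2 h4

theorem Ctx.hyF_iff (C : Ctx dE w g a) (hh : ∀ i, h i < km lam i)
    (hH : Sec dE w.H a.toZFSet h) :
    HYF (par dE) w a.toZFSet ↔ HY g (fun γ η => η < a ∧ Yr w a γ η) h := by
  have key : ∀ t : TT lam, LS (fun x => ∃ γ η, γ < ix dE t ∧ (η < a ∧ Yr w a γ η) ∧
      x = g η (ix dE t)) (vl dE t) ↔
      ((∀ γ ∈ (par dE).m, ∀ η ∈ a.toZFSet, ∀ r ∈ (par dE).L, pair γ (pair η a.toZFSet) ∈ w.Y →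
        pair (enc t) γ ∈ (par dE).LI → pair r η ∈ w.G → pair r (enc t) ∈ (par dE).SI →
        pair r (enc t) ∈ (par dE).Lv) ∧
      ∀ q' ∈ (par dE).L, pair q' (enc t) ∈ (par dE).Lv → ∃ γ ∈ (par dE).m, ∃ η ∈ a.toZFSet,
        ∃ r ∈ (par dE).L, pair γ (pair η a.toZFSet) ∈ w.Y ∧ pair (enc t) γ ∈ (par dE).LI ∧
        pair r η ∈ w.G ∧ pair r (enc t) ∈ (par dE).SI ∧ ¬ pair r q' ∈ (par dE).Lv) := by
    intro t
    rw [LS_iff C.hE (by
      rintro x ⟨γ, η, _, h1, rfl⟩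
      exact C.hg η h1.1 _), par_L, par_m]
    refine and_congr ?_ ?_
    · constructor
      · intro H γ hγ η hη r hr h1 h2 h3 h4
        obtain ⟨γ, rfl⟩ := mem_L_iff.1 hγ
        obtain ⟨η, hηo, rfl⟩ := Ordinal.mem_toZFSet_iff.1 hη
        have hη := hηo
        obtain ⟨r, rfl⟩ := mem_L_iff.1 hr
        have h5 := mem_par_SI.1 h4
        refine mem_par_Lv.2 ⟨h5, H r h5 ⟨γ, η, mem_par_LI.1 h2, ⟨hη, h1⟩, ?_⟩⟩
        rw [← h5]
        exact (C.hG η hη r).1 h3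
      · rintro H r hr ⟨γ, η, h1, ⟨h2, h3⟩, h4⟩
        refine (mem_par_Lv.1 (H _ (enc_mem_L γ) _ (Ordinal.toZFSet_mem_toZFSet_iff.2 h2) _
          (enc_mem_L r) h3 (mem_par_LI.2 h1) ((C.hG η h2 r).2 ?_) (mem_par_SI.2 hr))).2
        rw [hr]
        exact h4
    · constructor
      · intro H q hq hq'
        obtain ⟨q, rfl⟩ := mem_L_iff.1 hq
        obtain ⟨h1, h2⟩ := mem_par_Lv.1 hq'
        obtain ⟨r, hr, ⟨γ, η, h3, ⟨h4, h5⟩, h6⟩, h7⟩ := H q h1 h2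
        refine ⟨_, enc_mem_L γ, _, Ordinal.toZFSet_mem_toZFSet_iff.2 h4, _, enc_mem_L r, h5,
          mem_par_LI.2 h3, (C.hG η h4 r).2 (by rw [hr]; exact h6), mem_par_SI.2 hr, ?_⟩
        intro h8
        exact h7 (mem_par_Lv.1 h8).2
      · intro H q hq hq'
        obtain ⟨γ, hγ, η, hη, r, hr, h1, h2, h3, h4, h5⟩ := H _ (enc_mem_L q)
          (mem_par_Lv.2 ⟨hq, hq'⟩)
        obtain ⟨γ, rfl⟩ := mem_L_iff.1 hγ
        obtain ⟨η, hηo, rfl⟩ := Ordinal.mem_toZFSet_iff.1 hη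
        have hη := hηo
        obtain ⟨r, rfl⟩ := mem_L_iff.1 hr
        have h6 := mem_par_SI.1 h4
        refine ⟨r, h6, ⟨γ, η, mem_par_LI.1 h2, ⟨hη, h1⟩, ?_⟩, ?_⟩
        · rw [← h6]
          exact (C.hG η hη r).1 h3
        · intro h7
          exact h5 (mem_par_Lv.2 ⟨h6.trans hq.symm, h7⟩)
  rw [HYF]
  constructor
  · intro H i
    obtain ⟨t, ht1, ht2⟩ := exists_label C.hE (hh i)
    have h1 := (key t).2 (H _ (enc_mem_L t) ((hH t).2 (by rw [ht1]; exact ht2)))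
    rw [ht1, ht2] at h1
    exact h1
  · intro H q hq hq'
    obtain ⟨t, rfl⟩ := mem_L_iff.1 (show q ∈ lam.ord.toZFSet from hq)
    refine (key t).1 ?_
    rw [(hH t).1 hq']
    exact H (ix dE t)

theorem Ctx.stF_iff (C : Ctx dE w g a) (hh : ∀ i, h i < km lam i)
    (hH : Sec dE w.H a.toZFSet h) {ξ : Ordinal.{u}} (hξ : ξ < a) (r : TT lam) :
    StF (par dE) w a.toZFSet ξ.toZFSet (enc r) ↔ St g h ξ (ix dE r) := by
  rw [StF, par_m, forall_club C.hB (Or.inl rfl), St, IsStationary]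
  refine forall_congr' fun D => imp_congr Iff.rfl ?_
  rw [par_L]
  constructor
  · rintro ⟨i, hi, p, hp, q, hq, h1, h2, h3, h4⟩
    obtain ⟨p, rfl⟩ := mem_L_iff.1 hp
    obtain ⟨q, rfl⟩ := mem_L_iff.1 hq
    obtain ⟨h5, h6, h7⟩ := mem_par_EK.1 h4
    have h8 := mem_par_IO.1 h1
    have h9 := (C.hG ξ hξ p).1 h2
    have h10 := (hH q).1 h3
    rw [← h5] at h10
    refine ⟨i, ⟨?_, ?_⟩, hi⟩
    · rw [h8, ← h9, ← h10]
      exact h6
    · rw [h8, ← h9, ← h10]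
      exact h7
  · rintro ⟨i, ⟨h1, h2⟩, hi⟩
    obtain ⟨p, hp1, hp2⟩ := exists_label C.hE (C.hg ξ hξ i)
    obtain ⟨q, hq1, hq2⟩ := exists_label C.hE (hh i)
    refine ⟨i, hi, _, enc_mem_L p, _, enc_mem_L q, mem_par_IO.2 hp1.symm,
      (C.hG ξ hξ p).2 (by rw [hp1]; exact hp2), (hH q).2 (by rw [hq1]; exact hq2),
      mem_par_EK.2 ⟨hp1.trans hq1.symm, ?_, ?_⟩⟩
    · rw [hp2, hq2]
      exact h1
    · rw [hp1, hp2, hq2]
      exact h2

theorem Ctx.s1F_iff (C : Ctx dE w g a) (hh : ∀ i, h i < km lam i)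
    (hH : Sec dE w.H a.toZFSet h) (hv : ∀ i, v i < km lam i)
    (hA : Sec dE w.G a.toZFSet v) :
    S1F (par dE) w a.toZFSet ↔ S1 g a h v := by
  have hix : ∀ k : Idx lam, ∃ r, ix dE r = k := by
    intro k
    obtain ⟨r, hr, _⟩ := exists_label C.hE (C.hs.reg_km k).ord_pos
    exact ⟨r, hr⟩
  have key : ∀ t : TT lam, LS (fun x => ∃ k ξ, RR k (ix dE t) ∧ ξ < a ∧ St g h ξ k ∧
      x = g ξ (ix dE t)) (vl dE t) ↔
      ((∀ r ∈ (par dE).L, ∀ ξ ∈ a.toZFSet, ∀ p ∈ (par dE).L, pair r (enc t) ∈ (par dE).RF →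
        StF (par dE) w a.toZFSet ξ r → pair p ξ ∈ w.G → pair p (enc t) ∈ (par dE).SI →
        pair p (enc t) ∈ (par dE).Lv) ∧
      ∀ q' ∈ (par dE).L, pair q' (enc t) ∈ (par dE).Lv → ∃ r ∈ (par dE).L, ∃ ξ ∈ a.toZFSet,
        ∃ p ∈ (par dE).L, pair r (enc t) ∈ (par dE).RF ∧ StF (par dE) w a.toZFSet ξ r ∧
        pair p ξ ∈ w.G ∧ pair p (enc t) ∈ (par dE).SI ∧ ¬ pair p q' ∈ (par dE).Lv) := by
    intro t
    rw [LS_iff C.hE (by
      rintro x ⟨k, ξ, _, h1, _, rfl⟩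
      exact C.hg ξ h1 _), par_L]
    refine and_congr ?_ ?_
    · constructor
      · intro H r hr ξ hξ p hp h1 h2 h3 h4
        obtain ⟨r, rfl⟩ := mem_L_iff.1 hr
        obtain ⟨ξ, hξo, rfl⟩ := Ordinal.mem_toZFSet_iff.1 hξ
        have hξ := hξo
        obtain ⟨p, rfl⟩ := mem_L_iff.1 hp
        have h5 := mem_par_SI.1 h4
        refine mem_par_Lv.2 ⟨h5, H p h5 ⟨ix dE r, ξ, mem_par_RF.1 h1, hξ,
          (C.stF_iff hh hH hξ r).1 h2, ?_⟩⟩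
        rw [← h5]
        exact (C.hG ξ hξ p).1 h3
      · rintro H p hp ⟨k, ξ, h1, h2, h3, h4⟩
        obtain ⟨r, rfl⟩ := hix k
        refine (mem_par_Lv.1 (H _ (enc_mem_L r) _ (Ordinal.toZFSet_mem_toZFSet_iff.2 h2) _
          (enc_mem_L p) (mem_par_RF.2 h1) ((C.stF_iff hh hH h2 r).2 h3)
          ((C.hG ξ h2 p).2 ?_) (mem_par_SI.2 hp))).2
        rw [hp]
        exact h4
    · constructor
      · intro H q hq hq'
        obtain ⟨q, rfl⟩ := mem_L_iff.1 hq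
        obtain ⟨h1, h2⟩ := mem_par_Lv.1 hq'
        obtain ⟨p, hp, ⟨k, ξ, h3, h4, h5, h6⟩, h7⟩ := H q h1 h2
        obtain ⟨r, rfl⟩ := hix k
        refine ⟨_, enc_mem_L r, _, Ordinal.toZFSet_mem_toZFSet_iff.2 h4, _, enc_mem_L p,
          mem_par_RF.2 h3, (C.stF_iff hh hH h4 r).2 h5,
          (C.hG ξ h4 p).2 (by rw [hp]; exact h6), mem_par_SI.2 hp, ?_⟩
        intro h8
        exact h7 (mem_par_Lv.1 h8).2
      · intro H q hq hq'
        obtain ⟨r, hr, ξ, hξ, p, hp, h1, h2, h3, h4, h5⟩ := H _ (enc_mem_L q)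
          (mem_par_Lv.2 ⟨hq, hq'⟩)
        obtain ⟨r, rfl⟩ := mem_L_iff.1 hr
        obtain ⟨ξ, hξo, rfl⟩ := Ordinal.mem_toZFSet_iff.1 hξ
        have hξ := hξo
        obtain ⟨p, rfl⟩ := mem_L_iff.1 hp
        have h6 := mem_par_SI.1 h4
        refine ⟨p, h6, ⟨ix dE r, ξ, mem_par_RF.1 h1, hξ, (C.stF_iff hh hH hξ r).1 h2, ?_⟩, ?_⟩
        · rw [← h6]
          exact (C.hG ξ hξ p).1 h3
        · intro h7
          exact h5 (mem_par_Lv.2 ⟨h6.trans hq.symm, h7⟩)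
  rw [S1F]
  constructor
  · intro H i
    obtain ⟨t, ht1, ht2⟩ := exists_label C.hE (hv i)
    have h1 := (key t).2 (H _ (enc_mem_L t) ((hA t).2 (by rw [ht1]; exact ht2)))
    rw [ht1, ht2] at h1
    exact h1
  · intro H q hq hq'
    obtain ⟨t, rfl⟩ := mem_L_iff.1 (show q ∈ lam.ord.toZFSet from hq)
    refine (key t).1 ?_
    rw [(hA t).1 hq']
    exact H (ix dE t)

/-- the coded function at points of large cofinality -/
def YF (w : Wit.{u}) (a : Ordinal.{u}) {ν : Cardinal.{u}} (y : W ν → Ordinal.{u}) : Prop :=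
  ∀ γ η, η < a → (Yr w a γ η ↔ η = y γ)

theorem v2F_iff {ν : Cardinal.{u}} : V2F w a.toZFSet ν.ord.toZFSet ↔
    ∃ y : W ν → Ordinal.{u}, YF w a y ∧ V2 a ν y := by
  rw [V2F]
  constructor
  · rintro ⟨h1, h2, h3, h4⟩
    have h5 : ∀ γ : W ν, ∃ η, η < a ∧ Yr w a γ η := by
      intro γ
      obtain ⟨η, hη, h6⟩ := h1 _ (enc_mem_L γ)
      obtain ⟨η, hηo, rfl⟩ := Ordinal.mem_toZFSet_iff.1 hη
      have hη := hηo
      exact ⟨η, hη, h6⟩
    choose y hy1 hy2 using h5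
    have h6 : ∀ γ γ' : W ν, ∀ η η', η < a → η' < a → Yr w a γ η → Yr w a γ' η' → γ ≤ γ' →
        η ≤ η' := by
      intro γ γ' η η' h7 h8 h9 h10 h11
      have h12 := h2 _ (enc_mem_L γ) _ (enc_mem_L γ') _ (Ordinal.toZFSet_mem_toZFSet_iff.2 h7) _
        (Ordinal.toZFSet_mem_toZFSet_iff.2 h8) h9 h10 (by
          rcases h11.eq_or_lt with h13 | h13
          · right
            rw [h13]
          · left
            exact enc_mem_enc.2 h13)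
      rcases h12 with h12 | h12
      · exact (Ordinal.toZFSet_mem_toZFSet_iff.1 h12).le
      · exact (Ordinal.toZFSet_injective h12).le
    refine ⟨y, ?_, ?_, hy1, ?_, ?_⟩
    · intro γ η hη
      constructor
      · intro h7
        exact le_antisymm (h6 _ _ _ _ hη (hy1 γ) h7 (hy2 γ) le_rfl)
          (h6 _ _ _ _ (hy1 γ) hη (hy2 γ) h7 le_rfl)
      · rintro rfl
        exact hy2 γ
    · intro γ γ' h7
      exact h6 _ _ _ _ (hy1 γ) (hy1 γ') (hy2 γ) (hy2 γ') h7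
    · intro ξ hξ
      obtain ⟨γ, hγ, η, hη, h7, h8⟩ := h3 _ (Ordinal.toZFSet_mem_toZFSet_iff.2 hξ)
      obtain ⟨γ, rfl⟩ := mem_L_iff.1 hγ
      obtain ⟨η, hηo, rfl⟩ := Ordinal.mem_toZFSet_iff.1 hη
      have hη := hηo
      exact ⟨γ, (Ordinal.toZFSet_mem_toZFSet_iff.1 h8).trans_le
        (h6 _ _ _ _ hη (hy1 γ) h7 (hy2 γ) le_rfl)⟩
    · intro γ hγ ξ hξ
      obtain ⟨γ', hγ', η', hη', h7, h8⟩ := h4 _ (enc_mem_L γ) (limF_enc.2 hγ) _
        (Ordinal.toZFSet_mem_toZFSet_iff.2 (hy1 γ)) (hy2 γ) _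
        (Ordinal.toZFSet_mem_toZFSet_iff.2 hξ)
      obtain ⟨η', hη'o, rfl⟩ := Ordinal.mem_toZFSet_iff.1 hη'
      have hη' := hη'o
      obtain ⟨o, ho, rfl⟩ := Ordinal.mem_toZFSet_iff.1 hγ'
      have h9 : o.toZFSet ∈ ν.ord.toZFSet :=
        Ordinal.toZFSet_mem_toZFSet_iff.2 (ho.trans γ.toOrd.2)
      obtain ⟨γ', h10⟩ := mem_L_iff.1 h9
      rw [← h10] at hγ' h7
      exact ⟨γ', enc_mem_enc.1 hγ', (Ordinal.toZFSet_mem_toZFSet_iff.1 h8).trans_le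
        (h6 _ _ _ _ hη' (hy1 γ') h7 (hy2 γ') le_rfl)⟩
  · rintro ⟨y, hY, hV⟩
    have hm : ∀ γ, (y γ).toZFSet ∈ a.toZFSet := fun γ =>
      Ordinal.toZFSet_mem_toZFSet_iff.2 (hV.lt γ)
    have hYy : ∀ γ, Yr w a γ (y γ) := fun γ => (hY γ _ (hV.lt γ)).2 rfl
    refine ⟨?_, ?_, ?_, ?_⟩
    · rw [forall_mem_L]
      intro γ
      exact ⟨_, hm γ, hYy γ⟩
    · intro γ hγ γ' hγ' η hη η' hη' h1 h2 h3
      obtain ⟨γ, rfl⟩ := mem_L_iff.1 hγ
      obtain ⟨γ', rfl⟩ := mem_L_iff.1 hγ'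
      obtain ⟨η, hηo, rfl⟩ := Ordinal.mem_toZFSet_iff.1 hη
      have hη := hηo
      obtain ⟨η', hη'o, rfl⟩ := Ordinal.mem_toZFSet_iff.1 hη'
      have hη' := hη'o
      rw [(hY γ η hη).1 h1, (hY γ' η' hη').1 h2]
      have h4 : γ ≤ γ' := by
        rcases h3 with h3 | h3
        · exact (enc_mem_enc.1 h3).le
        · exact (enc_injective h3).le
      rcases (hV.mono _ _ h4).eq_or_lt with h5 | h5
      · right
        rw [h5]
      · left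
        exact Ordinal.toZFSet_mem_toZFSet_iff.2 h5
    · intro ξ hξ
      obtain ⟨ξ, hξo, rfl⟩ := Ordinal.mem_toZFSet_iff.1 hξ
      have hξ := hξo
      obtain ⟨γ, hγ⟩ := hV.unb ξ hξ
      exact ⟨_, enc_mem_L γ, _, hm γ, hYy γ, Ordinal.toZFSet_mem_toZFSet_iff.2 hγ⟩
    · intro γ hγ h1 η hη h2 ξ hξ
      obtain ⟨γ, rfl⟩ := mem_L_iff.1 hγ
      obtain ⟨η, hηo, rfl⟩ := Ordinal.mem_toZFSet_iff.1 hη
      have hη := hηo
      obtain ⟨ξ, hξo, rfl⟩ := Ordinal.mem_toZFSet_iff.1 hξ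
      have hξ := hξo
      rw [(hY γ η hη).1 h2] at hξ
      obtain ⟨γ', h3, h4⟩ := hV.cont γ (limF_enc.1 h1) ξ hξ
      exact ⟨_, enc_mem_enc.2 h3, _, hm γ', hYy γ', Ordinal.toZFSet_mem_toZFSet_iff.2 h4⟩

theorem Ctx.q2F_iff (C : Ctx dE w g a) {ν : Cardinal.{u}} (hν : Rg lam ν)
    {y : W ν → Ordinal.{u}} (hY : YF w a y) (hV : V2 a ν y) (t : TT lam) :
    Q2F (par dE) w a.toZFSet ν.ord.toZFSet (enc t) ↔ Q2 g ν y (ix dE t) (vl dE t) := by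
  rw [Q2F, exists_club C.hB (Or.inr hν), Q2]
  refine exists_congr fun D => and_congr Iff.rfl ?_
  refine forall_congr' fun γ => imp_congr Iff.rfl ?_
  rw [par_L]
  constructor
  · intro H
    obtain ⟨r, hr1, hr2⟩ := exists_label C.hE (C.hg _ (hV.lt γ) (ix dE t))
    have h1 := H _ (Ordinal.toZFSet_mem_toZFSet_iff.2 (hV.lt γ)) _ (enc_mem_L r)
      ((hY γ _ (hV.lt γ)).2 rfl) ((C.hG _ (hV.lt γ) r).2 (by rw [hr1]; exact hr2))
      (mem_par_SI.2 hr1)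
    rw [mem_par_Lv, hr2] at h1
    exact h1.2
  · intro H η hη r hr h1 h2 h3
    obtain ⟨η, hηo, rfl⟩ := Ordinal.mem_toZFSet_iff.1 hη
    have hη := hηo
    obtain ⟨r, rfl⟩ := mem_L_iff.1 hr
    have h4 := mem_par_SI.1 h3
    have h5 := (hY γ η hη).1 h1
    subst h5
    refine mem_par_Lv.2 ⟨h4, ?_⟩
    rw [(C.hG _ hη r).1 h2, h4]
    exact H

theorem Ctx.s2F_iff (C : Ctx dE w g a) {ν : Cardinal.{u}} (hν : Rg lam ν)
    {y : W ν → Ordinal.{u}} (hY : YF w a y) (hV : V2 a ν y) (hv : ∀ i, v i < km lam i)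
    (hA : Sec dE w.G a.toZFSet v) :
    S2F (par dE) w a.toZFSet ν.ord.toZFSet ↔ S2 g ν y v := by
  have key : ∀ t : TT lam,
      ((pair (enc t) ν.ord.toZFSet ∈ (par dE).NL → Q2F (par dE) w a.toZFSet ν.ord.toZFSet (enc t) ∧
        ∀ q' ∈ (par dE).L, pair q' (enc t) ∈ (par dE).Lv →
          ¬ Q2F (par dE) w a.toZFSet ν.ord.toZFSet q') ∧
      (¬ pair (enc t) ν.ord.toZFSet ∈ (par dE).NL → ∀ q' ∈ (par dE).L,
        ¬ pair q' (enc t) ∈ (par dE).Lv)) ↔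
      ((ν ≤ cm lam (ix dE t) → Q2 g ν y (ix dE t) (vl dE t) ∧
        ∀ v', v' < vl dE t → ¬ Q2 g ν y (ix dE t) v') ∧
      (¬ ν ≤ cm lam (ix dE t) → vl dE t = 0)) := by
    intro t
    rw [mem_par_NL hν.2.2, C.q2F_iff hν hY hV, par_L]
    refine and_congr (imp_congr Iff.rfl (and_congr Iff.rfl ?_)) (imp_congr Iff.rfl ?_)
    · constructor
      · intro H v' hv'
        obtain ⟨q, hq1, hq2⟩ := exists_label C.hE (hv'.trans (vl_lt t))
        have h1 := H _ (enc_mem_L q) (mem_par_Lv.2 ⟨hq1, by rw [hq2]; exact hv'⟩)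
        rw [C.q2F_iff hν hY hV, hq1, hq2] at h1
        exact h1
      · intro H q hq hq'
        obtain ⟨q, rfl⟩ := mem_L_iff.1 hq
        obtain ⟨h1, h2⟩ := mem_par_Lv.1 hq'
        rw [C.q2F_iff hν hY hV, h1]
        exact H _ h2
    · constructor
      · intro H
        by_contra hcon
        obtain ⟨q, hq1, hq2⟩ := exists_label C.hE (C.hs.reg_km (ix dE t)).ord_pos
        refine H _ (enc_mem_L q) (mem_par_Lv.2 ⟨hq1, ?_⟩)
        rw [hq2]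
        exact pos_iff_ne_zero.2 hcon
      · intro H q hq hq'
        obtain ⟨q, rfl⟩ := mem_L_iff.1 hq
        obtain ⟨h1, h2⟩ := mem_par_Lv.1 hq'
        rw [H] at h2
        exact absurd h2 (not_lt.2 (zero_le))
  rw [S2F]
  constructor
  · intro H i
    obtain ⟨t, ht1, ht2⟩ := exists_label C.hE (hv i)
    have h1 := (key t).1 (H _ (enc_mem_L t) ((hA t).2 (by rw [ht1]; exact ht2)))
    rw [ht1, ht2] at h1
    exact h1
  · intro H q hq hq'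
    obtain ⟨t, rfl⟩ := mem_L_iff.1 (show q ∈ lam.ord.toZFSet from hq)
    refine (key t).2 ?_
    rw [(hA t).1 hq']
    exact H (ix dE t)

/-- the step formula implies the recursion step -/
theorem Ctx.step_of (C : Ctx dE w g a) (hv : ∀ i, v i < km lam i)
    (hA : Sec dE w.G a.toZFSet v) (H : StepF (par dE) w a.toZFSet) : Step g a v := by
  rcases H with ⟨h1, h2, h3, h4⟩ | ⟨x, hx, h1, h2⟩
  · obtain ⟨h, hh, hH⟩ := (goodS_iff C.hs C.hE).1 h2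
    exact Or.inl ⟨_, h, v1F_iff.1 h1, (C.hyF_iff hh hH).1 h3, (C.s1F_iff hh hH hv hA).1 h4⟩
  · obtain ⟨ν, hν, rfl⟩ := mem_par_R.1 hx
    obtain ⟨y, hY, hV⟩ := v2F_iff.1 h1
    exact Or.inr ⟨ν, hν, y, hV, (C.s2F_iff hν hY hV hv hA).1 h2⟩

/-- suitable choices for the witnesses at `a` -/
theorem exists_choice (hs : Sg lam) (hP : Prd g a) (H : Step g a v) :
    ∃ (h : Fn lam) (Yo : Ordinal.{u} → Ordinal.{u} → Prop), (∀ i, h i < km lam i) ∧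
      ((V1 a (fun (γ : Idx lam) η => η < a ∧ Yo γ.toOrd.1 η) ∧
        HY g (fun (γ : Idx lam) η => η < a ∧ Yo γ.toOrd.1 η) h ∧ S1 g a h v) ∨
      ∃ ν, Rg lam ν ∧ ∃ y : W ν → Ordinal.{u}, (∀ γ η, η < a → (Yo γ.toOrd.1 η ↔ η = y γ)) ∧
        V2 a ν y ∧ S2 g ν y v) := by
  have hinj : ∀ {ν : Cardinal.{u}} {γ γ' : W ν}, (γ.toOrd.1 : Ordinal.{u}) = γ'.toOrd.1 →
      γ = γ' := fun h => ToType.mk.symm.injective (Subtype.ext h)
  rcases H with ⟨Y, h, h1, h2, h3⟩ | ⟨ν, h1, y, h2, h3⟩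
  · obtain ⟨h', h4, h5⟩ := exists_HY hs hP h1
    have h6 : h = h' := by
      funext i
      exact (h2 i).unique (h5 i) fun x => Iff.rfl
    subst h6
    have h7 : (fun (γ : Idx lam) (η : Ordinal.{u}) => η < a ∧
        ∃ γ' : Idx lam, (γ'.toOrd.1 : Ordinal.{u}) = γ.toOrd.1 ∧ Y γ' η) = Y := by
      funext γ η
      apply propext
      constructor
      · rintro ⟨_, γ', h8, h9⟩
        rw [← hinj h8]
        exact h9
      · intro h8
        exact ⟨h1.lt _ _ h8, γ, rfl, h8⟩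
    refine ⟨h, fun c η => ∃ γ' : Idx lam, (γ'.toOrd.1 : Ordinal.{u}) = c ∧ Y γ' η, h4, Or.inl ?_⟩
    dsimp only
    rw [h7]
    exact ⟨h1, h2, h3⟩
  · refine ⟨fun _ => 0, fun c η => ∃ γ : W ν, (γ.toOrd.1 : Ordinal.{u}) = c ∧ η = y γ,
      fun i => (hs.reg_km i).ord_pos, Or.inr ⟨ν, h1, y, ?_, h2, h3⟩⟩
    intro γ η hη
    constructor
    · rintro ⟨γ', h4, h5⟩
      rw [← hinj h4]
      exact h5
    · intro h4
      exact ⟨γ, rfl, h4⟩

end Pool.Agent.Helper92.CS
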