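import Pool.Agent.Helper92.CS.Form

/-!
The formula describing the canonical scale when stationarity is certified by a `Σ₁` formula.
-/

universe u

namespace Pool.Agent.Helper92.CS

open Pool.Agent.Helper98
open ZFSet (pair)

/-! ### renaming of variables -/

def ren : {n k : ℕ} → (Fin n → Fin k) → Fml n → Fml k
  | _, _, ρ, .mem i j => .mem (ρ i) (ρ j)
  | _, _, ρ, .eq i j => .eq (ρ i) (ρ j)
  | _, _, ρ, .neg φ => .neg (ren ρ φ)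
  | _, _, ρ, .conj φ ψ => .conj (ren ρ φ) (ren ρ ψ)
  | _, k, ρ, .ex φ => .ex (ren (Fin.cons (α := fun _ => Fin (k + 1)) 0 (fun i => (ρ i).succ)) φ)

theorem sat_ren : ∀ {n k : ℕ} (φ : Fml n) (ρ : Fin n → Fin k) (v : Fin k → ZFSet.{u}),
    (ren ρ φ).Sat v ↔ φ.Sat (fun i => v (ρ i)) := by
  intro n k φ
  induction φ generalizing k with
  | mem i j => intro ρ v; exact Iff.rfl
  | eq i j => intro ρ v; exact Iff.rfl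
  | neg φ ih => intro ρ v; exact not_congr (ih ρ v)
  | conj φ ψ ih1 ih2 => intro ρ v; exact and_congr (ih1 ρ v) (ih2 ρ v)
  | ex φ ih =>
    intro ρ v
    refine exists_congr fun x => ?_
    refine (ih _ _).trans ?_
    have h : (fun i => (Fin.cons x v : Fin (k + 1) → ZFSet.{u})
        ((Fin.cons (α := fun _ => Fin (k + 1)) 0 (fun i => (ρ i).succ)) i)) =
        Fin.cons x (fun i => v (ρ i)) := by
      funext i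
      refine Fin.cases ?_ (fun i => ?_) i
      · rfl
      · rfl
    rw [h]

theorem ren_sigmaZero : ∀ {n k : ℕ} {φ : Fml n}, φ.IsSigmaZero → ∀ ρ : Fin n → Fin k,
    (ren ρ φ).IsSigmaZero := by
  intro n k φ h
  induction h generalizing k with
  | mem i j => intro ρ; exact .mem _ _
  | eq i j => intro ρ; exact .eq _ _
  | neg _ ih => intro ρ; exact .neg (ih ρ)
  | conj _ _ ih1 ih2 => intro ρ; exact .conj (ih1 ρ) (ih2 ρ)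
  | bex i _ ih => intro ρ; exact .bex (ρ i) (ih _)

theorem D0.sub {ψ : Fml 5} (hψ : ψ.IsSigmaZero) {n : ℕ}
    {a b c d e : (Fin n → ZFSet.{u}) → ZFSet.{u}}
    (ha : Var a) (hb : Var b) (hc : Var c) (hd : Var d) (he : Var e) :
    D0 (fun v => ψ.Sat ![a v, b v, c v, d v, e v]) := by
  obtain ⟨i, rfl⟩ := ha
  obtain ⟨j, rfl⟩ := hb
  obtain ⟨k, rfl⟩ := hc
  obtain ⟨l, rfl⟩ := hd
  obtain ⟨m, rfl⟩ := he
  refine ⟨ren ![i, j, k, l, m] ψ, ren_sigmaZero hψ _, fun v => ?_⟩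
  refine (sat_ren ψ _ v).trans ?_
  have h : (fun x => v ((![i, j, k, l, m] : Fin 5 → Fin n) x)) = ![v i, v j, v k, v l, v m] := by
    funext x
    fin_cases x <;> rfl
  rw [h]

/-! ### the matrix -/

def RelF (P : Par.{u}) (w : Wit.{u}) (a ξ r γ : ZFSet.{u}) : Prop :=
  ∃ p ∈ P.L, ∃ q ∈ P.L, pair p γ ∈ P.IO ∧ pair p ξ ∈ w.G ∧ pair q a ∈ w.H ∧
    pair p (pair q r) ∈ P.EK

def StG (ψ : Fml 5) (κ z : ZFSet.{u}) (P : Par.{u}) (w : Wit.{u}) (a ξ r : ZFSet.{u}) : Prop :=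
  ∃ t ∈ w.B, ∃ s ∈ w.B, (∀ γ ∈ t, γ ∈ P.m ∧ RelF P w a ξ r γ) ∧ ¬ ψ.Sat ![s, t, P.m, κ, z]

def NStG (P : Par.{u}) (w : Wit.{u}) (a ξ r : ZFSet.{u}) : Prop :=
  ∃ c ∈ w.B, ClubF c P.m ∧ ∀ γ ∈ c, ¬ RelF P w a ξ r γ

def S1G (ψ : Fml 5) (κ z : ZFSet.{u}) (P : Par.{u}) (w : Wit.{u}) (a : ZFSet.{u}) : Prop :=
  ∀ q ∈ P.L, pair q a ∈ w.G →
    (∀ r ∈ P.L, ∀ ξ ∈ a, ∀ p ∈ P.L, pair r q ∈ P.RF → StG ψ κ z P w a ξ r → pair p ξ ∈ w.G →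
      pair p q ∈ P.SI → pair p q ∈ P.Lv) ∧
    ∀ q' ∈ P.L, pair q' q ∈ P.Lv → ∃ r ∈ P.L, ∃ ξ ∈ a, ∃ p ∈ P.L, pair r q ∈ P.RF ∧
      StG ψ κ z P w a ξ r ∧ pair p ξ ∈ w.G ∧ pair p q ∈ P.SI ∧ ¬ pair p q' ∈ P.Lv

def RelQ (P : Par.{u}) (w : Wit.{u}) (a q γ : ZFSet.{u}) : Prop :=
  ∀ η ∈ a, ∀ r ∈ P.L, pair γ (pair η a) ∈ w.Y → pair r η ∈ w.G → pair r q ∈ P.SI →
    pair r q ∈ P.Lv

def QG (P : Par.{u}) (w : Wit.{u}) (a ν q : ZFSet.{u}) : Prop :=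
  ∃ c ∈ w.B, ClubF c ν ∧ ∀ γ ∈ c, RelQ P w a q γ

def NQG (ψ : Fml 5) (κ z : ZFSet.{u}) (P : Par.{u}) (w : Wit.{u}) (a ν q : ZFSet.{u}) : Prop :=
  ∃ t ∈ w.B, ∃ s ∈ w.B, (∀ γ ∈ t, γ ∈ ν ∧ ¬ RelQ P w a q γ) ∧ ¬ ψ.Sat ![s, t, ν, κ, z]

def S2G (P : Par.{u}) (w : Wit.{u}) (a ν : ZFSet.{u}) : Prop :=
  ∀ q ∈ P.L, pair q a ∈ w.G →
    (pair q ν ∈ P.NL → QG P w a ν q ∧ ∀ q' ∈ P.L, pair q' q ∈ P.Lv → ¬ QG P w a ν q') ∧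
    (¬ pair q ν ∈ P.NL → ∀ q' ∈ P.L, ¬ pair q' q ∈ P.Lv)

def StepG (ψ : Fml 5) (κ z : ZFSet.{u}) (P : Par.{u}) (w : Wit.{u}) (a : ZFSet.{u}) : Prop :=
  (V1F P w a ∧ GoodS P w.H a ∧ HYF P w a ∧
    (∀ ξ ∈ a, ∀ r ∈ P.L, StG ψ κ z P w a ξ r ∨ NStG P w a ξ r) ∧ S1G ψ κ z P w a) ∨
    ∃ ν ∈ P.R, V2F w a ν ∧ (∀ q ∈ P.L, QG P w a ν q ∨ NQG ψ κ z P w a ν q) ∧ S2G P w a ν

/-- The matrix -/
def MatG (ψ : Fml 5) (κ z : ZFSet.{u}) (P : Par.{u}) (w α β y : ZFSet.{u}) : Prop :=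
  ∃ ζ ∈ w, ∃ G ∈ w, ∃ H ∈ w, ∃ Y ∈ w, (β ∈ ζ ∧ ∀ x ∈ β, x ∈ ζ) ∧
    (∀ a ∈ ζ, GoodS P G a ∧ StepG ψ κ z P ⟨w, G, H, Y⟩ a) ∧ ColF P G α β y

theorem d0_three {ψ : Fml 5} (hψ : ψ.IsSigmaZero) : D0 (fun v : Fin 16 → ZFSet.{u} =>
    MatG ψ (v 4) (v 15) ⟨v 5, v 6, v 7, v 8, v 9, v 10, v 11, v 12, v 13, v 14⟩ (v 0) (v 1) (v 2)
      (v 3)) := by
  unfold MatG ColF StepG S2G QG NQG RelQ V2F S1G StG NStG RelF HYF V1F GoodS ClubF LimF NonE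
  dsimp only
  repeat' first
    | exact ⟨_, rfl⟩
    | with_reducible refine D0.sub hψ ?_ ?_ ?_ ?_ ?_
    | with_reducible refine D0.tripMem ?_ ?_ ?_ ?_
    | with_reducible refine D0.pairMem ?_ ?_ ?_
    | with_reducible refine D0.mem ?_ ?_
    | with_reducible refine D0.eqEmpty ?_
    | with_reducible refine D0.eqOne ?_
    | with_reducible refine D0.eq ?_ ?_
    | with_reducible refine D0.ball ?_ ?_
    | with_reducible refine D0.bex ?_ ?_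
    | with_reducible refine D0.not ?_
    | with_reducible refine D0.and ?_ ?_
    | with_reducible refine D0.or ?_ ?_
    | with_reducible refine D0.iff ?_ ?_
    | with_reducible refine D0.imp ?_ ?_

/-- The `Σ₁` formula. -/
theorem exists_sigma_three {ψ : Fml 5} (hψ : ψ.IsSigmaZero) :
    ∃ φ : Fml 15, φ.IsSigma 1 ∧ ∀ v : Fin 15 → ZFSet.{u},
    (φ.Sat v ↔ ∃ w, MatG ψ (v 3) (v 14) ⟨v 4, v 5, v 6, v 7, v 8, v 9, v 10, v 11, v 12, v 13⟩ w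
      (v 0) (v 1) (v 2)) := by
  obtain ⟨χ, h1, h2⟩ := d0_three.{u} hψ
  refine ⟨.ex (.neg (.neg χ)), ⟨.neg χ, .neg h1, rfl⟩, ?_⟩
  intro v
  refine exists_congr fun w => ?_
  refine not_not.trans ?_
  exact h2 (Fin.cons w v)

end Pool.Agent.Helper92.CS
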