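import Pool.Agent.Helper92.CS.Final
import Pool.Agent.Helper92.CS.Form2

/-!
Correctness of the formula with certificates for stationarity.
-/

open Set Ordinal Cardinal

universe u

namespace Pool.Agent.Helper92.CS

open Pool.Agent.Helper98
open ZFSet (pair)

variable {lam : Cardinal.{u}} {dE : TT lam → LB lam} {w : Wit.{u}} {g : Ordinal.{u} → Fn lam}
  {a : Ordinal.{u}} {h v : Fn lam} {ψ : Fml 5} {κ z : ZFSet.{u}}

/-- `ψ` certifies stationarity -/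
def Cert (lam : Cardinal.{u}) (ψ : Fml 5) (κ z : ZFSet.{u}) : Prop :=
  ∀ ν : Cardinal.{u}, (ν = lam.ord.cof ∨ Rg lam ν) → ∀ x : ZFSet.{u}, x ⊆ ν.ord.toZFSet →
    ((∃ s, ¬ ψ.Sat ![s, x, ν.ord.toZFSet, κ, z]) ↔ IsStationary (dec ν x))

theorem mem_powerset_of {ν : Cardinal.{u}} (hν : ν ≤ lam) {x : ZFSet.{u}}
    (hx : ∀ t ∈ x, t ∈ ν.ord.toZFSet) : x ∈ ZFSet.powerset lam.ord.toZFSet := by
  rw [ZFSet.mem_powerset]
  intro t ht
  obtain ⟨o, ho, rfl⟩ := Ordinal.mem_toZFSet_iff.1 (hx t ht)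
  exact Ordinal.toZFSet_mem_toZFSet_iff.2 (ho.trans_le (Cardinal.ord_le_ord.2 hν))

theorem encS_sub {ν : Cardinal.{u}} (C : Set (W ν)) : ∀ t ∈ encS C, t ∈ ν.ord.toZFSet := by
  intro x hx
  obtain ⟨t, rfl⟩ := ZFSet.mem_range.1 hx
  exact enc_mem_L _

theorem hb_powerset (hs : Sg lam) : HB lam (ZFSet.powerset lam.ord.toZFSet) := by
  intro ν hν C hC
  have hreg : ν.IsRegular := by
    rcases hν with rfl | hν
    · exact hs.cof_reg
    · exact hν.1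
  have hle : ν ≤ lam := by
    rcases hν with rfl | hν
    · exact Ordinal.cof_ord_le lam
    · exact hν.2.2.le
  refine ⟨encS C, mem_powerset_of hle (encS_sub C), clubF_encS hreg hC, ?_⟩
  rw [dec_encS]

/-- the witness with the family of clubs replaced -/
noncomputable def w0 (lam : Cardinal.{u}) (w : Wit.{u}) : Wit.{u} :=
  ⟨ZFSet.powerset lam.ord.toZFSet, w.G, w.H, w.Y⟩

theorem Ctx.relF_iff (C : Ctx dE (w0 lam w) g a) (hh : ∀ i, h i < km lam i)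
    (hH : Sec dE w.H a.toZFSet h) {ξ : Ordinal.{u}} (hξ : ξ < a) (r : TT lam)
    (i : W lam.ord.cof) :
    RelF (par dE) w a.toZFSet ξ.toZFSet (enc r) (enc i) ↔
      (g ξ i < h i ∧ ee lam i (h i) (g ξ i) < tm lam (ix dE r)) := by
  rw [RelF, par_L]
  constructor
  · rintro ⟨p, hp, q, hq, h1, h2, h3, h4⟩
    obtain ⟨p, rfl⟩ := mem_L_iff.1 hp
    obtain ⟨q, rfl⟩ := mem_L_iff.1 hq
    obtain ⟨h5, h6, h7⟩ := mem_par_EK.1 h4
    have h8 := mem_par_IO.1 h1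
    have h9 := (C.hG ξ hξ p).1 h2
    have h10 := (hH q).1 h3
    rw [← h5] at h10
    refine ⟨?_, ?_⟩
    · rw [h8, ← h9, ← h10]
      exact h6
    · rw [h8, ← h9, ← h10]
      exact h7
  · rintro ⟨h1, h2⟩
    obtain ⟨p, hp1, hp2⟩ := exists_label C.hE (C.hg ξ hξ i)
    obtain ⟨q, hq1, hq2⟩ := exists_label C.hE (hh i)
    refine ⟨_, enc_mem_L p, _, enc_mem_L q, mem_par_IO.2 hp1.symm,
      (C.hG ξ hξ p).2 (by rw [hp1]; exact hp2), (hH q).2 (by rw [hq1]; exact hq2),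
      mem_par_EK.2 ⟨hp1.trans hq1.symm, ?_, ?_⟩⟩
    · rw [hp2, hq2]
      exact h1
    · rw [hp1, hp2, hq2]
      exact h2

theorem Ctx.stG_imp (C : Ctx dE (w0 lam w) g a) (hψ : Cert lam ψ κ z)
    (hh : ∀ i, h i < km lam i)
    (hH : Sec dE w.H a.toZFSet h) {ξ : Ordinal.{u}} (hξ : ξ < a) (r : TT lam)
    (H : StG ψ κ z (par dE) w a.toZFSet ξ.toZFSet (enc r)) : St g h ξ (ix dE r) := by
  obtain ⟨t, _, s, _, h1, h2⟩ := H
  have h3 : t ⊆ (lam.ord.cof).ord.toZFSet := fun γ hγ => (h1 γ hγ).1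
  have h4 := (hψ _ (Or.inl rfl) t h3).1 ⟨s, h2⟩
  refine IsStationary.mono h4 ?_
  intro i hi
  exact (C.relF_iff hh hH hξ r i).1 (h1 _ hi).2

theorem Ctx.nstG_imp (C : Ctx dE (w0 lam w) g a)
    (hh : ∀ i, h i < km lam i)
    (hH : Sec dE w.H a.toZFSet h) {ξ : Ordinal.{u}} (hξ : ξ < a) (r : TT lam)
    (H : NStG (par dE) w a.toZFSet ξ.toZFSet (enc r)) : ¬ St g h ξ (ix dE r) := by
  obtain ⟨c, _, h1, h2⟩ := H
  intro h3
  obtain ⟨i, hi, hi'⟩ := h3 (ClubF.isClub (ν := lam.ord.cof) h1)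
  exact h2 _ hi' ((C.relF_iff hh hH hξ r i).2 hi)

theorem Ctx.relQ_iff (C : Ctx dE (w0 lam w) g a) {ν : Cardinal.{u}}
    {y : W ν → Ordinal.{u}} (hY : YF w a y) (hV : V2 a ν y) (t : TT lam) (γ : W ν) :
    RelQ (par dE) w a.toZFSet (enc t) (enc γ) ↔ g (y γ) (ix dE t) < vl dE t := by
  rw [RelQ, par_L]
  constructor
  · intro H
    obtain ⟨r, hr1, hr2⟩ := exists_label C.hE (C.hg _ (hV.lt γ) (ix dE t))
    have h1 := H _ (Ordinal.toZFSet_mem_toZFSet_iff.2 (hV.lt γ)) _ (enc_mem_L r)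
      ((hY γ _ (hV.lt γ)).2 rfl) ((C.hG _ (hV.lt γ) r).2 (by rw [hr1]; exact hr2))
      (mem_par_SI.2 hr1)
    rw [mem_par_Lv, hr2] at h1
    exact h1.2
  · intro H η hη r hr h1 h2 h3
    obtain ⟨η, hη, rfl⟩ := Ordinal.mem_toZFSet_iff.1 hη
    obtain ⟨r, rfl⟩ := mem_L_iff.1 hr
    have h4 := mem_par_SI.1 h3
    have h5 : η = y γ := (hY γ η (Ordinal.toZFSet_mem_toZFSet_iff.1 hη)).1 h1
    subst h5
    refine mem_par_Lv.2 ⟨h4, ?_⟩
    rw [(C.hG _ (hV.lt γ) r).1 h2, h4]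
    exact H

theorem Ctx.qG_imp (C : Ctx dE (w0 lam w) g a) {ν : Cardinal.{u}}
    {y : W ν → Ordinal.{u}} (hY : YF w a y) (hV : V2 a ν y) (t : TT lam)
    (H : QG (par dE) w a.toZFSet ν.ord.toZFSet (enc t)) : Q2 g ν y (ix dE t) (vl dE t) := by
  obtain ⟨c, _, h1, h2⟩ := H
  exact ⟨_, h1.isClub, fun γ hγ => (C.relQ_iff hY hV t γ).1 (h2 _ hγ)⟩

theorem Ctx.nqG_imp (C : Ctx dE (w0 lam w) g a) (hψ : Cert lam ψ κ z) {ν : Cardinal.{u}}
    (hν : Rg lam ν) {y : W ν → Ordinal.{u}} (hY : YF w a y) (hV : V2 a ν y) (t : TT lam)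
    (H : NQG ψ κ z (par dE) w a.toZFSet ν.ord.toZFSet (enc t)) :
    ¬ Q2 g ν y (ix dE t) (vl dE t) := by
  obtain ⟨x, _, s, _, h1, h2⟩ := H
  have h3 : x ⊆ ν.ord.toZFSet := fun γ hγ => (h1 γ hγ).1
  have h4 := (hψ _ (Or.inr hν) x h3).1 ⟨s, h2⟩
  rintro ⟨D, hD, hD'⟩
  obtain ⟨γ, hγ, hγ'⟩ := h4 hD
  exact (h1 _ hγ).2 ((C.relQ_iff hY hV t γ).2 (hD' γ hγ'))

theorem Ctx.s1G_iff (C : Ctx dE (w0 lam w) g a)
    (hv : ∀ i, v i < km lam i) (hA : Sec dE w.G a.toZFSet v)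
    (hS : ∀ ξ, ξ < a → ∀ r : TT lam, StG ψ κ z (par dE) w a.toZFSet ξ.toZFSet (enc r) ↔
      St g h ξ (ix dE r)) :
    S1G ψ κ z (par dE) w a.toZFSet ↔ S1 g a h v := by
  have hix : ∀ k : Idx lam, ∃ r, ix dE r = k := by
    intro k
    obtain ⟨r, hr, _⟩ := exists_label C.hE (C.hs.reg_km k).ord_pos
    exact ⟨r, hr⟩
  have key : ∀ t : TT lam, LS (fun x => ∃ k ξ, RR k (ix dE t) ∧ ξ < a ∧ St g h ξ k ∧
      x = g ξ (ix dE t)) (vl dE t) ↔
      ((∀ r ∈ (par dE).L, ∀ ξ ∈ a.toZFSet, ∀ p ∈ (par dE).L, pair r (enc t) ∈ (par dE).RF →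
        StG ψ κ z (par dE) w a.toZFSet ξ r → pair p ξ ∈ w.G → pair p (enc t) ∈ (par dE).SI →
        pair p (enc t) ∈ (par dE).Lv) ∧
      ∀ q' ∈ (par dE).L, pair q' (enc t) ∈ (par dE).Lv → ∃ r ∈ (par dE).L, ∃ ξ ∈ a.toZFSet,
        ∃ p ∈ (par dE).L, pair r (enc t) ∈ (par dE).RF ∧ StG ψ κ z (par dE) w a.toZFSet ξ r ∧
        pair p ξ ∈ w.G ∧ pair p (enc t) ∈ (par dE).SI ∧ ¬ pair p q' ∈ (par dE).Lv) := by
    intro t
    rw [LS_iff C.hE (by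
      rintro x ⟨k, ξ, _, h1, _, rfl⟩
      exact C.hg ξ h1 _), par_L]
    refine and_congr ?_ ?_
    · constructor
      · intro H r hr ξ hξ p hp h1 h2 h3 h4
        obtain ⟨r, rfl⟩ := mem_L_iff.1 hr
        obtain ⟨ξ, hξo, rfl⟩ := Ordinal.mem_toZFSet_iff.1 hξ
        obtain ⟨p, rfl⟩ := mem_L_iff.1 hp
        have h5 := mem_par_SI.1 h4
        refine mem_par_Lv.2 ⟨h5, H p h5 ⟨ix dE r, ξ, mem_par_RF.1 h1, hξo,
          (hS ξ hξo r).1 h2, ?_⟩⟩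
        rw [← h5]
        exact (C.hG ξ hξo p).1 h3
      · rintro H p hp ⟨k, ξ, h1, h2, h3, h4⟩
        obtain ⟨r, rfl⟩ := hix k
        refine (mem_par_Lv.1 (H _ (enc_mem_L r) _ (Ordinal.toZFSet_mem_toZFSet_iff.2 h2) _
          (enc_mem_L p) (mem_par_RF.2 h1) ((hS ξ h2 r).2 h3)
          ((C.hG ξ h2 p).2 ?_) (mem_par_SI.2 hp))).2
        rw [hp]
        exact h4
    · constructor
      · intro H q hq hq'
        obtain ⟨q, rfl⟩ := mem_L_iff.1 hq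
        obtain ⟨h1, h2⟩ := mem_par_Lv.1 hq'
        obtain ⟨p, hp, ⟨k, ξ, h3, h4, h5, h6⟩, h7⟩ := H q h1 h2
        obtain ⟨r, rfl⟩ := hix k
        refine ⟨_, enc_mem_L r, _, Ordinal.toZFSet_mem_toZFSet_iff.2 h4, _, enc_mem_L p,
          mem_par_RF.2 h3, (hS ξ h4 r).2 h5,
          (C.hG ξ h4 p).2 (by rw [hp]; exact h6), mem_par_SI.2 hp, ?_⟩
        intro h8
        exact h7 (mem_par_Lv.1 h8).2
      · intro H q hq hq'
        obtain ⟨r, hr, ξ, hξ, p, hp, h1, h2, h3, h4, h5⟩ := H _ (enc_mem_L q)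
          (mem_par_Lv.2 ⟨hq, hq'⟩)
        obtain ⟨r, rfl⟩ := mem_L_iff.1 hr
        obtain ⟨ξ, hξo, rfl⟩ := Ordinal.mem_toZFSet_iff.1 hξ
        obtain ⟨p, rfl⟩ := mem_L_iff.1 hp
        have h6 := mem_par_SI.1 h4
        refine ⟨p, h6, ⟨ix dE r, ξ, mem_par_RF.1 h1, hξo, (hS ξ hξo r).1 h2, ?_⟩, ?_⟩
        · rw [← h6]
          exact (C.hG ξ hξo p).1 h3
        · intro h7
          exact h5 (mem_par_Lv.2 ⟨h6.trans hq.symm, h7⟩)
  rw [S1G]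
  constructor
  · intro H i
    obtain ⟨t, ht1, ht2⟩ := exists_label C.hE (hv i)
    have h1 := (key t).2 (H _ (enc_mem_L t) ((hA t).2 (by rw [ht1]; exact ht2)))
    rw [ht1, ht2] at h1
    exact h1
  · intro H q hq hq'
    obtain ⟨t, rfl⟩ := mem_L_iff.1 (show q ∈ lam.ord.toZFSet from hq)
    refine (key t).1 ?_
    rw [(hA t).1 hq']
    exact H (ix dE t)

theorem Ctx.s2G_iff (C : Ctx dE (w0 lam w) g a) {ν : Cardinal.{u}} (hν : Rg lam ν)
    {y : W ν → Ordinal.{u}} (hv : ∀ i, v i < km lam i)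
    (hA : Sec dE w.G a.toZFSet v)
    (hQ : ∀ t : TT lam, QG (par dE) w a.toZFSet ν.ord.toZFSet (enc t) ↔
      Q2 g ν y (ix dE t) (vl dE t)) :
    S2G (par dE) w a.toZFSet ν.ord.toZFSet ↔ S2 g ν y v := by
  have key : ∀ t : TT lam,
      ((pair (enc t) ν.ord.toZFSet ∈ (par dE).NL → QG (par dE) w a.toZFSet ν.ord.toZFSet (enc t) ∧
        ∀ q' ∈ (par dE).L, pair q' (enc t) ∈ (par dE).Lv →
          ¬ QG (par dE) w a.toZFSet ν.ord.toZFSet q') ∧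
      (¬ pair (enc t) ν.ord.toZFSet ∈ (par dE).NL → ∀ q' ∈ (par dE).L,
        ¬ pair q' (enc t) ∈ (par dE).Lv)) ↔
      ((ν ≤ cm lam (ix dE t) → Q2 g ν y (ix dE t) (vl dE t) ∧
        ∀ v', v' < vl dE t → ¬ Q2 g ν y (ix dE t) v') ∧
      (¬ ν ≤ cm lam (ix dE t) → vl dE t = 0)) := by
    intro t
    rw [mem_par_NL hν.2.2, hQ, par_L]
    refine and_congr (imp_congr Iff.rfl (and_congr Iff.rfl ?_)) (imp_congr Iff.rfl ?_)
    · constructor
      · intro H v' hv'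
        obtain ⟨q, hq1, hq2⟩ := exists_label C.hE (hv'.trans (vl_lt t))
        have h1 := H _ (enc_mem_L q) (mem_par_Lv.2 ⟨hq1, by rw [hq2]; exact hv'⟩)
        rw [hQ, hq1, hq2] at h1
        exact h1
      · intro H q hq hq'
        obtain ⟨q, rfl⟩ := mem_L_iff.1 hq
        obtain ⟨h1, h2⟩ := mem_par_Lv.1 hq'
        rw [hQ, h1]
        exact H _ h2
    · constructor
      · intro H
        by_contra hcon
        obtain ⟨q, hq1, hq2⟩ := exists_label C.hE (C.hs.reg_km (ix dE t)).ord_pos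
        refine H _ (enc_mem_L q) (mem_par_Lv.2 ⟨hq1, ?_⟩)
        rw [hq2]
        exact pos_iff_ne_zero.2 hcon
      · intro H q hq hq'
        obtain ⟨q, rfl⟩ := mem_L_iff.1 hq
        obtain ⟨h1, h2⟩ := mem_par_Lv.1 hq'
        rw [H] at h2
        exact absurd h2 (not_lt.2 (zero_le))
  rw [S2G]
  constructor
  · intro H i
    obtain ⟨t, ht1, ht2⟩ := exists_label C.hE (hv i)
    have h1 := (key t).1 (H _ (enc_mem_L t) ((hA t).2 (by rw [ht1]; exact ht2)))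
    rw [ht1, ht2] at h1
    exact h1
  · intro H q hq hq'
    obtain ⟨t, rfl⟩ := mem_L_iff.1 (show q ∈ lam.ord.toZFSet from hq)
    refine (key t).2 ?_
    rw [(hA t).1 hq']
    exact H (ix dE t)

theorem Ctx.hyG_iff (C : Ctx dE (w0 lam w) g a) (hh : ∀ i, h i < km lam i)
    (hH : Sec dE w.H a.toZFSet h) :
    HYF (par dE) w a.toZFSet ↔ HY g (fun γ η => η < a ∧ Yr w a γ η) h :=
  C.hyF_iff hh hH

/-- the step formula implies the recursion step -/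
theorem Ctx.stepG_of (C : Ctx dE (w0 lam w) g a) (hψ : Cert lam ψ κ z)
    (hv : ∀ i, v i < km lam i)
    (hA : Sec dE w.G a.toZFSet v) (H : StepG ψ κ z (par dE) w a.toZFSet) : Step g a v := by
  rcases H with ⟨h1, h2, h3, h4, h5⟩ | ⟨x, hx, h1, h2, h3⟩
  · obtain ⟨h, hh, hH⟩ := (goodS_iff C.hs C.hE).1 h2
    have hS : ∀ ξ, ξ < a → ∀ r : TT lam, StG ψ κ z (par dE) w a.toZFSet ξ.toZFSet (enc r) ↔
        St g h ξ (ix dE r) := by
      intro ξ hξ r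
      refine ⟨C.stG_imp hψ hh hH hξ r, fun h6 => ?_⟩
      rcases h4 _ (Ordinal.toZFSet_mem_toZFSet_iff.2 hξ) _ (enc_mem_L r) with h7 | h7
      · exact h7
      · exact (C.nstG_imp hh hH hξ r h7 h6).elim
    exact Or.inl ⟨_, h, v1F_iff.1 h1, (C.hyG_iff hh hH).1 h3, (C.s1G_iff hv hA hS).1 h5⟩
  · obtain ⟨ν, hν, rfl⟩ := mem_par_R.1 hx
    obtain ⟨y, hY, hV⟩ := v2F_iff.1 h1
    have hQ : ∀ t : TT lam, QG (par dE) w a.toZFSet ν.ord.toZFSet (enc t) ↔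
        Q2 g ν y (ix dE t) (vl dE t) := by
      intro t
      refine ⟨C.qG_imp hY hV t, fun h6 => ?_⟩
      rcases h2 _ (enc_mem_L t) with h7 | h7
      · exact h7
      · exact (C.nqG_imp hψ hν hY hV t h7 h6).elim
    exact Or.inr ⟨ν, hν, y, hV, (C.s2G_iff hν hv hA hQ).1 h3⟩

theorem Scale.matG_imp (hs : Sg lam) (hE : Function.Surjective dE) (hg : Scale g)
    (hψ : Cert lam ψ κ z) {w y : ZFSet.{u}} {a b : Ordinal.{u}} (hab : a ≤ b)
    (hb : b < (Order.succ lam).ord)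
    (H : MatG ψ κ z (par dE) w a.toZFSet b.toZFSet y) : CC g dE a b y := by
  obtain ⟨ζ, _, G, _, H', _, Y, _, ⟨h1, h2⟩, h3, h4⟩ := H
  have hζ : ∀ c, c ≤ b → c.toZFSet ∈ ζ := by
    intro c hc
    rcases hc.eq_or_lt with h5 | h5
    · rw [h5]
      exact h1
    · exact h2 _ (Ordinal.toZFSet_mem_toZFSet_iff.2 h5)
  have key : ∀ c, c ≤ b → Sec dE G c.toZFSet (g c) := by
    intro c
    induction c using WellFoundedLT.induction with
    | ind c ih =>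
      intro hc
      have hcκ : c < (Order.succ lam).ord := hc.trans_lt hb
      obtain ⟨h5, h6⟩ := h3 _ (hζ c hc)
      obtain ⟨f, hf, hf'⟩ := (goodS_iff hs hE).1 h5
      have C : Ctx dE (w0 lam ⟨w, G, H', Y⟩) g c :=
        ⟨hs, hE, hb_powerset hs, fun ξ hξ => ih ξ hξ (hξ.le.trans hc),
          fun ξ hξ => hg.prd ξ (hξ.trans hcκ)⟩
      have h7 : Step g c f := C.stepG_of hψ hf hf' h6
      have h8 : f = g c := h7.unique hs (fun ξ η h9 h10 => hg.inc ξ η h9 (h10.trans hcκ))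
        (hg.step c hcκ)
      rw [h8] at hf'
      exact hf'
  exact (colF_iff (key a hab) (key b le_rfl) y).1 h4

/-- `w` contains enough certificates -/
structure Rich (lam : Cardinal.{u}) (ψ : Fml 5) (κ z w : ZFSet.{u}) : Prop where
  pow : ∀ x ∈ ZFSet.powerset lam.ord.toZFSet, x ∈ w
  cert : ∀ ν : Cardinal.{u}, (ν = lam.ord.cof ∨ Rg lam ν) → ∀ x : ZFSet.{u},
    x ⊆ ν.ord.toZFSet → (∃ s, ¬ ψ.Sat ![s, x, ν.ord.toZFSet, κ, z]) →
      ∃ s ∈ w, ¬ ψ.Sat ![s, x, ν.ord.toZFSet, κ, z]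

theorem exists_rich (hs : Sg lam) (ψ : Fml 5) (κ z u0 : ZFSet.{u}) :
    ∃ w, Rich lam ψ κ z w ∧ ∀ x ∈ u0, x ∈ w := by
  classical
  have h1 : ∀ x ν : ZFSet.{u}, ∃ s, (∃ s', ¬ ψ.Sat ![s', x, ν, κ, z]) →
      ¬ ψ.Sat ![s, x, ν, κ, z] := by
    intro x ν
    by_cases h : ∃ s', ¬ ψ.Sat ![s', x, ν, κ, z]
    · obtain ⟨s, hs⟩ := h
      exact ⟨s, fun _ => hs⟩
    · exact ⟨∅, fun h' => (h h').elim⟩
  choose c hc using h1
  obtain ⟨U, hU⟩ : ∃ U : ZFSet.{u}, ∀ x ∈ ZFSet.powerset lam.ord.toZFSet,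
      ∀ t : TT lam, c x (enc t) ∈ U := by
    refine ⟨ZFSet.range (fun p : Shrink.{u} (ZFSet.powerset lam.ord.toZFSet) × TT lam =>
      c ((equivShrink (ZFSet.powerset lam.ord.toZFSet)).symm p.1).1 (enc p.2)), ?_⟩
    intro x hx t
    rw [ZFSet.mem_range]
    refine ⟨⟨equivShrink _ ⟨x, hx⟩, t⟩, ?_⟩
    dsimp only
    rw [Equiv.symm_apply_apply]
  refine ⟨ZFSet.powerset lam.ord.toZFSet ∪ (U ∪ u0), ⟨?_, ?_⟩, ?_⟩
  · intro x hx
    exact ZFSet.mem_union.2 (Or.inl hx)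
  · intro ν hν x hx h2
    have hlt : ν < lam := by
      rcases hν with rfl | hν
      · exact cof_lt hs.sing
      · exact hν.2.2
    have h3 : ν.ord.toZFSet = enc (ToType.mk ⟨ν.ord, ord_lt_ord.2 hlt⟩ : TT lam) := by
      simp [enc, ToType.toOrd]
    refine ⟨c x ν.ord.toZFSet, ZFSet.mem_union.2 (Or.inr (ZFSet.mem_union.2 (Or.inl ?_))),
      hc _ _ h2⟩
    rw [h3]
    exact hU x (mem_powerset_of hlt.le fun t ht => hx ht) _
  · intro x hx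
    exact ZFSet.mem_union.2 (Or.inr (ZFSet.mem_union.2 (Or.inr hx)))

theorem Scale.matG_of (hs : Sg lam) (hE : Function.Surjective dE) (hg : Scale g)
    (hψ : Cert lam ψ κ z) {b : Ordinal.{u}} (hb : b < (Order.succ lam).ord) :
    ∃ w : ZFSet.{u}, ∀ a, a ≤ b → ∀ y, CC g dE a b y →
      MatG ψ κ z (par dE) w a.toZFSet b.toZFSet y := by
  have h1 : ∀ c : Ordinal.{u}, ∃ (h : Fn lam) (Yo : Ordinal.{u} → Ordinal.{u} → Prop),
      c < (Order.succ lam).ord → (∀ i, h i < km lam i) ∧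
      ((V1 c (fun (γ : Idx lam) η => η < c ∧ Yo γ.toOrd.1 η) ∧
        HY g (fun (γ : Idx lam) η => η < c ∧ Yo γ.toOrd.1 η) h ∧ S1 g c h (g c)) ∨
      ∃ ν, Rg lam ν ∧ ∃ y : W ν → Ordinal.{u}, (∀ γ η, η < c → (Yo γ.toOrd.1 η ↔ η = y γ)) ∧
        V2 c ν y ∧ S2 g ν y (g c)) := by
    intro c
    by_cases hc : c < (Order.succ lam).ord
    · obtain ⟨h, Yo, h2⟩ := exists_choice hs (fun ξ hξ => hg.prd ξ (hξ.trans hc)) (hg.step c hc)
      exact ⟨h, Yo, fun _ => h2⟩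
    · exact ⟨fun _ => 0, fun _ _ => True, fun h => (hc h).elim⟩
  choose h Yo hc using h1
  have hcof : lam.ord.cof ≤ lam := Ordinal.cof_ord_le lam
  obtain ⟨G, hGd⟩ : ∃ G, G = relO (b + 1) (fun t ξ => vl dE t = g ξ (ix dE t)) := ⟨_, rfl⟩
  obtain ⟨H, hHd⟩ : ∃ H, H = relO (b + 1) (fun t ξ => vl dE t = h ξ (ix dE t)) := ⟨_, rfl⟩
  obtain ⟨Y, hYd⟩ : ∃ Y, Y = relT lam (b + 1) (fun c η a => Yo a c η) := ⟨_, rfl⟩
  obtain ⟨w, hw, hw'⟩ := exists_rich hs ψ κ z {(b + 1).toZFSet, G, H, Y}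
  refine ⟨w, ?_⟩
  intro a hab y hy
  have hG : ∀ c, c ≤ b → Sec dE G c.toZFSet (g c) := fun c hc t => by
    rw [hGd]
    exact pair_mem_relO (Order.lt_add_one_iff.2 hc)
  refine ⟨(b + 1).toZFSet, hw' _ (by simp), G, hw' _ (by simp), H, hw' _ (by simp), Y,
    hw' _ (by simp), ⟨?_, ?_⟩, ?_, (colF_iff (hG a hab) (hG b le_rfl) y).2 hy⟩
  · exact Ordinal.toZFSet_mem_toZFSet_iff.2 (lt_add_one b)
  · intro x hx
    obtain ⟨c, hcb, rfl⟩ := Ordinal.mem_toZFSet_iff.1 hx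
    exact Ordinal.toZFSet_mem_toZFSet_iff.2 (hcb.trans (lt_add_one b))
  · intro x hx
    obtain ⟨c, hcb, rfl⟩ := Ordinal.mem_toZFSet_iff.1 hx
    have hcb' : c ≤ b := Order.lt_add_one_iff.1 hcb
    have hcκ : c < (Order.succ lam).ord := hcb'.trans_lt hb
    obtain ⟨h3, h4⟩ := hc c hcκ
    have hH : Sec dE H c.toZFSet (h c) := fun t => by
      rw [hHd]
      exact pair_mem_relO hcb
    refine ⟨(goodS_iff hs hE).2 ⟨g c, hg.prd c hcκ, hG c hcb'⟩, ?_⟩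
    have C : Ctx dE (w0 lam ⟨w, G, H, Y⟩) g c :=
      ⟨hs, hE, hb_powerset hs, fun ξ hξ => hG ξ (hξ.le.trans hcb'),
        fun ξ hξ => hg.prd ξ (hξ.trans hcκ)⟩
    rcases h4 with ⟨h5, h6, h7⟩ | ⟨ν, hν, y', h5, h6, h7⟩
    · left
      have h8 : (fun (γ : Idx lam) (η : Ordinal.{u}) => η < c ∧
          Yr (⟨w, G, H, Y⟩ : Wit.{u}) c γ η) =
          (fun (γ : Idx lam) (η : Ordinal.{u}) => η < c ∧ Yo c γ.toOrd.1 η) := by
        funext γ η
        apply propext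
        refine and_congr_right fun h9 => ?_
        have h10 := pair_mem_relT (P := fun c η a => Yo a c η) (γ := γ) hcof (h9.trans hcb) hcb
        rw [← hYd] at h10
        exact h10
      have hS1 : ∀ ξ, ξ < c → ∀ r : TT lam, St g (h c) ξ (ix dE r) →
          StG ψ κ z (par dE) ⟨w, G, H, Y⟩ c.toZFSet ξ.toZFSet (enc r) := by
        intro ξ hξ r h9
        have hsub := encS_sub (ν := lam.ord.cof) {i : W lam.ord.cof | g ξ i < h c i ∧
          ee lam i (h c i) (g ξ i) < tm lam (ix dE r)}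
        obtain ⟨s, hs1, hs2⟩ := hw.cert _ (Or.inl rfl) _ (fun t ht => hsub t ht)
          ((hψ _ (Or.inl rfl) _ (fun t ht => hsub t ht)).2 (by
            rw [dec_encS]
            exact h9))
        refine ⟨_, hw.pow _ (mem_powerset_of hcof hsub), s, hs1, ?_, hs2⟩
        intro γ hγ
        obtain ⟨i, rfl⟩ := ZFSet.mem_range.1 hγ
        exact ⟨enc_mem_L _, (C.relF_iff h3 hH hξ r i.1).2 i.2⟩
      have hS2 : ∀ ξ, ξ < c → ∀ r : TT lam, ¬ St g (h c) ξ (ix dE r) →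
          NStG (par dE) ⟨w, G, H, Y⟩ c.toZFSet ξ.toZFSet (enc r) := by
        intro ξ hξ r h9
        obtain ⟨D, hD, hD'⟩ := not_isStationary_iff.1 h9
        refine ⟨encS D, hw.pow _ (mem_powerset_of hcof (encS_sub D)),
          clubF_encS hs.cof_reg hD, ?_⟩
        intro γ hγ h10
        obtain ⟨i, rfl⟩ := ZFSet.mem_range.1 hγ
        exact Set.disjoint_left.1 hD' ((C.relF_iff h3 hH hξ r i.1).1 h10) i.2
      have hS : ∀ ξ, ξ < c → ∀ r : TT lam,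
          StG ψ κ z (par dE) ⟨w, G, H, Y⟩ c.toZFSet ξ.toZFSet (enc r) ↔
          St g (h c) ξ (ix dE r) := by
        intro ξ hξ r
        exact ⟨C.stG_imp hψ h3 hH hξ r, hS1 ξ hξ r⟩
      refine ⟨v1F_iff.2 ?_, (goodS_iff hs hE).2 ⟨h c, h3, hH⟩, (C.hyG_iff h3 hH).2 ?_, ?_,
        (C.s1G_iff (hg.prd c hcκ) (hG c hcb') hS).2 h7⟩
      · rw [h8]
        exact h5
      · rw [h8]
        exact h6
      · intro ξ hξ r hr
        obtain ⟨ξ, hξo, rfl⟩ := Ordinal.mem_toZFSet_iff.1 hξ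
        obtain ⟨r, rfl⟩ := mem_L_iff.1 (show r ∈ lam.ord.toZFSet from hr)
        by_cases h9 : St g (h c) ξ (ix dE r)
        · exact Or.inl (hS1 ξ hξo r h9)
        · exact Or.inr (hS2 ξ hξo r h9)
    · right
      have h8 : YF (⟨w, G, H, Y⟩ : Wit.{u}) c y' := by
        intro γ η hη
        refine Iff.trans ?_ (h5 γ η hη)
        have h10 := pair_mem_relT (P := fun c η a => Yo a c η) (γ := γ) hν.2.2.le
          (hη.trans hcb) hcb
        rw [← hYd] at h10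
        exact h10
      have hQ1 : ∀ t : TT lam, Q2 g ν y' (ix dE t) (vl dE t) →
          QG (par dE) ⟨w, G, H, Y⟩ c.toZFSet ν.ord.toZFSet (enc t) := by
        rintro t ⟨D, hD, hD'⟩
        refine ⟨encS D, hw.pow _ (mem_powerset_of hν.2.2.le (encS_sub D)), clubF_encS hν.1 hD, ?_⟩
        intro γ hγ
        obtain ⟨i, rfl⟩ := ZFSet.mem_range.1 hγ
        exact (C.relQ_iff h8 h6 t i.1).2 (hD' _ i.2)
      have hQ : ∀ t : TT lam, QG (par dE) ⟨w, G, H, Y⟩ c.toZFSet ν.ord.toZFSet (enc t) ↔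
          Q2 g ν y' (ix dE t) (vl dE t) := fun t => ⟨C.qG_imp h8 h6 t, hQ1 t⟩
      refine ⟨_, mem_par_R.2 ⟨ν, hν, rfl⟩, v2F_iff.2 ⟨y', h8, h6⟩, ?_,
        (C.s2G_iff hν (hg.prd c hcκ) (hG c hcb') hQ).2 h7⟩
      intro q hq
      obtain ⟨t, rfl⟩ := mem_L_iff.1 (show q ∈ lam.ord.toZFSet from hq)
      by_cases h9 : Q2 g ν y' (ix dE t) (vl dE t)
      · exact Or.inl (hQ1 t h9)
      · right
        have hst : IsStationary {γ : W ν | ¬ g (y' γ) (ix dE t) < vl dE t} := by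
          intro D hD
          by_contra hcon
          rw [Set.not_nonempty_iff_eq_empty] at hcon
          refine h9 ⟨D, hD, fun γ hγ => ?_⟩
          by_contra h10
          have h11 : γ ∈ ({γ : W ν | ¬ g (y' γ) (ix dE t) < vl dE t} ∩ D : Set (W ν)) :=
            ⟨h10, hγ⟩
          rw [hcon] at h11
          exact h11
        have hsub := encS_sub (ν := ν) {γ : W ν | ¬ g (y' γ) (ix dE t) < vl dE t}
        obtain ⟨s, hs1, hs2⟩ := hw.cert _ (Or.inr hν) _ (fun t ht => hsub t ht)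
          ((hψ _ (Or.inr hν) _ (fun t ht => hsub t ht)).2 (by
            rw [dec_encS]
            exact hst))
        refine ⟨_, hw.pow _ (mem_powerset_of hν.2.2.le hsub), s, hs1, ?_, hs2⟩
        intro γ hγ
        obtain ⟨i, rfl⟩ := ZFSet.mem_range.1 hγ
        exact ⟨enc_mem_L _, fun h10 => i.2 ((C.relQ_iff h8 h6 t i.1).1 h10)⟩

end Pool.Agent.Helper92.CS
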