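import Pool.Agent.Helper92.CS.LemG

/-!
Existence of the canonical scale.
-/

open Set Ordinal Cardinal

universe u

namespace Pool.Agent.Helper92.CS

open Pool.Agent.Helper98

variable {lam : Cardinal.{u}} {g : Ordinal.{u} → Fn lam} {α : Ordinal.{u}}

theorem exists_valid (hs : Sg lam) (hα : α < (Order.succ lam).ord) :
    (∃ Y : Idx lam → Ordinal.{u} → Prop, V1 α Y) ∨
      ∃ ν, Rg lam ν ∧ ∃ y : W ν → Ordinal.{u}, V2 α ν y := by
  classical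
  obtain ⟨S, hS, hS'⟩ := Order.exists_cof_eq α.ToType
  rw [Ordinal.cof_toType] at hS'
  have hcofS : ∀ ξ, ξ < α → ∃ b ∈ S, ξ ≤ (b.toOrd : Iio α).1 := by
    intro ξ hξ
    obtain ⟨b, hb, hb'⟩ := hS (ToType.mk ⟨ξ, hξ⟩)
    refine ⟨b, hb, ?_⟩
    have h1 : (⟨ξ, hξ⟩ : Iio α) ≤ ToType.mk.symm b := (OrderIso.le_symm_apply _).2 hb'
    exact h1
  rcases le_or_gt α.cof lam.ord.cof with h | h
  · left
    rw [← hS', ← mk_Idx] at h
    obtain ⟨e⟩ := h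
    refine ⟨fun γ η => ∃ s : S, e s = γ ∧ η = s.1.toOrd.1, ?_, ?_, ?_⟩
    · rintro γ η ⟨s, _, rfl⟩
      exact s.1.toOrd.2
    · rintro γ η η' ⟨s, h1, rfl⟩ ⟨s', h2, rfl⟩
      rw [e.injective (h1.trans h2.symm)]
    · intro ξ hξ
      obtain ⟨b, hb, hb'⟩ := hcofS ξ hξ
      exact ⟨e ⟨b, hb⟩, b.toOrd.1, ⟨⟨b, hb⟩, rfl, rfl⟩, hb'⟩
  · right
    have hreg : α.cof.IsRegular := by
      refine ⟨hs.unc.le.trans h.le, ?_⟩
      rw [Ordinal.cof_ord_cof]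
    have hle : α.cof ≤ lam := by
      refine (Ordinal.cof_le_card α).trans ?_
      exact Order.lt_succ_iff.1 (lt_ord.1 hα)
    have hlt : α.cof < lam := by
      refine lt_of_le_of_ne hle ?_
      intro h1
      rw [h1] at hreg
      exact hs.sing.not_isRegular hreg
    refine ⟨α.cof, ⟨hreg, h, hlt⟩, ?_⟩
    have h2 : #(W α.cof) = #S := by rw [mk_W, hS']
    obtain ⟨e⟩ := Cardinal.eq.1 h2
    obtain ⟨f, hf⟩ : ∃ f : W α.cof → Ordinal.{u}, ∀ γ, f γ = ((e γ).1.toOrd : Iio α).1 :=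
      ⟨_, fun _ => rfl⟩
    have hfα : ∀ γ, f γ < α := fun γ => by rw [hf]; exact (e γ).1.toOrd.2
    have hfc : ∀ ξ, ξ < α → ∃ γ, ξ ≤ f γ := by
      intro ξ hξ
      obtain ⟨b, hb, hb'⟩ := hcofS ξ hξ
      refine ⟨e.symm ⟨b, hb⟩, ?_⟩
      rw [hf, Equiv.apply_symm_apply]
      exact hb'
    refine ⟨fun γ => ⨆ γ' : Iio γ, (f γ'.1 + 1), ?_, ?_, ?_, ?_⟩
    · intro γ γ' h3
      refine Ordinal.iSup_le fun j => ?_
      exact Ordinal.le_iSup (fun j : Iio γ' => (f j.1 + 1)) ⟨j.1, lt_of_lt_of_le j.2 h3⟩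
    · intro γ
      apply Ordinal.iSup_add_one_lt_of_lt_cof
      · exact W_Iio γ
      · exact fun j => hfα _
    · intro ξ hξ
      obtain ⟨γ, hγ⟩ := hfc ξ hξ
      obtain ⟨γ', hγ'⟩ := W_above hreg γ
      refine ⟨γ', hγ.trans_lt ((lt_add_one _).trans_le ?_)⟩
      exact Ordinal.le_iSup (fun j : Iio γ' => (f j.1 + 1)) ⟨γ, hγ'⟩
    · intro γ hγ ξ hξ
      obtain ⟨j, hj⟩ := Ordinal.lt_iSup_iff.1 hξ
      obtain ⟨γ', h1, h2⟩ := hγ.2 j.1 j.2
      refine ⟨γ', h2, hj.trans_le ?_⟩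
      exact Ordinal.le_iSup (fun j : Iio γ' => (f j.1 + 1)) ⟨j.1, h1⟩

theorem exists_HY (hs : Sg lam) (hP : Prd g α) {Y : Idx lam → Ordinal.{u} → Prop} (hV : V1 α Y) :
    ∃ h : Fn lam, (∀ i, h i < km lam i) ∧ HY g Y h := by
  classical
  have h1 : ∀ i : Idx lam, ∃ h, h < km lam i ∧ LS (fun x => ∃ γ η, γ < i ∧ Y γ η ∧ x = g η i) h := by
    intro i
    obtain ⟨b, hb, hb'⟩ := exists_bound' (hs.reg_km i) (A := Iio i) (by
        refine (Idx_Iio_lt i).trans_le ?_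
        exact (cof_le_cm i).trans (Order.le_succ _))
      (fun γ => if h : ∃ η, Y γ.1 η then g h.choose i else 0) (by
        intro γ
        split_ifs with h
        · exact hP _ (hV.lt _ _ h.choose_spec) i
        · exact (hs.reg_km i).ord_pos)
    obtain ⟨v, hv, hv'⟩ := exists_LS (P := fun x => ∃ γ η, γ < i ∧ Y γ η ∧ x = g η i) (b := b) (by
      rintro x ⟨γ, η, h1, h2, rfl⟩
      have h3 : ∃ η, Y γ η := ⟨η, h2⟩
      have h4 := hb' ⟨γ, h1⟩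
      rw [dif_pos h3, hV.uniq γ _ _ h3.choose_spec h2] at h4
      exact h4)
    exact ⟨v, hv.trans_lt hb, hv'⟩
  choose h h2 h3 using h1
  exact ⟨h, h2, h3⟩

theorem exists_S1 (hs : Sg lam) (hI : Inc g α) (hG : Good g α) (hP : Prd g α) {h : Fn lam}
    (hh : ∀ i, h i < km lam i) : ∃ v : Fn lam, (∀ i, v i < km lam i) ∧ S1 g α h v := by
  classical
  have h1 : ∀ i : Idx lam, ∃ v, v < km lam i ∧
      LS (fun x => ∃ k ξ, RR k i ∧ ξ < α ∧ St g h ξ k ∧ x = g ξ i) v := by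
    intro i
    have h2 : ∀ k : Idx lam, ∃ b, b < km lam i ∧
        (RR k i → ∀ ξ, ξ < α → St g h ξ k → g ξ i < b) := by
      intro k
      by_cases hk : RR k i
      · have h3 := small hs hI hG hh k
        obtain ⟨b, hb, hb'⟩ := exists_bound (hs.reg_km i)
          (X := {ξ : Ordinal.{u} | ξ < α ∧ St g h ξ k}) (by
            refine h3.trans ?_
            rw [Cardinal.lift_lt]
            exact lt_of_le_of_lt hk (Order.lt_succ _)) (fun ξ => g ξ i) (fun ξ hξ => hP ξ hξ.1 i)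
        exact ⟨b, hb, fun _ ξ h4 h5 => hb' ξ ⟨h4, h5⟩⟩
      · exact ⟨0, (hs.reg_km i).ord_pos, fun h => (hk h).elim⟩
    choose B hB hB' using h2
    obtain ⟨b, hb, hb'⟩ := exists_bound' (hs.reg_km i) (A := Idx lam) (by
        rw [mk_Idx]
        exact (cof_le_cm i).trans_lt (Order.lt_succ _)) B hB
    obtain ⟨v, hv, hv'⟩ := exists_LS
      (P := fun x => ∃ k ξ, RR k i ∧ ξ < α ∧ St g h ξ k ∧ x = g ξ i) (b := b) (by
      rintro x ⟨k, ξ, h1, h2, h3, rfl⟩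
      exact (hB' k h1 ξ h2 h3).trans (hb' k))
    exact ⟨v, hv.trans_lt hb, hv'⟩
  choose v h2 h3 using h1
  exact ⟨v, h2, h3⟩

theorem tail_not_mem (hs : Sg lam) {P : Idx lam → Prop} (hP : ∀ᶠ i in Filter.atTop, P i) :
    {i | P i} ∉ (JNS hs.unc).sets := by
  have hne := hs.nonempty
  obtain ⟨n, hn⟩ := Filter.eventually_atTop.1 hP
  intro h1
  apply JNS_proper hs.unc
  refine (JNS hs.unc).mono ?_ ((JNS hs.unc).union h1 ((JNS hs.unc).bdd n))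
  intro i _
  rcases le_total n i with h2 | h2
  · left
    exact hn i h2
  · right
    exact h2

theorem upper1 (hs : Sg lam) (hI : Inc g α) {Y : Idx lam → Ordinal.{u} → Prop}
    (hV : V1 α Y) {h v : Fn lam} (hh : ∀ i, h i < km lam i) (H : HY g Y h) (H1 : S1 g α h v) :
    ∀ ξ, ξ < α → Lt (g ξ) v := by
  have hne := hs.nonempty
  intro ξ hξ
  obtain ⟨γ0, η0, h1, h2⟩ := hV.cof ξ hξ
  have h3 : Le (g ξ) (g η0) := by
    rcases h2.eq_or_lt with h4 | h4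
    · rw [h4]
      exact Le.refl _
    · exact (hI _ _ h4 (hV.lt _ _ h1)).le
  have h4 : ∀ᶠ i in Filter.atTop, g ξ i < h i := by
    obtain ⟨γ1, hγ1⟩ := W_above hs.cof_reg γ0
    filter_upwards [h3, Filter.eventually_ge_atTop γ1] with i h5 h6
    exact h5.trans_lt ((H i).1 _ ⟨γ0, η0, hγ1.trans_le h6, h1, rfl⟩)
  obtain ⟨k, hk⟩ := (JNS hs.unc).exists_pos (tail_not_mem hs h4)
    (fun k i => ee lam i (h i) (g ξ i) < tm lam k) (by
      intro i hi hl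
      exact tm_lim i hl _ (ee_lt (hh i) hi))
  have hSt : St g h ξ k := by
    have h5 : ¬ ¬ IsStationary {i | i ∈ {i | g ξ i < h i} ∧ ee lam i (h i) (g ξ i) < tm lam k} := hk
    exact not_not.1 h5
  have h6 : ∀ᶠ i in Filter.atTop, RR k i :=
    hs.cm_ev (hs.limit (hs.limit (hs.limit (hs.succ_cm_lt k))))
  filter_upwards [h6] with i h7
  exact (H1 i).1 _ ⟨k, ξ, h7, hξ, hSt, rfl⟩

theorem exists_S2 (hs : Sg lam) (hP : Prd g α) {ν : Cardinal.{u}} {y : W ν → Ordinal.{u}}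
    (hV : V2 α ν y) : ∃ v : Fn lam, (∀ i, v i < km lam i) ∧ S2 g ν y v := by
  classical
  have h1 : ∀ i : Idx lam, ∃ v, v < km lam i ∧ ((ν ≤ cm lam i → Q2 g ν y i v ∧
      ∀ v', v' < v → ¬ Q2 g ν y i v') ∧ (¬ ν ≤ cm lam i → v = 0)) := by
    intro i
    by_cases hi : ν ≤ cm lam i
    · obtain ⟨b, hb, hb'⟩ := exists_bound' (hs.reg_km i) (A := W ν) (by
        rw [mk_W]
        exact hi.trans_lt (Order.lt_succ _)) (fun γ => g (y γ) i) (fun γ => hP _ (hV.lt γ) i)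
      have h2 : Q2 g ν y i b := ⟨Set.univ, IsClub.univ, fun γ _ => hb' γ⟩
      refine ⟨sInf {w | Q2 g ν y i w}, (csInf_le' (s := {w | Q2 g ν y i w}) (a := b) h2).trans_lt hb, fun _ => ⟨?_, ?_⟩,
        fun h => (h hi).elim⟩
      · exact csInf_mem (s := {w | Q2 g ν y i w}) ⟨b, h2⟩
      · intro v' hv' h3
        exact (csInf_le' (s := {w | Q2 g ν y i w}) (a := v') h3).not_gt hv'
    · exact ⟨0, (hs.reg_km i).ord_pos, fun h => (hi h).elim, fun _ => rfl⟩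
  choose v h2 h3 using h1
  exact ⟨v, h2, h3⟩

theorem upper2 (hs : Sg lam) (hI : Inc g α) {ν : Cardinal.{u}} (hν : Rg lam ν)
    {y : W ν → Ordinal.{u}} (hV : V2 α ν y) {v : Fn lam} (H : S2 g ν y v) :
    ∀ ξ, ξ < α → Lt (g ξ) v := by
  classical
  have hne := hs.nonempty
  intro ξ hξ
  have h1 : ∀ i, ∃ C : Set (W ν), IsClub C ∧ (ν ≤ cm lam i → ∀ γ ∈ C, g (y γ) i < v i) := by
    intro i
    by_cases hi : ν ≤ cm lam i
    · obtain ⟨C, hC, hC'⟩ := ((H i).1 hi).1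
      exact ⟨C, hC, fun _ => hC'⟩
    · exact ⟨Set.univ, IsClub.univ, fun h => (hi h).elim⟩
  choose C hC hC' using h1
  have h2 : IsClub (⋂ i, C i) := isClub_iInter hν.1 (hν.unc hs) (by rw [mk_Idx]; exact hν.2.1) hC
  obtain ⟨γ0, hγ0⟩ := hV.unb ξ hξ
  obtain ⟨γ, hγ, hγ'⟩ := h2.isCofinal γ0
  have h3 : Lt (g ξ) (g (y γ)) := hI _ _ (hγ0.trans_le (hV.mono _ _ hγ')) (hV.lt γ)
  filter_upwards [h3, hs.cm_ev hν.2.2] with i h4 h5
  exact h4.trans (hC' i h5 γ (mem_iInter.1 hγ i))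

theorem exists_step (hs : Sg lam) (hα : α < (Order.succ lam).ord) (hI : Inc g α) (hG : Good g α)
    (hP : Prd g α) : ∃ v : Fn lam, Step g α v ∧ (∀ i, v i < km lam i) ∧ ∀ ξ, ξ < α → Lt (g ξ) v := by
  rcases exists_valid hs hα with ⟨Y, hY⟩ | ⟨ν, hν, y, hy⟩
  · obtain ⟨h, hh, hh'⟩ := exists_HY hs hP hY
    obtain ⟨v, hv, hv'⟩ := exists_S1 hs hI hG hP hh
    exact ⟨v, Or.inl ⟨Y, h, hY, hh', hv'⟩, hv, upper1 hs hI hY hh hh' hv'⟩
  · obtain ⟨v, hv, hv'⟩ := exists_S2 hs hP hy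
    exact ⟨v, Or.inr ⟨ν, hν, y, hy, hv'⟩, hv, upper2 hs hI hν hy hv'⟩

/-- The canonical scale. -/
theorem exists_scale (hs : Sg lam) : ∃ g : Ordinal.{u} → Fn lam,
    (∀ α, α < (Order.succ lam).ord → Step g α (g α)) ∧
    (∀ α, α < (Order.succ lam).ord → ∀ i, g α i < km lam i) ∧
    ∀ α β, α < β → β < (Order.succ lam).ord → Lt (g α) (g β) := by
  obtain ⟨g, hg⟩ := exists_rec (J := Ordinal.{u}) (A := Fn lam)
    (fun α g v => α < (Order.succ lam).ord → Step g α v ∧ (∀ i, v i < km lam i) ∧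
      ∀ ξ, ξ < α → Lt (g ξ) v)
    (by
      intro α g g' v h1 h2 hα
      obtain ⟨h3, h4, h5⟩ := h2 hα
      refine ⟨h3.local h1, h4, fun ξ hξ => ?_⟩
      rw [← h1 ξ hξ]
      exact h5 ξ hξ)
    (by
      intro α g h1
      by_cases hα : α < (Order.succ lam).ord
      · obtain ⟨v, hv⟩ := exists_step (g := g) hs hα
          (fun ξ η h2 h3 => (h1 η h3 (h3.trans hα)).2.2 ξ h2)
          (fun ξ h2 => (h1 ξ h2 (h2.trans hα)).1) (fun ξ h2 => (h1 ξ h2 (h2.trans hα)).2.1)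
        exact ⟨v, fun _ => hv⟩
      · exact ⟨fun _ => 0, fun h => (hα h).elim⟩)
  exact ⟨g, fun α hα => (hg α hα).1, fun α hα => (hg α hα).2.1,
    fun α β h1 h2 => (hg β h2).2.2 α h1⟩

end Pool.Agent.Helper92.CS
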