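import Pool.Agent.Helper98.Levy

/-!
The formulas describing the canonical scale.
-/

universe u

namespace Pool.Agent.Helper92.CS

open Pool.Agent.Helper98
open ZFSet (pair)

/-- constant parameters -/
structure Par : Type (u + 1) where
  L : ZFSet.{u}
  m : ZFSet.{u}
  R : ZFSet.{u}
  SI : ZFSet.{u}
  Lv : ZFSet.{u}
  LI : ZFSet.{u}
  IO : ZFSet.{u}
  EK : ZFSet.{u}
  RF : ZFSet.{u}
  NL : ZFSet.{u}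

/-- the variable sets: club family, scale, diagonal suprema, cofinal functions -/
structure Wit : Type (u + 1) where
  B : ZFSet.{u}
  G : ZFSet.{u}
  H : ZFSet.{u}
  Y : ZFSet.{u}

def NonE (x : ZFSet.{u}) : Prop := ∃ z ∈ x, z = z

def LimF (x : ZFSet.{u}) : Prop := NonE x ∧ ∀ z ∈ x, ∃ z' ∈ x, z ∈ z'

def ClubF (b ν : ZFSet.{u}) : Prop :=
  (∀ x ∈ b, x ∈ ν) ∧ (∀ x ∈ ν, ∃ z ∈ b, x ∈ z) ∧
    ∀ x ∈ ν, NonE x → (∀ z ∈ x, ∃ u ∈ b, z ∈ u ∧ u ∈ x) → x ∈ b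

def GoodS (P : Par.{u}) (G a : ZFSet.{u}) : Prop :=
  (∀ p ∈ P.L, ∀ q ∈ P.L, pair p a ∈ G → pair q a ∈ G → ¬ pair p q ∈ P.Lv) ∧
  (∀ p ∈ P.L, ∀ q ∈ P.L, pair p a ∈ G → pair p q ∈ P.SI → ¬ pair p q ∈ P.Lv →
    ¬ pair q p ∈ P.Lv → pair q a ∈ G) ∧
  ∀ p ∈ P.L, ∃ q ∈ P.L, pair q a ∈ G ∧ pair p q ∈ P.SI

def V1F (P : Par.{u}) (w : Wit.{u}) (a : ZFSet.{u}) : Prop :=
  (∀ γ ∈ P.m, ∀ η ∈ a, ∀ η' ∈ a, pair γ (pair η a) ∈ w.Y → pair γ (pair η' a) ∈ w.Y → η = η') ∧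
  ∀ ξ ∈ a, ∃ γ ∈ P.m, ∃ η ∈ a, pair γ (pair η a) ∈ w.Y ∧ (ξ ∈ η ∨ ξ = η)

def HYF (P : Par.{u}) (w : Wit.{u}) (a : ZFSet.{u}) : Prop :=
  ∀ q ∈ P.L, pair q a ∈ w.H →
    (∀ γ ∈ P.m, ∀ η ∈ a, ∀ r ∈ P.L, pair γ (pair η a) ∈ w.Y → pair q γ ∈ P.LI →
      pair r η ∈ w.G → pair r q ∈ P.SI → pair r q ∈ P.Lv) ∧
    ∀ q' ∈ P.L, pair q' q ∈ P.Lv → ∃ γ ∈ P.m, ∃ η ∈ a, ∃ r ∈ P.L, pair γ (pair η a) ∈ w.Y ∧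
      pair q γ ∈ P.LI ∧ pair r η ∈ w.G ∧ pair r q ∈ P.SI ∧ ¬ pair r q' ∈ P.Lv

def StF (P : Par.{u}) (w : Wit.{u}) (a ξ r : ZFSet.{u}) : Prop :=
  ∀ b ∈ w.B, ClubF b P.m → ∃ γ ∈ b, ∃ p ∈ P.L, ∃ q ∈ P.L, pair p γ ∈ P.IO ∧ pair p ξ ∈ w.G ∧
    pair q a ∈ w.H ∧ pair p (pair q r) ∈ P.EK

def S1F (P : Par.{u}) (w : Wit.{u}) (a : ZFSet.{u}) : Prop :=
  ∀ q ∈ P.L, pair q a ∈ w.G →
    (∀ r ∈ P.L, ∀ ξ ∈ a, ∀ p ∈ P.L, pair r q ∈ P.RF → StF P w a ξ r → pair p ξ ∈ w.G →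
      pair p q ∈ P.SI → pair p q ∈ P.Lv) ∧
    ∀ q' ∈ P.L, pair q' q ∈ P.Lv → ∃ r ∈ P.L, ∃ ξ ∈ a, ∃ p ∈ P.L, pair r q ∈ P.RF ∧
      StF P w a ξ r ∧ pair p ξ ∈ w.G ∧ pair p q ∈ P.SI ∧ ¬ pair p q' ∈ P.Lv

def V2F (w : Wit.{u}) (a ν : ZFSet.{u}) : Prop :=
  (∀ γ ∈ ν, ∃ η ∈ a, pair γ (pair η a) ∈ w.Y) ∧
  (∀ γ ∈ ν, ∀ γ' ∈ ν, ∀ η ∈ a, ∀ η' ∈ a, pair γ (pair η a) ∈ w.Y → pair γ' (pair η' a) ∈ w.Y →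
    (γ ∈ γ' ∨ γ = γ') → (η ∈ η' ∨ η = η')) ∧
  (∀ ξ ∈ a, ∃ γ ∈ ν, ∃ η ∈ a, pair γ (pair η a) ∈ w.Y ∧ ξ ∈ η) ∧
  ∀ γ ∈ ν, LimF γ → ∀ η ∈ a, pair γ (pair η a) ∈ w.Y → ∀ ξ ∈ η, ∃ γ' ∈ γ, ∃ η' ∈ a,
    pair γ' (pair η' a) ∈ w.Y ∧ ξ ∈ η'

def Q2F (P : Par.{u}) (w : Wit.{u}) (a ν q : ZFSet.{u}) : Prop :=
  ∃ b ∈ w.B, ClubF b ν ∧ ∀ γ ∈ b, ∀ η ∈ a, ∀ r ∈ P.L, pair γ (pair η a) ∈ w.Y →
    pair r η ∈ w.G → pair r q ∈ P.SI → pair r q ∈ P.Lv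

def S2F (P : Par.{u}) (w : Wit.{u}) (a ν : ZFSet.{u}) : Prop :=
  ∀ q ∈ P.L, pair q a ∈ w.G →
    (pair q ν ∈ P.NL → Q2F P w a ν q ∧ ∀ q' ∈ P.L, pair q' q ∈ P.Lv → ¬ Q2F P w a ν q') ∧
    (¬ pair q ν ∈ P.NL → ∀ q' ∈ P.L, ¬ pair q' q ∈ P.Lv)

def StepF (P : Par.{u}) (w : Wit.{u}) (a : ZFSet.{u}) : Prop :=
  (V1F P w a ∧ GoodS P w.H a ∧ HYF P w a ∧ S1F P w a) ∨
    ∃ ν ∈ P.R, V2F w a ν ∧ S2F P w a ν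

def ColF (P : Par.{u}) (G α β y : ZFSet.{u}) : Prop :=
  ∃ k ∈ P.L, (∀ k' ∈ k, (pair k' α ∈ G ↔ pair k' β ∈ G)) ∧
    ((pair k α ∈ G ∧ ¬ pair k β ∈ G ∧ y = ∅) ∨ (¬ pair k α ∈ G ∧ pair k β ∈ G ∧ y = {∅}))

/-- The matrix -/
def MatF (P : Par.{u}) (w B α β y : ZFSet.{u}) : Prop :=
  ∃ ζ ∈ w, ∃ G ∈ w, ∃ H ∈ w, ∃ Y ∈ w, (β ∈ ζ ∧ ∀ x ∈ β, x ∈ ζ) ∧
    (∀ a ∈ ζ, GoodS P G a ∧ StepF P ⟨B, G, H, Y⟩ a) ∧ ColF P G α β y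

/-- all clubs of regular cardinals in the interval belong to `w` -/
def AllF (P : Par.{u}) (w x : ZFSet.{u}) : Prop :=
  (ClubF x P.m → x ∈ w) ∧ ∀ ν ∈ P.R, ClubF x ν → x ∈ w

/-! ### the formulas -/

theorem d0_one : D0 (fun v : Fin 16 → ZFSet.{u} =>
    MatF ⟨v 5, v 6, v 7, v 8, v 9, v 10, v 11, v 12, v 13, v 14⟩ (v 0) (v 15) (v 1) (v 2) (v 3)) := by
  unfold MatF ColF StepF S2F Q2F V2F S1F StF HYF V1F GoodS ClubF LimF NonE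
  dsimp only
  repeat' first
    | exact ⟨_, rfl⟩
    | with_reducible refine D0.tripMem ?_ ?_ ?_ ?_
    | with_reducible refine D0.pairMem ?_ ?_ ?_
    | with_reducible refine D0.mem ?_ ?_
    | with_reducible refine D0.eqEmpty ?_
    | with_reducible refine D0.eqOne ?_
    | with_reducible refine D0.eq ?_ ?_
    | with_reducible refine D0.ball ?_ ?_
    | with_reducible refine D0.bex ?_ ?_
    | with_reducible refine D0.not ?_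
    | with_reducible refine D0.and ?_ ?_
    | with_reducible refine D0.or ?_ ?_
    | with_reducible refine D0.iff ?_ ?_
    | with_reducible refine D0.imp ?_ ?_

theorem d0_two : D0 (fun v : Fin 16 → ZFSet.{u} =>
    AllF ⟨v 6, v 7, v 8, v 9, v 10, v 11, v 12, v 13, v 14, v 15⟩ (v 1) (v 0) ∧
    MatF ⟨v 6, v 7, v 8, v 9, v 10, v 11, v 12, v 13, v 14, v 15⟩ (v 1) (v 1) (v 2) (v 3) (v 4)) := by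
  unfold AllF MatF ColF StepF S2F Q2F V2F S1F StF HYF V1F GoodS ClubF LimF NonE
  dsimp only
  repeat' first
    | exact ⟨_, rfl⟩
    | with_reducible refine D0.tripMem ?_ ?_ ?_ ?_
    | with_reducible refine D0.pairMem ?_ ?_ ?_
    | with_reducible refine D0.mem ?_ ?_
    | with_reducible refine D0.eqEmpty ?_
    | with_reducible refine D0.eqOne ?_
    | with_reducible refine D0.eq ?_ ?_
    | with_reducible refine D0.ball ?_ ?_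
    | with_reducible refine D0.bex ?_ ?_
    | with_reducible refine D0.not ?_
    | with_reducible refine D0.and ?_ ?_
    | with_reducible refine D0.or ?_ ?_
    | with_reducible refine D0.iff ?_ ?_
    | with_reducible refine D0.imp ?_ ?_

/-- The `Σ₁` formula. -/
theorem exists_sigma_one : ∃ φ : Fml 15, φ.IsSigma 1 ∧ ∀ v : Fin 15 → ZFSet.{u},
    φ.Sat v ↔ ∃ w, MatF ⟨v 4, v 5, v 6, v 7, v 8, v 9, v 10, v 11, v 12, v 13⟩ w (v 14) (v 0)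
      (v 1) (v 2) := by
  obtain ⟨ψ, h1, h2⟩ := d0_one.{u}
  refine ⟨.ex (.neg (.neg ψ)), ⟨.neg ψ, .neg h1, rfl⟩, ?_⟩
  intro v
  refine exists_congr fun w => ?_
  refine not_not.trans ?_
  exact h2 (Fin.cons w v)

/-- The `Σ₂` formula. -/
theorem exists_sigma_two : ∃ φ : Fml 14, φ.IsSigma 2 ∧ ∀ v : Fin 14 → ZFSet.{u},
    φ.Sat v ↔ ∃ w, ∀ x, AllF ⟨v 4, v 5, v 6, v 7, v 8, v 9, v 10, v 11, v 12, v 13⟩ w x ∧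
      MatF ⟨v 4, v 5, v 6, v 7, v 8, v 9, v 10, v 11, v 12, v 13⟩ w w (v 0) (v 1) (v 2) := by
  obtain ⟨ψ, h1, h2⟩ := d0_two.{u}
  refine ⟨.ex (.neg (.ex (.neg ψ))), ⟨.ex (.neg ψ), ⟨ψ, h1, rfl⟩, rfl⟩, ?_⟩
  intro v
  refine exists_congr fun w => ?_
  have h3 : ∀ x, ψ.Sat (Fin.cons x (Fin.cons w v)) ↔
      (AllF ⟨v 4, v 5, v 6, v 7, v 8, v 9, v 10, v 11, v 12, v 13⟩ w x ∧
      MatF ⟨v 4, v 5, v 6, v 7, v 8, v 9, v 10, v 11, v 12, v 13⟩ w w (v 0) (v 1) (v 2)) :=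
    fun x => h2 (Fin.cons x (Fin.cons w v))
  change (¬ ∃ x, ¬ ψ.Sat (Fin.cons x (Fin.cons w v))) ↔ _
  rw [not_exists]
  refine forall_congr' fun x => ?_
  rw [not_not]
  exact h3 x

end Pool.Agent.Helper92.CS
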