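import Pool.Agent.Helper98.Main2
import Pool.Agent.Helper98.Hered
import Pool.Agent.Helper92.CS.Exist
import Pool.Agent.Helper92.CS.Form

/-!
Encoding of labels, parameters and clubs into sets.
-/

open Set Ordinal Cardinal

universe u

namespace Pool.Agent.Helper92.CS

open Pool.Agent.Helper98
open ZFSet (pair)

variable {lam : Cardinal.{u}}

/-! ### quantifiers -/

theorem exists_mem_ord {γ : Ordinal.{u}} {P : ZFSet.{u} → Prop} :
    (∃ x ∈ γ.toZFSet, P x) ↔ ∃ δ, δ < γ ∧ P δ.toZFSet := by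
  constructor
  · rintro ⟨x, hx, h⟩
    obtain ⟨δ, hδ, rfl⟩ := Ordinal.mem_toZFSet_iff.1 hx
    exact ⟨δ, hδ, h⟩
  · rintro ⟨δ, hδ, h⟩
    exact ⟨_, Ordinal.toZFSet_mem_toZFSet_iff.2 hδ, h⟩

theorem exists_mem_enc {P : ZFSet.{u} → Prop} {k : TT lam} :
    (∃ x ∈ enc k, P x) ↔ ∃ t : TT lam, t < k ∧ P (enc t) := by
  constructor
  · rintro ⟨x, hx, h⟩
    by_contra hcon
    push Not at hcon
    exact (forall_mem_enc (P := fun x => ¬ P x)).2 hcon x hx h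
  · rintro ⟨t, ht, h⟩
    exact ⟨_, enc_mem_enc.2 ht, h⟩

/-- change of the ambient cardinal -/
theorem exists_enc_eq {ν : Cardinal.{u}} (hν : ν ≤ lam) (γ : W ν) :
    ∃ t : TT lam, (t.toOrd.1 : Ordinal.{u}) = γ.toOrd.1 ∧ enc t = enc γ := by
  have h1 : (γ.toOrd.1 : Ordinal.{u}) < lam.ord := γ.toOrd.2.trans_le (Cardinal.ord_le_ord.2 hν)
  refine ⟨ToType.mk ⟨γ.toOrd.1, h1⟩, ?_, ?_⟩
  · simp [ToType.toOrd]
  · simp [enc, ToType.toOrd]

/-- relations between labels and elements of `W ν` as sets -/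
noncomputable def relW {ν : Cardinal.{u}} (P : TT lam → W ν → Prop) : ZFSet.{u} :=
  ZFSet.range (fun p : {p : TT lam × W ν // P p.1 p.2} => pair (enc p.1.1) (enc p.1.2))

theorem pair_mem_relW {ν : Cardinal.{u}} {P : TT lam → W ν → Prop} {a : TT lam} {b : W ν} :
    pair (enc a) (enc b) ∈ relW P ↔ P a b := by
  rw [relW, ZFSet.mem_range]
  constructor
  · rintro ⟨⟨⟨x, y⟩, h⟩, h1⟩
    obtain ⟨h2, h3⟩ := ZFSet.pair_inj.1 h1
    dsimp only at h h2 h3
    rw [enc_injective h2, enc_injective h3] at h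
    exact h
  · intro h
    exact ⟨⟨⟨a, b⟩, h⟩, rfl⟩

theorem InH.encW {ν : Cardinal.{u}} (hν : ν ≤ lam) (t : W ν) : InH (Order.succ lam) (enc t) := by
  obtain ⟨s, _, hs⟩ := exists_enc_eq hν t
  rw [← hs]
  exact InH.enc s

theorem InH.relW (hlam : ℵ₀ ≤ lam) {ν : Cardinal.{u}} (hν : ν ≤ lam) (P : TT lam → W ν → Prop) :
    InH (Order.succ lam) (relW P) := by
  have hκ : (Order.succ lam).IsRegular := isRegular_succ hlam
  refine InH.of_elems hκ (card_range_lt ?_ _) ?_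
  · rw [Order.lt_succ_iff]
    refine (mk_subtype_le _).trans ?_
    rw [mk_prod, Cardinal.lift_id, Cardinal.lift_id, mk_ord_toType, mk_ord_toType]
    exact (mul_le_mul' le_rfl hν).trans (mul_eq_self hlam).le
  · intro y hy
    obtain ⟨p, rfl⟩ := ZFSet.mem_range.1 hy
    exact InH.pair hκ (InH.enc _) (InH.encW hν _)

/-- ternary relations on ordinals as sets -/
noncomputable def relT (lam : Cardinal.{u}) (b : Ordinal.{u})
    (P : Ordinal.{u} → Ordinal.{u} → Ordinal.{u} → Prop) : ZFSet.{u} :=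
  ZFSet.range (fun p : {p : TT lam × b.ToType × b.ToType //
    P p.1.toOrd.1 p.2.1.toOrd.1 p.2.2.toOrd.1} =>
    pair (enc p.1.1) (pair (p.1.2.1.toOrd.1).toZFSet (p.1.2.2.toOrd.1).toZFSet))

theorem pair_mem_relT {b : Ordinal.{u}} {P : Ordinal.{u} → Ordinal.{u} → Ordinal.{u} → Prop}
    {ν : Cardinal.{u}} (hν : ν ≤ lam) {γ : W ν} {η a : Ordinal.{u}} (hη : η < b) (ha : a < b) :
    pair (enc γ) (pair η.toZFSet a.toZFSet) ∈ relT lam b P ↔ P γ.toOrd.1 η a := by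
  obtain ⟨t, ht, ht'⟩ := exists_enc_eq hν γ
  rw [relT, ZFSet.mem_range, ← ht', ← ht]
  constructor
  · rintro ⟨⟨⟨x, y, z⟩, h⟩, h1⟩
    obtain ⟨h2, h3⟩ := ZFSet.pair_inj.1 h1
    obtain ⟨h3, h4⟩ := ZFSet.pair_inj.1 h3
    dsimp only at h h2 h3 h4
    rw [enc_injective h2, Ordinal.toZFSet_injective h3, Ordinal.toZFSet_injective h4] at h
    exact h
  · intro h
    refine ⟨⟨⟨t, ToType.mk ⟨η, hη⟩, ToType.mk ⟨a, ha⟩⟩, ?_⟩, ?_⟩
    · simpa [ToType.toOrd] using h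
    · simp [ToType.toOrd]

/-! ### labels -/

abbrev LB (lam : Cardinal.{u}) : Type u := Σ i : Idx lam, (km lam i).ToType

theorem mk_LB_le (hs : Sg lam) : #(LB lam) ≤ lam := by
  have hinf : ℵ₀ ≤ lam := hs.sing.aleph0_le
  rw [mk_sigma]
  refine (Cardinal.sum_le_sum _ (fun _ => lam) ?_).trans ?_
  · intro i
    rw [km, mk_ord_toType]
    exact (hs.succ_cm_lt i).le
  · rw [Cardinal.sum_const, Cardinal.lift_id, Cardinal.lift_id, mk_Idx]
    exact (mul_le_mul' (Ordinal.cof_ord_le lam) le_rfl).trans (mul_eq_self hinf).le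

/-- the index of a label -/
def ix (dE : TT lam → LB lam) (t : TT lam) : Idx lam := (dE t).1

/-- the value of a label -/
noncomputable def vl (dE : TT lam → LB lam) (t : TT lam) : Ordinal.{u} := (dE t).2.toOrd.1

variable {dE : TT lam → LB lam}

theorem vl_lt (t : TT lam) : vl dE t < km lam (ix dE t) := (dE t).2.toOrd.2

theorem exists_label (hE : Function.Surjective dE) {i : Idx lam} {v : Ordinal.{u}}
    (hv : v < km lam i) : ∃ t, ix dE t = i ∧ vl dE t = v := by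
  obtain ⟨t, ht⟩ := hE ⟨i, ToType.mk ⟨v, hv⟩⟩
  refine ⟨t, ?_, ?_⟩
  · rw [ix, ht]
  · rw [vl, ht]
    simp [ToType.toOrd]

/-- the parameters -/
noncomputable def par (dE : TT lam → LB lam) : Par.{u} where
  L := lam.ord.toZFSet
  m := (lam.ord.cof).ord.toZFSet
  R := ZFSet.range (fun t : {t : TT lam // ∃ ν, Rg lam ν ∧ ν.ord = t.toOrd.1} => enc t.1)
  SI := rel2 (fun p q => ix dE p = ix dE q)
  Lv := rel2 (fun p q => ix dE p = ix dE q ∧ vl dE p < vl dE q)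
  LI := relW (fun (q : TT lam) (γ : W lam.ord.cof) => γ < ix dE q)
  IO := relW (fun (q : TT lam) (γ : W lam.ord.cof) => γ = ix dE q)
  EK := rel3 (fun p q r => ix dE p = ix dE q ∧ vl dE p < vl dE q ∧
    ee lam (ix dE p) (vl dE q) (vl dE p) < tm lam (ix dE r))
  RF := rel2 (fun r q => RR (ix dE r) (ix dE q))
  NL := rel2 (fun q t => (t.toOrd.1).card ≤ cm lam (ix dE q))

theorem par_SI : (par dE).SI = rel2 (fun p q => ix dE p = ix dE q) := rfl

theorem par_Lv : (par dE).Lv = rel2 (fun p q => ix dE p = ix dE q ∧ vl dE p < vl dE q) := rfl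

theorem par_LI : (par dE).LI = relW (fun (q : TT lam) (γ : W lam.ord.cof) => γ < ix dE q) := rfl

theorem par_IO : (par dE).IO = relW (fun (q : TT lam) (γ : W lam.ord.cof) => γ = ix dE q) := rfl

theorem par_EK : (par dE).EK = rel3 (fun p q r => ix dE p = ix dE q ∧ vl dE p < vl dE q ∧
    ee lam (ix dE p) (vl dE q) (vl dE p) < tm lam (ix dE r)) := rfl

theorem par_RF : (par dE).RF = rel2 (fun r q => RR (ix dE r) (ix dE q)) := rfl

theorem par_NL : (par dE).NL = rel2 (fun q t => (t.toOrd.1).card ≤ cm lam (ix dE q)) := rfl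

theorem par_L : (par dE).L = lam.ord.toZFSet := rfl

theorem par_m : (par dE).m = (lam.ord.cof).ord.toZFSet := rfl

theorem par_R : (par dE).R =
    ZFSet.range (fun t : {t : TT lam // ∃ ν, Rg lam ν ∧ ν.ord = t.toOrd.1} => enc t.1) := rfl

theorem mem_par_SI {p q : TT lam} : pair (enc p) (enc q) ∈ (par dE).SI ↔ ix dE p = ix dE q := by
  rw [par_SI, pair_mem_rel2]

theorem mem_par_Lv {p q : TT lam} :
    pair (enc p) (enc q) ∈ (par dE).Lv ↔ ix dE p = ix dE q ∧ vl dE p < vl dE q := by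
  rw [par_Lv, pair_mem_rel2]

theorem mem_par_LI {q : TT lam} {γ : W lam.ord.cof} :
    pair (enc q) (enc γ) ∈ (par dE).LI ↔ γ < ix dE q := by
  rw [par_LI, pair_mem_relW]

theorem mem_par_IO {q : TT lam} {γ : W lam.ord.cof} :
    pair (enc q) (enc γ) ∈ (par dE).IO ↔ γ = ix dE q := by
  rw [par_IO, pair_mem_relW]

theorem mem_par_EK {p q r : TT lam} : pair (enc p) (pair (enc q) (enc r)) ∈ (par dE).EK ↔
    (ix dE p = ix dE q ∧ vl dE p < vl dE q ∧
      ee lam (ix dE p) (vl dE q) (vl dE p) < tm lam (ix dE r)) := by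
  rw [par_EK, pair_mem_rel3]

theorem mem_par_RF {p q : TT lam} :
    pair (enc p) (enc q) ∈ (par dE).RF ↔ RR (ix dE p) (ix dE q) := by
  rw [par_RF, pair_mem_rel2]

theorem mem_par_NL {q : TT lam} {ν : Cardinal.{u}} (hν : ν < lam) :
    pair (enc q) (ν.ord.toZFSet) ∈ (par dE).NL ↔ ν ≤ cm lam (ix dE q) := by
  have h1 : ν.ord < lam.ord := ord_lt_ord.2 hν
  have h2 : (ν.ord.toZFSet : ZFSet.{u}) = enc (ToType.mk ⟨ν.ord, h1⟩ : TT lam) := by
    simp [enc, ToType.toOrd]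
  rw [h2, par_NL, pair_mem_rel2]
  simp [ToType.toOrd]

theorem mem_par_R {x : ZFSet.{u}} : x ∈ (par dE).R ↔ ∃ ν, Rg lam ν ∧ x = ν.ord.toZFSet := by
  rw [par_R, ZFSet.mem_range]
  constructor
  · rintro ⟨⟨t, ν, h1, h2⟩, h3⟩
    refine ⟨ν, h1, ?_⟩
    rw [h2]
    exact h3.symm
  · rintro ⟨ν, h1, rfl⟩
    have h2 : ν.ord < lam.ord := ord_lt_ord.2 h1.2.2
    refine ⟨⟨ToType.mk ⟨ν.ord, h2⟩, ν, h1, ?_⟩, ?_⟩
    · simp [ToType.toOrd]
    · simp [enc, ToType.toOrd]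

theorem InH_par (hs : Sg lam) : InH (Order.succ lam) (par dE).L ∧ InH (Order.succ lam) (par dE).m ∧
    InH (Order.succ lam) (par dE).R ∧ InH (Order.succ lam) (par dE).SI ∧
    InH (Order.succ lam) (par dE).Lv ∧ InH (Order.succ lam) (par dE).LI ∧
    InH (Order.succ lam) (par dE).IO ∧ InH (Order.succ lam) (par dE).EK ∧
    InH (Order.succ lam) (par dE).RF ∧ InH (Order.succ lam) (par dE).NL := by
  have hlam : ℵ₀ ≤ lam := hs.sing.aleph0_le
  have hκ : (Order.succ lam).IsRegular := isRegular_succ hlam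
  have hc : lam.ord.cof ≤ lam := Ordinal.cof_ord_le lam
  rw [par_L, par_m, par_R, par_SI, par_Lv, par_LI, par_IO, par_EK, par_RF, par_NL]
  refine ⟨?_, ?_, ?_, InH.rel2 hlam _, InH.rel2 hlam _, InH.relW hlam hc _, InH.relW hlam hc _,
    InH.rel3 hlam _, InH.rel2 hlam _, InH.rel2 hlam _⟩
  · apply InH.ord
    rw [card_ord]
    exact Order.lt_succ _
  · apply InH.ord
    rw [card_ord]
    exact hc.trans_lt (Order.lt_succ _)
  · refine InH.of_elems hκ (card_range_lt ?_ _) ?_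
    · rw [Order.lt_succ_iff]
      refine (mk_subtype_le _).trans ?_
      rw [mk_ord_toType]
    · intro y hy
      obtain ⟨p, rfl⟩ := ZFSet.mem_range.1 hy
      exact InH.enc _

/-! ### clubs -/

/-- the set of elements coded by a set -/
def dec (ν : Cardinal.{u}) (b : ZFSet.{u}) : Set (W ν) := {t | enc t ∈ b}

/-- the set coding a set of elements -/
noncomputable def encS {ν : Cardinal.{u}} (C : Set (W ν)) : ZFSet.{u} :=
  ZFSet.range (fun t : C => enc t.1)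

theorem mem_encS {ν : Cardinal.{u}} {C : Set (W ν)} {t : W ν} : enc t ∈ encS C ↔ t ∈ C := by
  rw [encS, ZFSet.mem_range]
  constructor
  · rintro ⟨s, hs⟩
    rw [← enc_injective hs]
    exact s.2
  · intro h
    exact ⟨⟨t, h⟩, rfl⟩

theorem dec_encS {ν : Cardinal.{u}} (C : Set (W ν)) : dec ν (encS C) = C := by
  ext t
  exact mem_encS

theorem nonE_enc {ν : Cardinal.{u}} {t : W ν} : NonE (enc t) ↔ ∃ s, s < t := by
  rw [NonE, exists_mem_enc]
  simp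

theorem limF_enc {ν : Cardinal.{u}} {t : W ν} : LimF (enc t) ↔ Lim t := by
  rw [LimF, nonE_enc, Lim]
  refine and_congr Iff.rfl ?_
  rw [forall_mem_enc]
  refine forall_congr' fun s => imp_congr Iff.rfl ?_
  rw [exists_mem_enc]
  constructor
  · rintro ⟨r, h1, h2⟩
    exact ⟨r, enc_mem_enc.1 h2, h1⟩
  · rintro ⟨r, h1, h2⟩
    exact ⟨r, h2, enc_mem_enc.2 h1⟩

theorem ClubF.isClub {ν : Cardinal.{u}} {b : ZFSet.{u}} (h : ClubF b ν.ord.toZFSet) :
    IsClub (dec ν b) := by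
  obtain ⟨h1, h2, h3⟩ := h
  constructor
  · intro d hd hd0 _ a ha
    by_cases had : a ∈ d
    · exact hd had
    have hlt : ∀ z ∈ d, z < a := fun z hz => lt_of_le_of_ne (ha.1 hz) (fun h4 => had (h4 ▸ hz))
    obtain ⟨z0, hz0⟩ := hd0
    refine h3 _ (enc_mem_L a) (nonE_enc.2 ⟨z0, hlt z0 hz0⟩) ?_
    rw [forall_mem_enc]
    intro z hz
    obtain ⟨u, hu, hzu⟩ := (lt_isLUB_iff ha).1 hz
    exact ⟨enc u, hd hu, enc_mem_enc.2 hzu, enc_mem_enc.2 (hlt u hu)⟩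
  · intro t
    obtain ⟨z, hz, htz⟩ := h2 _ (enc_mem_L t)
    obtain ⟨s, rfl⟩ := mem_L_iff.1 (h1 z hz)
    exact ⟨s, hz, (enc_mem_enc.1 htz).le⟩

theorem clubF_encS {ν : Cardinal.{u}} (hν : ν.IsRegular) {C : Set (W ν)} (hC : IsClub C) :
    ClubF (encS C) ν.ord.toZFSet := by
  refine ⟨?_, ?_, ?_⟩
  · intro x hx
    obtain ⟨t, rfl⟩ := ZFSet.mem_range.1 hx
    exact enc_mem_L _
  · rw [forall_mem_L]
    intro t
    obtain ⟨s, hs⟩ := W_above hν t
    obtain ⟨c, hc, hsc⟩ := hC.isCofinal s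
    exact ⟨enc c, mem_encS.2 hc, enc_mem_enc.2 (hs.trans_le hsc)⟩
  · rw [forall_mem_L]
    intro t h1 h2
    obtain ⟨s0, hs0⟩ := nonE_enc.1 h1
    rw [forall_mem_enc] at h2
    have h3 : ∀ z, z < t → ∃ u ∈ C, z < u ∧ u < t := by
      intro z hz
      obtain ⟨x, hx, hzx, hxt⟩ := h2 z hz
      obtain ⟨u, rfl⟩ := ZFSet.mem_range.1 hx
      exact ⟨u.1, u.2, enc_mem_enc.1 hzx, enc_mem_enc.1 hxt⟩
    rw [mem_encS]
    refine hC.isLUB_mem (t := {u | u ∈ C ∧ u < t}) (fun u hu => hu.1) ?_ ?_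
    · obtain ⟨u, hu, _, hut⟩ := h3 s0 hs0
      exact ⟨u, hu, hut⟩
    · refine ⟨fun u hu => hu.2.le, fun y hy => ?_⟩
      by_contra hcon
      obtain ⟨u, hu, hyu, hut⟩ := h3 y (not_le.1 hcon)
      exact (hyu.trans_le (hy ⟨hu, hut⟩)).false

/-- `B` contains bases of all club filters under consideration -/
def HB (lam : Cardinal.{u}) (B : ZFSet.{u}) : Prop :=
  ∀ ν : Cardinal.{u}, (ν = lam.ord.cof ∨ Rg lam ν) → ∀ C : Set (W ν), IsClub C →
    ∃ b ∈ B, ClubF b ν.ord.toZFSet ∧ dec ν b ⊆ C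

theorem forall_club {B : ZFSet.{u}} (hB : HB lam B) {ν : Cardinal.{u}}
    (hν : ν = lam.ord.cof ∨ Rg lam ν) {F : ZFSet.{u} → Prop} :
    (∀ b ∈ B, ClubF b ν.ord.toZFSet → ∃ γ ∈ b, F γ) ↔
      ∀ C : Set (W ν), IsClub C → ∃ t ∈ C, F (enc t) := by
  constructor
  · intro h C hC
    obtain ⟨b, hb, hb1, hb2⟩ := hB ν hν C hC
    obtain ⟨γ, hγ, hF⟩ := h b hb hb1
    obtain ⟨t, rfl⟩ := mem_L_iff.1 (hb1.1 γ hγ)
    exact ⟨t, hb2 hγ, hF⟩
  · intro h b _ hb1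
    obtain ⟨t, ht, hF⟩ := h _ hb1.isClub
    exact ⟨enc t, ht, hF⟩

theorem exists_club {B : ZFSet.{u}} (hB : HB lam B) {ν : Cardinal.{u}}
    (hν : ν = lam.ord.cof ∨ Rg lam ν) {F : ZFSet.{u} → Prop} :
    (∃ b ∈ B, ClubF b ν.ord.toZFSet ∧ ∀ γ ∈ b, F γ) ↔
      ∃ C : Set (W ν), IsClub C ∧ ∀ t ∈ C, F (enc t) := by
  constructor
  · rintro ⟨b, _, hb1, hF⟩
    exact ⟨_, hb1.isClub, fun t ht => hF _ ht⟩
  · rintro ⟨C, hC, hF⟩
    obtain ⟨b, hb, hb1, hb2⟩ := hB ν hν C hC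
    refine ⟨b, hb, hb1, fun γ hγ => ?_⟩
    obtain ⟨t, rfl⟩ := mem_L_iff.1 (hb1.1 γ hγ)
    exact hF t (hb2 hγ)

end Pool.Agent.Helper92.CS
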