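import Pool.Agent.Helper92.CS.Corr
import Pool.Agent.Helper92.SC.Homog

/-!
The colouring given by the canonical scale and the failure of the colouring properties.
-/

open Set Ordinal Cardinal

universe u

namespace Pool.Agent.Helper92.CS

open Pool.Agent.Helper98
open ZFSet (pair)

theorem exists_decoder {lam : Cardinal.{u}} {A : Type u} [Nonempty A] (h : #A ≤ lam) :
    ∃ d : TT lam → A, Function.Surjective d := by
  rw [← mk_ord_toType lam] at h
  obtain ⟨e⟩ := h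
  exact ⟨Function.invFun e, Function.invFun_surjective e.injective⟩

theorem empty_ne_one : (∅ : ZFSet.{u}) ≠ {∅} := by
  intro h
  have h1 : (∅ : ZFSet.{u}) ∈ ({∅} : ZFSet.{u}) := ZFSet.mem_singleton.2 rfl
  rw [← h] at h1
  exact ZFSet.notMem_empty _ h1

theorem lex_iff {T : Type u} [LinearOrder T] [WellFoundedLT T] (sa sb : T → Prop)
    (h : ∃ k, ¬ (sa k ↔ sb k)) (y c : ZFSet.{u})
    (hc1 : (∃ k, (∀ k' < k, (sa k' ↔ sb k')) ∧ ¬ sa k ∧ sb k) → c = {∅})
    (hc0 : ¬ (∃ k, (∀ k' < k, (sa k' ↔ sb k')) ∧ ¬ sa k ∧ sb k) → c = ∅) :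
    (∃ k, (∀ k' < k, (sa k' ↔ sb k')) ∧
      ((sa k ∧ ¬ sb k ∧ y = ∅) ∨ (¬ sa k ∧ sb k ∧ y = {∅}))) ↔ y = c := by
  obtain ⟨k0, hk0, hmin⟩ := (wellFounded_lt (α := T)).has_min {k | ¬ (sa k ↔ sb k)} h
  have hbelow : ∀ k' < k0, (sa k' ↔ sb k') := by
    intro k' hk'
    by_contra h1
    exact hmin k' h1 hk'
  have huniq : ∀ k, (∀ k' < k, (sa k' ↔ sb k')) → ¬ (sa k ↔ sb k) → k = k0 := by
    intro k h1 h2
    rcases lt_trichotomy k k0 with h3 | h3 | h3
    · exact (h2 (hbelow k h3)).elim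
    · exact h3
    · exact (hk0 (h1 k0 h3)).elim
  by_cases h1 : sa k0
  · have h2 : ¬ sb k0 := fun h2 => hk0 ⟨fun _ => h2, fun _ => h1⟩
    have h3 : c = ∅ := by
      apply hc0
      rintro ⟨k, h4, h5, h6⟩
      have h7 := huniq k h4 (fun h8 => h5 (h8.2 h6))
      rw [h7] at h5
      exact h5 h1
    rw [h3]
    constructor
    · rintro ⟨k, h4, h5⟩
      rcases h5 with ⟨_, _, h6⟩ | ⟨h5, h6, _⟩
      · exact h6
      · have h7 := huniq k h4 (fun h8 => h5 (h8.2 h6))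
        rw [h7] at h5
        exact (h5 h1).elim
    · intro h4
      exact ⟨k0, hbelow, Or.inl ⟨h1, h2, h4⟩⟩
  · have h2 : sb k0 := by
      by_contra h2
      exact hk0 ⟨fun h3 => (h1 h3).elim, fun h3 => (h2 h3).elim⟩
    have h3 : c = {∅} := hc1 ⟨k0, hbelow, h1, h2⟩
    rw [h3]
    constructor
    · rintro ⟨k, h4, h5⟩
      rcases h5 with ⟨h5, h6, _⟩ | ⟨_, _, h6⟩
      · have h7 := huniq k h4 (fun h8 => h6 (h8.1 h5))
        rw [h7] at h5
        exact (h1 h5).elim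
      · exact h6
    · intro h4
      exact ⟨k0, hbelow, Or.inr ⟨h1, h2, h4⟩⟩

variable {lam : Cardinal.{u}}

/-- the label set of the scale at `a` -/
def sC (g : Ordinal.{u} → Fn lam) (dE : TT lam → LB lam) (a : Ordinal.{u}) (t : TT lam) : Prop :=
  vl dE t = g a (ix dE t)

/-- the colour condition -/
def CC (g : Ordinal.{u} → Fn lam) (dE : TT lam → LB lam) (a b : Ordinal.{u}) (y : ZFSet.{u}) :
    Prop :=
  ∃ k : TT lam, (∀ k' < k, (sC g dE a k' ↔ sC g dE b k')) ∧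
    ((sC g dE a k ∧ ¬ sC g dE b k ∧ y = ∅) ∨ (¬ sC g dE a k ∧ sC g dE b k ∧ y = {∅}))

/-- a canonical scale -/
structure Scale (g : Ordinal.{u} → Fn lam) : Prop where
  step : ∀ α, α < (Order.succ lam).ord → Step g α (g α)
  prd : ∀ α, α < (Order.succ lam).ord → ∀ i, g α i < km lam i
  inc : ∀ α β, α < β → β < (Order.succ lam).ord → Lt (g α) (g β)

variable {g : Ordinal.{u} → Fn lam} {dE : TT lam → LB lam}

theorem colF_iff {G : ZFSet.{u}} {a b : Ordinal.{u}} (ha : Sec dE G a.toZFSet (g a))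
    (hb : Sec dE G b.toZFSet (g b)) (y : ZFSet.{u}) :
    ColF (par dE) G a.toZFSet b.toZFSet y ↔ CC g dE a b y := by
  rw [ColF, par_L, exists_mem_L, CC]
  refine exists_congr fun k => and_congr ?_ ?_
  · rw [forall_mem_enc]
    refine forall_congr' fun k' => imp_congr Iff.rfl ?_
    rw [ha k', hb k', sC, sC]
  · rw [ha k, hb k, sC, sC]

theorem Scale.mat_imp (hs : Sg lam) (hE : Function.Surjective dE) (hg : Scale g)
    {w B y : ZFSet.{u}} (hB : HB lam B) {a b : Ordinal.{u}} (hab : a ≤ b)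
    (hb : b < (Order.succ lam).ord)
    (H : MatF (par dE) w B a.toZFSet b.toZFSet y) : CC g dE a b y := by
  obtain ⟨ζ, _, G, _, H', _, Y, _, ⟨h1, h2⟩, h3, h4⟩ := H
  have hζ : ∀ c, c ≤ b → c.toZFSet ∈ ζ := by
    intro c hc
    rcases hc.eq_or_lt with h5 | h5
    · rw [h5]
      exact h1
    · exact h2 _ (Ordinal.toZFSet_mem_toZFSet_iff.2 h5)
  have key : ∀ c, c ≤ b → Sec dE G c.toZFSet (g c) := by
    intro c
    induction c using WellFoundedLT.induction with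
    | ind c ih =>
      intro hc
      have hcκ : c < (Order.succ lam).ord := hc.trans_lt hb
      obtain ⟨h5, h6⟩ := h3 _ (hζ c hc)
      obtain ⟨f, hf, hf'⟩ := (goodS_iff hs hE).1 h5
      have C : Ctx dE ⟨B, G, H', Y⟩ g c :=
        ⟨hs, hE, hB, fun ξ hξ => ih ξ hξ (hξ.le.trans hc), fun ξ hξ => hg.prd ξ (hξ.trans hcκ)⟩
      have h7 : Step g c f := C.step_of hf hf' h6
      have h8 : f = g c := h7.unique hs (fun ξ η h9 h10 => hg.inc ξ η h9 (h10.trans hcκ))
        (hg.step c hcκ)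
      rw [h8] at hf'
      exact hf'
  exact (colF_iff (key a hab) (key b le_rfl) y).1 h4

theorem Scale.mat_of (hs : Sg lam) (hE : Function.Surjective dE) (hg : Scale g)
    {b : Ordinal.{u}} (hb : b < (Order.succ lam).ord) :
    ∃ ζ G H Y : ZFSet.{u}, ∀ w B : ZFSet.{u}, HB lam B → ζ ∈ w → G ∈ w → H ∈ w → Y ∈ w →
      ∀ a, a ≤ b → ∀ y, CC g dE a b y → MatF (par dE) w B a.toZFSet b.toZFSet y := by
  have h1 : ∀ c : Ordinal.{u}, ∃ (h : Fn lam) (Yo : Ordinal.{u} → Ordinal.{u} → Prop),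
      c < (Order.succ lam).ord → (∀ i, h i < km lam i) ∧
      ((V1 c (fun (γ : Idx lam) η => η < c ∧ Yo γ.toOrd.1 η) ∧
        HY g (fun (γ : Idx lam) η => η < c ∧ Yo γ.toOrd.1 η) h ∧ S1 g c h (g c)) ∨
      ∃ ν, Rg lam ν ∧ ∃ y : W ν → Ordinal.{u}, (∀ γ η, η < c → (Yo γ.toOrd.1 η ↔ η = y γ)) ∧
        V2 c ν y ∧ S2 g ν y (g c)) := by
    intro c
    by_cases hc : c < (Order.succ lam).ord
    · obtain ⟨h, Yo, h2⟩ := exists_choice hs (fun ξ hξ => hg.prd ξ (hξ.trans hc)) (hg.step c hc)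
      exact ⟨h, Yo, fun _ => h2⟩
    · exact ⟨fun _ => 0, fun _ _ => True, fun h => (hc h).elim⟩
  choose h Yo hc using h1
  have hcof : lam.ord.cof ≤ lam := Ordinal.cof_ord_le lam
  refine ⟨(b + 1).toZFSet, relO (b + 1) (fun t ξ => vl dE t = g ξ (ix dE t)),
    relO (b + 1) (fun t ξ => vl dE t = h ξ (ix dE t)),
    relT lam (b + 1) (fun c η a => Yo a c η), ?_⟩
  intro w B hB hw1 hw2 hw3 hw4 a hab y hy
  have hG : ∀ c, c ≤ b → Sec dE (relO (b + 1) (fun t ξ => vl dE t = g ξ (ix dE t))) c.toZFSet (g c) :=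
    fun c hc t => pair_mem_relO (Order.lt_add_one_iff.2 hc)
  refine ⟨_, hw1, _, hw2, _, hw3, _, hw4, ⟨?_, ?_⟩, ?_, (colF_iff (hG a hab) (hG b le_rfl) y).2 hy⟩
  · exact Ordinal.toZFSet_mem_toZFSet_iff.2 (lt_add_one b)
  · intro x hx
    obtain ⟨c, hcb, rfl⟩ := Ordinal.mem_toZFSet_iff.1 hx
    exact Ordinal.toZFSet_mem_toZFSet_iff.2 (hcb.trans (lt_add_one b))
  · intro x hx
    obtain ⟨c, hcb, rfl⟩ := Ordinal.mem_toZFSet_iff.1 hx
    have hcb' : c ≤ b := Order.lt_add_one_iff.1 hcb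
    have hcκ : c < (Order.succ lam).ord := hcb'.trans_lt hb
    obtain ⟨h3, h4⟩ := hc c hcκ
    have hH : Sec dE (relO (b + 1) (fun t ξ => vl dE t = h ξ (ix dE t))) c.toZFSet (h c) :=
      fun t => pair_mem_relO hcb
    refine ⟨(goodS_iff hs hE).2 ⟨g c, hg.prd c hcκ, hG c hcb'⟩, ?_⟩
    have C : Ctx dE ⟨B, relO (b + 1) (fun t ξ => vl dE t = g ξ (ix dE t)),
        relO (b + 1) (fun t ξ => vl dE t = h ξ (ix dE t)),
        relT lam (b + 1) (fun c η a => Yo a c η)⟩ g c :=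
      ⟨hs, hE, hB, fun ξ hξ => hG ξ (hξ.le.trans hcb'), fun ξ hξ => hg.prd ξ (hξ.trans hcκ)⟩
    rcases h4 with ⟨h5, h6, h7⟩ | ⟨ν, hν, y', h5, h6, h7⟩
    · left
      have h8 : (fun (γ : Idx lam) (η : Ordinal.{u}) => η < c ∧
          Yr (⟨B, relO (b + 1) (fun t ξ => vl dE t = g ξ (ix dE t)),
            relO (b + 1) (fun t ξ => vl dE t = h ξ (ix dE t)),
            relT lam (b + 1) (fun c η a => Yo a c η)⟩ : Wit.{u}) c γ η) =
          (fun (γ : Idx lam) (η : Ordinal.{u}) => η < c ∧ Yo c γ.toOrd.1 η) := by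
        funext γ η
        apply propext
        refine and_congr_right fun h9 => ?_
        have h10 := pair_mem_relT (P := fun c η a => Yo a c η) (γ := γ) hcof (h9.trans hcb) hcb
        exact h10
      refine ⟨v1F_iff.2 ?_, (goodS_iff hs hE).2 ⟨h c, h3, hH⟩, (C.hyF_iff h3 hH).2 ?_,
        (C.s1F_iff h3 hH (hg.prd c hcκ) (hG c hcb')).2 h7⟩
      · rw [h8]
        exact h5
      · rw [h8]
        exact h6
    · right
      have h8 : YF (⟨B, relO (b + 1) (fun t ξ => vl dE t = g ξ (ix dE t)),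
            relO (b + 1) (fun t ξ => vl dE t = h ξ (ix dE t)),
            relT lam (b + 1) (fun c η a => Yo a c η)⟩ : Wit.{u}) c y' := by
        intro γ η hη
        refine Iff.trans ?_ (h5 γ η hη)
        have h10 := pair_mem_relT (P := fun c η a => Yo a c η) (γ := γ) hν.2.2.le
          (hη.trans hcb) hcb
        exact h10
      exact ⟨_, mem_par_R.2 ⟨ν, hν, rfl⟩, v2F_iff.2 ⟨y', h8, h6⟩,
        (C.s2F_iff hν h8 h6 (hg.prd c hcκ) (hG c hcb')).2 h7⟩

theorem Scale.sep (hs : Sg lam) (hE : Function.Surjective dE) (hg : Scale g) {a b : Ordinal.{u}}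
    (hab : a < b) (hb : b < (Order.succ lam).ord) : ∃ k, ¬ (sC g dE a k ↔ sC g dE b k) := by
  have hne := hs.nonempty
  obtain ⟨i, hi⟩ := (hg.inc a b hab hb).exists
  obtain ⟨t, ht1, ht2⟩ := exists_label hE (hg.prd a (hab.trans hb) i)
  refine ⟨t, fun h => ?_⟩
  have h1 : sC g dE a t := by
    rw [sC, ht1]
    exact ht2
  have h2 : vl dE t = g b (ix dE t) := h.1 h1
  rw [ht1, ht2] at h2
  exact hi.ne h2

/-- a `Σₙ` definition of the colour yields the failure of the colouring property -/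
theorem Scale.failure (hs : Sg lam) (hE : Function.Surjective dE) (hg : Scale g) {n m : ℕ}
    (z : Fin m → ZFSet.{u}) (hz : ∀ i, InH (Order.succ lam) (z i))
    (hφ : ∃ φ : Fml (m + 4), φ.IsSigma n ∧ ∀ α β : Ordinal.{u}, α < β →
      β < (Order.succ lam).ord → ∀ y : ZFSet.{u},
      (φ.Sat (Fin.cons α.toZFSet (Fin.cons β.toZFSet (Fin.cons y
        (Fin.cons (Order.succ lam).ord.toZFSet z)))) ↔ CC g dE α β y)) :
    ¬ HasBoldfaceColouringProperty n (Order.succ lam) := by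
  classical
  intro hB
  have hlam : ℵ₀ ≤ lam := hs.sing.aleph0_le
  obtain ⟨s, hs'⟩ : ∃ s : Ordinal.{u} → TT lam → Prop, s = sC g dE := ⟨_, rfl⟩
  obtain ⟨c, hc1, hc0⟩ : ∃ c : Ordinal.{u} → Ordinal.{u} → ZFSet.{u},
      (∀ a b, (∃ k, (∀ k' < k, (s a k' ↔ s b k')) ∧ ¬ s a k ∧ s b k) → c a b = {∅}) ∧
      (∀ a b, ¬ (∃ k, (∀ k' < k, (s a k' ↔ s b k')) ∧ ¬ s a k ∧ s b k) → c a b = ∅) := by
    refine ⟨fun a b => if (∃ k, (∀ k' < k, (s a k' ↔ s b k')) ∧ ¬ s a k ∧ s b k)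
      then {∅} else ∅, ?_, ?_⟩
    · intro a b h
      exact if_pos h
    · intro a b h
      exact if_neg h
  have hpart : IsSigmaPartition n (Order.succ lam) z c := by
    obtain ⟨φ, hφ1, hφ2⟩ := hφ
    refine ⟨φ, hφ1, ?_⟩
    intro a b hab hb y
    rw [hφ2 a b hab hb]
    have h3 := lex_iff (s a) (s b) (by rw [hs']; exact hg.sep hs hE hab hb) y (c a b)
      (hc1 a b) (hc0 a b)
    rw [hs'] at h3
    exact h3
  obtain ⟨H, hH1, hH2, i, hH3⟩ := hB _ z hz c hpart (by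
    intro a b _ _
    by_cases h : ∃ k, (∀ k' < k, (s a k' ↔ s b k')) ∧ ¬ s a k ∧ s b k
    · exact Or.inr (hc1 a b h)
    · exact Or.inl (hc0 a b h))
  have hunb : ∀ b, b < (Order.succ lam).ord → ∃ a ∈ H, b < a ∧ a < (Order.succ lam).ord := by
    intro b hb
    by_contra hcon
    push Not at hcon
    have h3 : H ⊆ Set.Iic b := by
      intro a ha
      by_contra h4
      exact (hcon a ha (not_le.1 h4)).not_gt (hH1 ha)
    have h4 := Cardinal.mk_le_mk_of_subset h3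
    rw [hH2] at h4
    have h5 : (Set.Iic b) = Set.Iio (b + 1) := by
      ext x
      simp [Order.lt_add_one_iff]
    rw [h5, Cardinal.mk_Iio_ordinal, Cardinal.lift_le] at h4
    have h6 : (b + 1).card < Order.succ lam := by
      rw [← lt_ord]
      exact (isSuccLimit_ord (isRegular_succ hlam).aleph0_le).add_one_lt hb
    exact h4.not_gt h6
  refine Pool.Agent.Helper92.SC.no_homogeneous hlam (T := TT lam) (mk_ord_toType lam).le s H
    hunb ?_ ?_
  · intro a ha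
    refine ⟨a, ha, ?_⟩
    intro b hab hb
    rw [hs']
    exact hg.sep hs hE hab hb
  · by_cases hi : i = {∅}
    · left
      intro a ha b hb hab _
      by_contra hcon
      have h3 := hH3 a ha b hb hab
      rw [hc0 a b hcon, hi] at h3
      exact empty_ne_one h3
    · right
      intro a ha b hb hab _ hcon
      have h3 := hH3 a ha b hb hab
      rw [hc1 a b hcon] at h3
      exact hi h3.symm

theorem exists_scale' (hs : Sg lam) : ∃ g : Ordinal.{u} → Fn lam, Scale g := by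
  obtain ⟨g, h1, h2, h3⟩ := exists_scale hs
  exact ⟨g, h1, h2, h3⟩

theorem exists_dE (hs : Sg lam) : ∃ dE : TT lam → LB lam, Function.Surjective dE := by
  have hne := hs.nonempty
  obtain ⟨i⟩ : Nonempty (Idx lam) := inferInstance
  have h1 : Nonempty (km lam i).ToType := by
    rw [nonempty_toType_iff]
    exact (hs.reg_km i).ord_pos.ne'
  have n1 : Nonempty (LB lam) := ⟨⟨i, h1.some⟩⟩
  exact exists_decoder (mk_LB_le hs)

end Pool.Agent.Helper92.CS
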