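import Pool.Agent.Helper92.CS.Base

/-!
Club guessing at points of cofinality `τ` in a regular cardinal above `τ⁺`.
-/

open Set Ordinal Cardinal

universe u

namespace Pool.Agent.Helper92.CS

open Pool.Agent.Helper98

variable {τ σ : Cardinal.{u}}

/-- `s` is the supremum of the strictly increasing sequence `c` of length `τ` -/
def IsSeq (c : W τ → W σ) (s : W σ) : Prop :=
  (∀ j j', j < j' → c j < c j') ∧ (∀ j, c j < s) ∧ ∀ x < s, ∃ j, x < c j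

/-- `s` is a limit of elements of `E` -/
def LimOf (E : Set (W σ)) (s : W σ) : Prop := ∀ x < s, ∃ e ∈ E, x < e ∧ e < s

theorem exists_seq_in (hτ : τ.IsRegular) (hσ : σ.IsRegular) (hτσ : τ < σ) {E : Set (W σ)}
    (hE : IsCofinal E) : ∃ (c : W τ → W σ) (s : W σ), IsSeq c s ∧ ∀ j, c j ∈ E := by
  classical
  have hne := W_nonempty hσ
  obtain ⟨c, hc⟩ := exists_rec (J := W τ) (A := W σ)
    (fun j f a => a ∈ E ∧ ∀ j' < j, f j' < a)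
    (by
      rintro j f f' a h1 ⟨h2, h3⟩
      exact ⟨h2, fun j' hj' => by rw [← h1 j' hj']; exact h3 j' hj'⟩)
    (by
      intro j f _
      obtain ⟨b, hb⟩ := W_bdd hσ (A := Iio j) ((W_Iio j).trans hτσ) (fun j' => f j'.1)
      obtain ⟨e, he, hbe⟩ := hE b
      exact ⟨e, he, fun j' hj' => (hb ⟨j', hj'⟩).trans_le hbe⟩)
  obtain ⟨b, hb⟩ := W_bdd hσ (A := W τ) (by rw [mk_W]; exact hτσ) c
  obtain ⟨s, hs1, hs2⟩ := (wellFounded_lt (α := W σ)).has_min {s | ∀ j, c j < s} ⟨b, hb⟩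
  refine ⟨c, s, ⟨fun j j' h => (hc j').2 j h, hs1, ?_⟩, fun j => (hc j).1⟩
  intro x hx
  by_contra hcon
  push Not at hcon
  refine hs2 x (fun j => ?_) hx
  obtain ⟨j', hj'⟩ := W_above hτ j
  exact ((hc j').2 j hj').trans_le (hcon j')

/-- a greatest element of `E` below `β` -/
theorem exists_greatest {E : Set (W σ)} (hE : IsClub E) {β : W σ} (h : ∃ z ∈ E, z ≤ β) :
    ∃ x, IsGreatest (E ∩ Iic β) x := by
  obtain ⟨z, hz, hzβ⟩ := h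
  obtain ⟨x, hx1, hx2⟩ := (wellFounded_lt (α := W σ)).has_min (upperBounds (E ∩ Iic β))
    ⟨β, fun y hy => hy.2⟩
  have hlub : IsLUB (E ∩ Iic β) x := ⟨hx1, fun y hy => not_lt.1 (hx2 y hy)⟩
  refine ⟨x, ⟨hE.isLUB_mem inter_subset_left ⟨z, hz, hzβ⟩ hlub, ?_⟩, hx1⟩
  exact hlub.2 (fun y hy => hy.2)

/-- the projection of `c` to `E` -/
def drop (E : Set (W σ)) (c : W τ → W σ) : Set (W σ) := {x | ∃ j, IsGreatest (E ∩ Iic (c j)) x}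

theorem drop_cofinal {E : Set (W σ)} (hE : IsClub E) {c : W τ → W σ} {s : W σ} (hc : IsSeq c s)
    (hs : LimOf E s) : ∀ x < s, ∃ y ∈ drop E c, x < y := by
  intro x hx
  obtain ⟨e, he, hxe, hes⟩ := hs x hx
  obtain ⟨j, hj⟩ := hc.2.2 e hes
  obtain ⟨y, hy⟩ := exists_greatest hE ⟨e, he, hj.le⟩
  exact ⟨y, ⟨j, hy⟩, hxe.trans_le (hy.2 ⟨he, hj.le⟩)⟩

theorem drop_lt {E : Set (W σ)} {c : W τ → W σ} {s : W σ} (hc : IsSeq c s) {x : W σ}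
    (hx : x ∈ drop E c) : x < s := by
  obtain ⟨j, hj⟩ := hx
  exact (hj.1.2 : x ≤ c j).trans_lt (hc.2.1 j)

/-- stabilisation of decreasing families of sets -/
theorem stabilise {Z : Type u} [LinearOrder Z] [Nonempty Z] {E : Z → Set (W σ)}
    (hcl : ∀ ζ, IsClub (E ζ)) (hdec : ∀ ζ ζ', ζ < ζ' → E ζ' ⊆ E ζ) (β : W σ) :
    ∃ ζ, ∀ ζ1, ζ ≤ ζ1 → ∀ x, IsGreatest (E ζ1 ∩ Iic β) x → ∀ ζ2, ζ1 ≤ ζ2 →
      IsGreatest (E ζ2 ∩ Iic β) x := by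
  have hdec' : ∀ ζ ζ', ζ ≤ ζ' → E ζ' ⊆ E ζ := by
    intro ζ ζ' h
    rcases h.eq_or_lt with h | h
    · rw [h]
    · exact hdec _ _ h
  by_cases hemp : ∃ ζ, ¬ ∃ z ∈ E ζ, z ≤ β
  · obtain ⟨ζ, hζ⟩ := hemp
    refine ⟨ζ, fun ζ1 h1 x hx => ?_⟩
    exact (hζ ⟨x, hdec' _ _ h1 hx.1.1, hx.1.2⟩).elim
  · push Not at hemp
    have h1 : ∀ ζ, ∃ x, IsGreatest (E ζ ∩ Iic β) x := fun ζ => exists_greatest (hcl ζ) (hemp ζ)
    choose X hX using h1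
    obtain ⟨_, ⟨ζ, rfl⟩, hmin⟩ := (wellFounded_lt (α := W σ)).has_min (range X) (range_nonempty X)
    have hmono : ∀ ζ1 ζ2, ζ1 ≤ ζ2 → X ζ2 ≤ X ζ1 := by
      intro ζ1 ζ2 h
      exact (hX ζ1).2 ⟨hdec' _ _ h (hX ζ2).1.1, (hX ζ2).1.2⟩
    have heq : ∀ ζ1, ζ ≤ ζ1 → X ζ1 = X ζ := by
      intro ζ1 h
      exact le_antisymm (hmono _ _ h) (not_lt.1 (hmin _ ⟨ζ1, rfl⟩))
    refine ⟨ζ, fun ζ1 h1 x hx ζ2 h2 => ?_⟩
    have h3 : x = X ζ1 := hx.unique (hX ζ1)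
    rw [h3, heq ζ1 h1, ← heq ζ2 (h1.trans h2)]
    exact hX ζ2

/-- Club guessing. -/
theorem club_guess (hτ : τ.IsRegular) (hσ : σ.IsRegular) (hτσ : Order.succ τ < σ) (h0 : ℵ₀ < σ) :
    ∃ C : W σ → Set (W σ), ∀ D : Set (W σ), IsClub D → ∃ s, C s ⊆ D ∧ τ ≤ #(C s) ∧
      ∀ x ∈ C s, ∃ y ∈ C s, x < y := by
  classical
  have hτσ' : τ < σ := (Order.lt_succ τ).trans hτσ
  have hτ' : (Order.succ τ).IsRegular := isRegular_succ hτ.aleph0_le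
  -- the chosen sequences
  have h1 : ∀ s : W σ, ∃ c : W τ → W σ, (∃ c' : W τ → W σ, IsSeq c' s) → IsSeq c s := by
    intro s
    by_cases h : ∃ c' : W τ → W σ, IsSeq c' s
    · obtain ⟨c, hc⟩ := h
      exact ⟨c, fun _ => hc⟩
    · exact ⟨fun _ => s, fun h' => (h h').elim⟩
  choose c hc using h1
  -- the good club
  have key : ∃ E : Set (W σ), IsClub E ∧ ∀ D : Set (W σ), IsClub D →
      ∃ s, IsSeq (c s) s ∧ LimOf E s ∧ drop E (c s) ⊆ D := by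
    by_contra hcon
    push Not at hcon
    have h2 : ∀ E : Set (W σ), ∃ D : Set (W σ), IsClub D ∧ (IsClub E → ∀ s, IsSeq (c s) s →
        LimOf E s → ¬ drop E (c s) ⊆ D) := by
      intro E
      by_cases hE : IsClub E
      · obtain ⟨D, hD1, hD2⟩ := hcon E hE
        exact ⟨D, hD1, fun _ => hD2⟩
      · exact ⟨Set.univ, IsClub.univ, fun h => (hE h).elim⟩
    choose D hD1 hD2 using h2
    obtain ⟨E, hE⟩ := exists_rec (J := W (Order.succ τ)) (A := Set (W σ))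
      (fun ζ f A => A = ⋂ ζ' : Iio ζ, (f ζ'.1 ∩ D (f ζ'.1)))
      (by
        rintro ζ f f' A h3 rfl
        refine iInter_congr fun ζ' => ?_
        rw [h3 ζ'.1 ζ'.2])
      (by
        intro ζ f _
        exact ⟨_, rfl⟩)
    have hcl : ∀ ζ, IsClub (E ζ) := by
      intro ζ
      induction ζ using WellFoundedLT.induction with
      | ind ζ ih =>
        rw [hE ζ]
        refine isClub_iInter hσ h0 ((W_Iio ζ).trans hτσ) ?_
        intro ζ'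
        exact IsClub.inter (W_cof_ne hσ h0) (ih ζ'.1 ζ'.2) (hD1 _)
    have hsub : ∀ ζ ζ', ζ < ζ' → E ζ' ⊆ E ζ ∩ D (E ζ) := by
      intro ζ ζ' h x hx
      rw [hE ζ', mem_iInter] at hx
      exact hx ⟨ζ, h⟩
    have hEs : IsClub (⋂ ζ, E ζ) := isClub_iInter hσ h0 (by rw [mk_W]; exact hτσ) hcl
    obtain ⟨c0, s, hc0, hc0E⟩ := exists_seq_in hτ hσ hτσ' hEs.isCofinal
    have hcs : IsSeq (c s) s := hc s ⟨c0, hc0⟩
    have hlim : ∀ ζ, LimOf (E ζ) s := by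
      intro ζ x hx
      obtain ⟨j, hj⟩ := hc0.2.2 x hx
      exact ⟨c0 j, mem_iInter.1 (hc0E j) ζ, hj, hc0.2.1 j⟩
    have hneZ : Nonempty (W (Order.succ τ)) := W_nonempty hτ'
    have h3 : ∀ j : W τ, ∃ ζ : W (Order.succ τ), ∀ ζ1, ζ ≤ ζ1 → ∀ x,
        IsGreatest (E ζ1 ∩ Iic (c s j)) x → ∀ ζ2, ζ1 ≤ ζ2 →
        IsGreatest (E ζ2 ∩ Iic (c s j)) x := fun j =>
      stabilise hcl (fun ζ ζ' h => (hsub ζ ζ' h).trans inter_subset_left) (c s j)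
    choose Z hZ using h3
    obtain ⟨ζ, hζ⟩ := W_bdd hτ' (A := W τ) (by rw [mk_W]; exact Order.lt_succ τ) Z
    obtain ⟨ζ', hζ'⟩ := W_above hτ' ζ
    refine hD2 (E ζ) (hcl ζ) s hcs (hlim ζ) ?_
    rintro x ⟨j, hj⟩
    have h4 := hZ j ζ (hζ j).le x hj ζ' hζ'.le
    exact (hsub ζ ζ' hζ' h4.1.1).2
  obtain ⟨E, hE, hE2⟩ := key
  refine ⟨fun s => drop E (c s), fun D hD => ?_⟩
  obtain ⟨s, hs1, hs2, hs3⟩ := hE2 D hD
  refine ⟨s, hs3, ?_, ?_⟩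
  · by_contra hcon
    rw [not_le] at hcon
    have h2 : ∀ x : drop E (c s), ∃ j, x.1 < c s j := fun x => hs1.2.2 _ (drop_lt hs1 x.2)
    choose J hJ using h2
    obtain ⟨b, hb⟩ := W_bdd hτ hcon J
    obtain ⟨y, hy, hy2⟩ := drop_cofinal hE hs1 hs2 (c s b) (hs1.2.1 b)
    have h3 := (hJ ⟨y, hy⟩).trans (hs1.1 _ _ (hb ⟨y, hy⟩))
    exact (h3.trans hy2).false
  · intro x hx
    exact drop_cofinal hE hs1 hs2 x (drop_lt hs1 hx)

end Pool.Agent.Helper92.CS
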