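import Pool.Agent.Helper92.CS.Step
import Pool.Agent.Helper92.CS.Guess

/-!
Large sets of indices contain large subsets on which the scale is eventually pointwise increasing.
-/

open Set Ordinal Cardinal

universe u

namespace Pool.Agent.Helper92.CS

open Pool.Agent.Helper98

variable {lam : Cardinal.{u}} {g : Ordinal.{u} → Fn lam} {α : Ordinal.{u}}

/-- the recursion step holds below `α` -/
def Good (g : Ordinal.{u} → Fn lam) (α : Ordinal.{u}) : Prop := ∀ ξ, ξ < α → Step g ξ (g ξ)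

theorem exists_enum {ρ : Cardinal.{u}} {X : Set Ordinal.{u}}
    (hX : Cardinal.lift.{u + 1} ρ ≤ #X) :
    ∃ x : W ρ → Ordinal.{u}, (∀ b b', b < b' → x b < x b') ∧ ∀ b, x b ∈ X := by
  have h1 : Ordinal.lift.{u + 1} (Ordinal.type ((· < ·) : W ρ → W ρ → Prop)) ≤
      Ordinal.type ((· < ·) : X → X → Prop) := by
    rw [Ordinal.type_toType, Cardinal.lift_ord]
    exact (Cardinal.ord_le_ord.2 hX).trans (Cardinal.ord_le_type _)
  have h2 : Ordinal.lift.{u + 1} (Ordinal.type ((· < ·) : W ρ → W ρ → Prop)) ≤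
      Ordinal.lift.{u} (Ordinal.type ((· < ·) : X → X → Prop)) := by
    refine h1.trans ?_
    rw [Ordinal.lift_id'.{u, u + 1}]
  obtain ⟨f⟩ := (Ordinal.lift_type_le.{u, u + 1, 0}).1 h2
  refine ⟨fun b => (f b).1, fun b b' h => ?_, fun b => (f b).2⟩
  exact f.map_rel_iff.2 h

/-- Lemma G -/
theorem lemG (hs : Sg lam) (hI : Inc g α) (hG : Good g α) {τ : Cardinal.{u}} (hτ : τ.IsRegular)
    (hμτ : lam.ord.cof < τ) (hτl : Order.succ (Order.succ (Order.succ τ)) < lam)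
    {X : Set Ordinal.{u}} (hX : ∀ ξ ∈ X, ξ < α)
    (hXc : Cardinal.lift.{u + 1} (Order.succ (Order.succ (Order.succ τ))) ≤ #X) :
    ∃ (T : Set (W (Order.succ (Order.succ τ)))) (y : W (Order.succ (Order.succ τ)) → Ordinal.{u})
      (n : Idx lam), τ ≤ #T ∧ (∀ j ∈ T, y j ∈ X) ∧
      ∀ j ∈ T, ∀ j' ∈ T, j < j' → ∀ i, n ≤ i → g (y j) i < g (y j') i := by
  classical
  have hne := hs.nonempty
  obtain ⟨σ, hσd⟩ : ∃ σ, σ = Order.succ (Order.succ τ) := ⟨_, rfl⟩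
  rw [← hσd] at hXc hτl ⊢
  obtain ⟨ρ, hρd⟩ : ∃ ρ, ρ = Order.succ σ := ⟨_, rfl⟩
  rw [← hρd] at hXc hτl
  have hτ1 : (Order.succ τ).IsRegular := isRegular_succ hτ.aleph0_le
  have hσ : σ.IsRegular := by rw [hσd]; exact isRegular_succ hτ1.aleph0_le
  have hρ : ρ.IsRegular := by rw [hρd]; exact isRegular_succ hσ.aleph0_le
  have hσρ : σ < ρ := by rw [hρd]; exact Order.lt_succ _
  have hτσ : Order.succ τ < σ := by rw [hσd]; exact Order.lt_succ _
  have hτσ' : τ < σ := (Order.lt_succ _).trans hτσ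
  have h0 : ℵ₀ < σ := (hs.unc.trans hμτ).trans hτσ'
  have hRg : Rg lam σ := ⟨hσ, hμτ.trans hτσ', hσρ.trans hτl⟩
  obtain ⟨x, hx1, hx2⟩ := exists_enum hXc
  have hx1' : ∀ b b', b ≤ b' → x b ≤ x b' := by
    intro b b' h
    rcases h.eq_or_lt with h | h
    · rw [h]
    · exact (hx1 _ _ h).le
  have hxα : ∀ b, x b < α := fun b => hX _ (hx2 b)
  have hmono : ∀ ξ η, ξ ≤ η → η < α → Le (g ξ) (g η) := by
    intro ξ η h h'
    rcases h.eq_or_lt with h | h
    · rw [h]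
      exact Le.refl _
    · exact (hI ξ η h h').le
  obtain ⟨C, hC⟩ := club_guess hτ hσ hτσ h0
  obtain ⟨dl, hdl⟩ : ∃ dl : (W σ → W ρ) → W σ → Ordinal.{u},
      ∀ f j, dl f j = ⨆ j' : Iio j, (x (f j'.1) + 1) := ⟨_, fun _ _ => rfl⟩
  obtain ⟨P, hP⟩ : ∃ P : W σ → W σ → (W σ → W ρ) → Ordinal.{u} → Prop,
      ∀ s j f b, P s j f b ↔ ∀ᶠ i in Filter.atTop, ∀ j' ∈ C s, j' ≤ j → g (dl f j') i ≤ g b i :=
    ⟨_, fun _ _ _ _ => Iff.rfl⟩
  have hPmono : ∀ s j f b b', b ≤ b' → b' < α → P s j f b → P s j f b' := by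
    intro s j f b b' h h' H
    rw [hP] at H ⊢
    filter_upwards [H, hmono b b' h h'] with i h1 h2 j' h3 h4
    exact (h1 j' h3 h4).trans h2
  have hdlloc : ∀ f f' j, (∀ j' < j, f j' = f' j') → dl f j = dl f' j := by
    intro f f' j h
    rw [hdl, hdl]
    refine iSup_congr fun j' => ?_
    rw [h j'.1 j'.2]
  have hPloc : ∀ s j f f' b, (∀ j' < j, f j' = f' j') → (P s j f b ↔ P s j f' b) := by
    intro s j f f' b h
    rw [hP, hP]
    refine Filter.eventually_congr (Filter.Eventually.of_forall fun i => ?_)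
    refine forall_congr' fun j' => forall_congr' fun h1 => forall_congr' fun h2 => ?_
    rw [hdlloc f f' j' fun j'' h3 => h j'' (h3.trans_le h2)]
  have hneρ := W_nonempty hρ
  obtain ⟨f, hf⟩ := exists_rec (J := W σ) (A := W ρ)
    (fun j f a => (∀ j' < j, f j' < a) ∧ ∀ s : W σ, (∃ b, P s j f (x b)) → P s j f (x a))
    (by
      rintro j f f' a h1 ⟨h2, h3⟩
      refine ⟨fun j' hj' => by rw [← h1 j' hj']; exact h2 j' hj', fun s hs => ?_⟩
      obtain ⟨b, hb⟩ := hs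
      exact (hPloc s j f f' _ h1).1 (h3 s ⟨b, (hPloc s j f f' _ h1).2 hb⟩))
    (by
      intro j f _
      have h1 : ∀ s : W σ, ∃ b, (∃ b', P s j f (x b')) → P s j f (x b) := by
        intro s
        by_cases h : ∃ b', P s j f (x b')
        · obtain ⟨b, hb⟩ := h
          exact ⟨b, fun _ => hb⟩
        · exact ⟨hneρ.some, fun h' => (h h').elim⟩
      choose B hB using h1
      obtain ⟨b1, hb1⟩ := W_bdd hρ (A := W σ) (by rw [mk_W]; exact hσρ) B
      obtain ⟨b2, hb2⟩ := W_bdd hρ (A := Iio j) ((W_Iio j).trans hσρ) (fun j' => f j'.1)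
      refine ⟨max b1 b2, fun j' hj' => (hb2 ⟨j', hj'⟩).trans_le (le_max_right _ _), ?_⟩
      intro s h
      exact hPmono s j f _ _ (hx1' _ _ ((hb1 s).le.trans (le_max_left _ _))) (hxα _) (hB s h))
  obtain ⟨y, hy⟩ : ∃ y : W σ → Ordinal.{u}, ∀ j, y j = x (f j) := ⟨_, fun _ => rfl⟩
  have hdl' : ∀ j, dl f j = ⨆ j' : Iio j, (y j'.1 + 1) := by
    intro j
    rw [hdl]
    exact iSup_congr fun j' => by rw [hy]
  have hyα : ∀ j, y j < α := fun j => by rw [hy]; exact hxα _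
  have hyinc : ∀ j j', j < j' → y j < y j' := by
    intro j j' h
    rw [hy, hy]
    exact hx1 _ _ ((hf j').1 j h)
  have hdly : ∀ j, dl f j ≤ y j := by
    intro j
    rw [hdl']
    exact Ordinal.iSup_le fun j' => Order.add_one_le_of_lt (hyinc _ _ j'.2)
  have hydl : ∀ j j', j < j' → y j < dl f j' := by
    intro j j' h
    rw [hdl']
    exact (lt_add_one _).trans_le (Ordinal.le_iSup (fun j'' : Iio j' => (y j''.1 + 1)) ⟨j, h⟩)
  obtain ⟨b, hb⟩ := W_bdd hρ (A := W σ) (by rw [mk_W]; exact hσρ) f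
  obtain ⟨δ, hδ⟩ : ∃ δ : Ordinal.{u}, δ = ⨆ j : W σ, (y j + 1) := ⟨_, rfl⟩
  have hyδ : ∀ j, y j < δ := by
    intro j
    rw [hδ]
    exact (lt_add_one _).trans_le (Ordinal.le_iSup (fun j => y j + 1) j)
  have hδb : δ ≤ x b := by
    rw [hδ]
    refine Ordinal.iSup_le fun j => Order.add_one_le_of_lt ?_
    rw [hy]
    exact hx1 _ _ (hb j)
  have hδα : δ < α := hδb.trans_lt (hxα b)
  have hV2 : V2 δ σ (dl f) := by
    refine ⟨?_, fun j => (hdly j).trans_lt (hyδ j), ?_, ?_⟩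
    · intro j j' h
      rw [hdl']
      refine Ordinal.iSup_le fun j'' => Order.add_one_le_of_lt ?_
      exact hydl _ _ (lt_of_lt_of_le j''.2 h)
    · intro ξ hξ
      rw [hδ] at hξ
      obtain ⟨j, hj⟩ := Ordinal.lt_iSup_iff.1 hξ
      obtain ⟨j', hj'⟩ := W_above hσ j
      exact ⟨j', (Order.lt_add_one_iff.1 hj).trans_lt (hydl j j' hj')⟩
    · intro γ hγ ξ hξ
      rw [hdl'] at hξ
      obtain ⟨j, hj⟩ := Ordinal.lt_iSup_iff.1 hξ
      obtain ⟨γ', h1, h2⟩ := hγ.2 j.1 j.2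
      exact ⟨γ', h2, (Order.lt_add_one_iff.1 hj).trans_lt (hydl _ _ h1)⟩
  have hcl : ∀ i : Idx lam, ∃ D : Set (W σ), IsClub D ∧
      (σ ≤ cm lam i → ∀ γ ∈ D, g (dl f γ) i < g δ i) := by
    intro i
    by_cases hi : σ ≤ cm lam i
    · rcases hG δ hδα with ⟨Y, h, h1, h2, h3⟩ | ⟨ν, h1, y', h2, h3⟩
      · exact (h1.no_V2 hs hRg hV2).elim
      · have h4 : ν = σ := h2.card_eq h1.1 hσ hV2
        subst h4
        obtain ⟨E, hE, hE'⟩ := h2.club_eq h1.1 h0 hV2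
        obtain ⟨D, hD, hD'⟩ := ((h3 i).1 hi).1.congr h1.1 h0 hE hE'
        exact ⟨D, hD, fun _ => hD'⟩
    · exact ⟨Set.univ, IsClub.univ, fun h => (hi h).elim⟩
  choose D hD hD' using hcl
  obtain ⟨s, hs1, hs2, hs3⟩ := hC (⋂ i, D i) (isClub_iInter hσ h0 (by
    rw [mk_Idx]; exact hμτ.trans hτσ') hD)
  have hPs : ∀ j, P s j f (y j) := by
    intro j
    rw [hy]
    refine (hf j).2 s ⟨b, ?_⟩
    rw [hP]
    filter_upwards [hs.cm_ev (hσρ.trans hτl), hmono δ (x b) hδb (hxα b)] with i h1 h2 j' h3 _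
    exact ((hD' i h1 j' (mem_iInter.1 (hs1 h3) i)).le).trans h2
  -- next elements
  have hnx : ∀ j : C s, ∃ j' : C s, j.1 < j'.1 ∧ ∀ j'' ∈ C s, j.1 < j'' → j'.1 ≤ j'' := by
    intro j
    obtain ⟨z, hz, hjz⟩ := hs3 j.1 j.2
    obtain ⟨m, ⟨hm1, hm2⟩, hm3⟩ := (wellFounded_lt (α := W σ)).has_min {z | z ∈ C s ∧ j.1 < z}
      ⟨z, hz, hjz⟩
    exact ⟨⟨m, hm1⟩, hm2, fun j'' h1 h2 => not_lt.1 (hm3 j'' ⟨h1, h2⟩)⟩
  choose nx hnx1 hnx2 using hnx
  have hN : ∀ j : C s, ∃ n, ∀ i, n ≤ i → (∀ j' ∈ C s, j' ≤ j.1 → g (dl f j') i ≤ g (y j.1) i) ∧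
      g (y j.1) i < g (dl f (nx j).1) i := by
    intro j
    have h1 := (hP s j.1 f (y j.1)).1 (hPs j.1)
    have h2 : Lt (g (y j.1)) (g (dl f (nx j).1)) :=
      hI _ _ (hydl _ _ (hnx1 j)) ((hdly _).trans_lt (hyα _))
    exact Filter.eventually_atTop.1 (h1.and h2)
  choose N hN' using hN
  obtain ⟨n, hn⟩ := infinite_pigeonhole_card N τ hs2 hτ.aleph0_le (by
    rw [mk_Idx, hτ.cof_ord]
    exact hμτ)
  refine ⟨Subtype.val '' (N ⁻¹' {n}), y, n, ?_, ?_, ?_⟩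
  · rw [mk_image_eq Subtype.val_injective]
    exact hn
  · rintro j _
    rw [hy]
    exact hx2 _
  · rintro _ ⟨j, hj, rfl⟩ _ ⟨j', hj', rfl⟩ hjj i hi
    have h1 := hN' j i (by rw [hj]; exact hi)
    have h2 := hN' j' i (by rw [hj']; exact hi)
    exact h1.2.trans_le (h2.1 _ (nx j).2 (hnx2 j _ j'.2 hjj))

/-- the sets of points caught at a fixed level are small -/
theorem small (hs : Sg lam) (hI : Inc g α) (hG : Good g α) {h : Fn lam}
    (hh : ∀ i, h i < km lam i) (k : Idx lam) :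
    #{ξ : Ordinal.{u} | ξ < α ∧ St g h ξ k} <
      Cardinal.lift.{u + 1} (Order.succ (Order.succ (Order.succ (Order.succ (cm lam k))))) := by
  by_contra hcon
  rw [not_lt] at hcon
  have hτ := hs.reg_km k
  have hμτ : lam.ord.cof < Order.succ (cm lam k) := Order.lt_succ_iff.2 (cof_le_cm k)
  obtain ⟨T, y, n, hT, hy, hinc⟩ := lemG hs hI hG hτ hμτ
    (hs.limit (hs.limit (hs.limit (hs.succ_cm_lt k)))) (fun ξ hξ => hξ.1) hcon
  have h1 : ∀ j : T, ∃ i, n < i ∧ g (y j.1) i < h i ∧ ee lam i (h i) (g (y j.1) i) < tm lam k := by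
    intro j
    obtain ⟨i, hi1, hi2⟩ := (hy j.1 j.2).2 (isClub_Ioi hs.cof_reg n)
    exact ⟨i, hi2, hi1.1, hi1.2⟩
  choose F hF1 hF2 hF3 using h1
  obtain ⟨i, hi⟩ := infinite_pigeonhole_card F _ hT hτ.aleph0_le (by
    rw [mk_Idx, hτ.cof_ord]
    exact hμτ)
  have h2 : #(F ⁻¹' {i}) ≤ #((tm lam k).ToType) := by
    refine Cardinal.mk_le_of_injective (f := fun j : F ⁻¹' {i} =>
      ToType.mk ⟨ee lam i (h i) (g (y j.1.1) i), ?_⟩) ?_
    · have h3 := hF3 j.1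
      rw [j.2] at h3
      exact h3
    · intro j j' hjj
      have h3 := congrArg Subtype.val (ToType.mk.injective hjj)
      dsimp only at h3
      have h4 := hF2 j.1
      have h4' := hF2 j'.1
      rw [j.2] at h4
      rw [j'.2] at h4'
      have h5 := ee_inj (hh i) h4 h4' h3
      have h6 : n ≤ i := by
        have h7 := hF1 j.1
        rw [j.2] at h7
        exact h7.le
      rcases lt_trichotomy j.1.1 j'.1.1 with h7 | h7 | h7
      · exact ((hinc _ j.1.2 _ j'.1.2 h7 i h6).ne h5).elim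
      · exact Subtype.ext (Subtype.ext h7)
      · exact ((hinc _ j'.1.2 _ j.1.2 h7 i h6).ne h5.symm).elim
  rw [mk_toType] at h2
  exact ((hi.trans h2).trans_lt (Order.lt_succ (cm lam k))).false

end Pool.Agent.Helper92.CS
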