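import Pool.Agent.Helper92.CS.Base

/-!
The recursion step of the canonical scale and its independence of the choices made.
-/

open Set Ordinal Cardinal

universe u

namespace Pool.Agent.Helper92.CS

open Pool.Agent.Helper98

variable {lam : Cardinal.{u}}

/-- functions on the index type -/
abbrev Fn (lam : Cardinal.{u}) : Type (u + 1) := Idx lam → Ordinal.{u}

/-- eventual domination -/
def Lt (f g : Fn lam) : Prop := ∀ᶠ i in Filter.atTop, f i < g i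

def Le (f g : Fn lam) : Prop := ∀ᶠ i in Filter.atTop, f i ≤ g i

theorem Lt.le {f g : Fn lam} (h : Lt f g) : Le f g := by
  filter_upwards [h] with i hi
  exact hi.le

theorem Le.refl (f : Fn lam) : Le f f := Filter.Eventually.of_forall fun _ => le_rfl

theorem Le.trans {f g h : Fn lam} (h1 : Le f g) (h2 : Le g h) : Le f h := by
  filter_upwards [h1, h2] with i h3 h4
  exact h3.trans h4

/-! ### points of cofinality at most the cofinality of `lam` -/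

/-- a valid partial function from the index type to `α` with cofinal range -/
structure V1 (α : Ordinal.{u}) (Y : Idx lam → Ordinal.{u} → Prop) : Prop where
  lt : ∀ γ η, Y γ η → η < α
  uniq : ∀ γ η η', Y γ η → Y γ η' → η = η'
  cof : ∀ ξ, ξ < α → ∃ γ η, Y γ η ∧ ξ ≤ η

/-- the diagonal supremum -/
def HY (g : Ordinal.{u} → Fn lam) (Y : Idx lam → Ordinal.{u} → Prop) (h : Fn lam) : Prop :=
  ∀ i, LS (fun x => ∃ γ η, γ < i ∧ Y γ η ∧ x = g η i) (h i)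

/-- `g ξ` is caught by level `k` below `h` on a stationary set -/
def St (g : Ordinal.{u} → Fn lam) (h : Fn lam) (ξ : Ordinal.{u}) (k : Idx lam) : Prop :=
  IsStationary {i | g ξ i < h i ∧ ee lam i (h i) (g ξ i) < tm lam k}

/-- `i` is far above `k` -/
def RR (k i : Idx lam) : Prop :=
  Order.succ (Order.succ (Order.succ (Order.succ (cm lam k)))) ≤ cm lam i

def S1 (g : Ordinal.{u} → Fn lam) (α : Ordinal.{u}) (h v : Fn lam) : Prop :=
  ∀ i, LS (fun x => ∃ k ξ, RR k i ∧ ξ < α ∧ St g h ξ k ∧ x = g ξ i) (v i)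

def Step1 (g : Ordinal.{u} → Fn lam) (α : Ordinal.{u}) (v : Fn lam) : Prop :=
  ∃ Y h, V1 α Y ∧ HY g Y h ∧ S1 g α h v

/-! ### points of larger cofinality -/

/-- a valid continuous cofinal function from `ν` to `α` -/
structure V2 (α : Ordinal.{u}) (ν : Cardinal.{u}) (y : W ν → Ordinal.{u}) : Prop where
  mono : ∀ γ γ', γ ≤ γ' → y γ ≤ y γ'
  lt : ∀ γ, y γ < α
  unb : ∀ ξ, ξ < α → ∃ γ, ξ < y γ
  cont : ∀ γ, Lim γ → ∀ ξ, ξ < y γ → ∃ γ', γ' < γ ∧ ξ < y γ'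

def Q2 (g : Ordinal.{u} → Fn lam) (ν : Cardinal.{u}) (y : W ν → Ordinal.{u}) (i : Idx lam)
    (v : Ordinal.{u}) : Prop := ∃ C : Set (W ν), IsClub C ∧ ∀ γ ∈ C, g (y γ) i < v

def S2 (g : Ordinal.{u} → Fn lam) (ν : Cardinal.{u}) (y : W ν → Ordinal.{u}) (v : Fn lam) : Prop :=
  ∀ i, (ν ≤ cm lam i → Q2 g ν y i (v i) ∧ ∀ v', v' < v i → ¬ Q2 g ν y i v') ∧
    (¬ ν ≤ cm lam i → v i = 0)

/-- regular cardinals between the cofinality and `lam` -/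
def Rg (lam ν : Cardinal.{u}) : Prop := ν.IsRegular ∧ lam.ord.cof < ν ∧ ν < lam

def Step2 (g : Ordinal.{u} → Fn lam) (α : Ordinal.{u}) (v : Fn lam) : Prop :=
  ∃ ν, Rg lam ν ∧ ∃ y : W ν → Ordinal.{u}, V2 α ν y ∧ S2 g ν y v

/-- the recursion step -/
def Step (g : Ordinal.{u} → Fn lam) (α : Ordinal.{u}) (v : Fn lam) : Prop :=
  Step1 g α v ∨ Step2 g α v

/-- the sequence is increasing below `α` -/
def Inc (g : Ordinal.{u} → Fn lam) (α : Ordinal.{u}) : Prop :=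
  ∀ ξ η, ξ < η → η < α → Lt (g ξ) (g η)

/-- the sequence is in the product below `α` -/
def Prd (g : Ordinal.{u} → Fn lam) (α : Ordinal.{u}) : Prop := ∀ ξ, ξ < α → ∀ i, g ξ i < km lam i

/-! ### locality -/

variable {g g' : Ordinal.{u} → Fn lam} {α : Ordinal.{u}} {v v' h h' : Fn lam}
  {Y Y' : Idx lam → Ordinal.{u} → Prop}

theorem HY.local (hg : ∀ ξ, ξ < α → g ξ = g' ξ) (hV : V1 α Y) (H : HY g Y h) : HY g' Y h := by
  intro i
  refine (H i).congr fun x => ?_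
  constructor
  · rintro ⟨γ, η, h1, h2, rfl⟩
    exact ⟨γ, η, h1, h2, by rw [hg η (hV.lt γ η h2)]⟩
  · rintro ⟨γ, η, h1, h2, rfl⟩
    exact ⟨γ, η, h1, h2, by rw [hg η (hV.lt γ η h2)]⟩

theorem S1.local (hg : ∀ ξ, ξ < α → g ξ = g' ξ) (H : S1 g α h v) : S1 g' α h v := by
  intro i
  refine (H i).congr fun x => ?_
  constructor
  · rintro ⟨k, ξ, h1, h2, h3, rfl⟩
    exact ⟨k, ξ, h1, h2, by rw [St, ← hg ξ h2]; exact h3, by rw [hg ξ h2]⟩
  · rintro ⟨k, ξ, h1, h2, h3, rfl⟩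
    exact ⟨k, ξ, h1, h2, by rw [St, hg ξ h2]; exact h3, by rw [hg ξ h2]⟩

theorem S2.local (hg : ∀ ξ, ξ < α → g ξ = g' ξ) {ν : Cardinal.{u}} {y : W ν → Ordinal.{u}}
    (hV : V2 α ν y) (H : S2 g ν y v) : S2 g' ν y v := by
  have h1 : ∀ i w, Q2 g ν y i w ↔ Q2 g' ν y i w := by
    intro i w
    refine exists_congr fun C => and_congr Iff.rfl (forall_congr' fun γ => imp_congr Iff.rfl ?_)
    rw [hg _ (hV.lt γ)]
  intro i
  refine ⟨fun h2 => ⟨(h1 _ _).1 ((H i).1 h2).1, fun w hw h3 => ((H i).1 h2).2 w hw ((h1 _ _).2 h3)⟩,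
    (H i).2⟩

theorem Step.local (hg : ∀ ξ, ξ < α → g ξ = g' ξ) (H : Step g α v) : Step g' α v := by
  rcases H with ⟨Y, h, h1, h2, h3⟩ | ⟨ν, h1, y, h2, h3⟩
  · exact Or.inl ⟨Y, h, h1, h2.local hg h1, h3.local hg⟩
  · exact Or.inr ⟨ν, h1, y, h2, h3.local hg h2⟩

/-! ### independence of choices -/

theorem hy_club (hs : Sg lam) (hI : Inc g α) (hV : V1 α Y) (hV' : V1 α Y') (H : HY g Y h)
    (H' : HY g Y' h') : ∃ C : Set (Idx lam), IsClub C ∧ ∀ i ∈ C, h i ≤ h' i := by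
  have hne := hs.nonempty
  have h1 : ∀ γ : Idx lam, ∃ F : Idx lam, ∀ η, Y γ η → ∃ γ' η', γ' ≤ F ∧ Y' γ' η' ∧
      ∀ i, F ≤ i → g η i ≤ g η' i := by
    intro γ
    by_cases hγ : ∃ η, Y γ η
    · obtain ⟨η, hη⟩ := hγ
      obtain ⟨γ', η', h2, h3⟩ := hV'.cof η (hV.lt γ η hη)
      have h4 : Le (g η) (g η') := by
        rcases h3.eq_or_lt with h5 | h5
        · rw [h5]
          exact Le.refl _
        · exact (hI η η' h5 (hV'.lt γ' η' h2)).le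
      obtain ⟨n, hn⟩ := Filter.eventually_atTop.1 h4
      refine ⟨max γ' n, fun η1 hη1 => ⟨γ', η', le_max_left _ _, h2, fun i hi => ?_⟩⟩
      rw [hV.uniq γ η1 η hη1 hη]
      exact hn i ((le_max_right _ _).trans hi)
    · exact ⟨γ, fun η hη => (hγ ⟨η, hη⟩).elim⟩
  choose F hF using h1
  refine ⟨_, isClub_closure hs.cof_reg hs.unc F, fun i hi => ?_⟩
  refine (H i).le (H' i) ?_
  rintro x ⟨γ, η, h2, h3, rfl⟩
  obtain ⟨γ', η', h4, h5, h6⟩ := hF γ η h3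
  exact ⟨g η' i, ⟨γ', η', h4.trans_lt (hi γ h2), h5, rfl⟩, h6 i (hi γ h2).le⟩

theorem St.congr (hs : Sg lam) {C : Set (Idx lam)} (hC : IsClub C) (hh : ∀ i ∈ C, h i = h' i)
    {ξ : Ordinal.{u}} {k : Idx lam} (H : St g h ξ k) : St g h' ξ k := by
  intro D hD
  obtain ⟨i, hi, hi'⟩ := H (IsClub.inter (W_cof_ne hs.cof_reg hs.unc) hC hD)
  refine ⟨i, ?_, hi'.2⟩
  have h1 := hh i hi'.1
  have h2 : g ξ i < h i ∧ ee lam i (h i) (g ξ i) < tm lam k := hi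
  rw [h1] at h2
  exact h2

theorem Step1.unique (hs : Sg lam) (hI : Inc g α) (H : Step1 g α v) (H' : Step1 g α v') :
    v = v' := by
  obtain ⟨Y, h, h1, h2, h3⟩ := H
  obtain ⟨Y', h', h1', h2', h3'⟩ := H'
  obtain ⟨C, hC, hC'⟩ := hy_club hs hI h1 h1' h2 h2'
  obtain ⟨D, hD, hD'⟩ := hy_club hs hI h1' h1 h2' h2
  have hE := IsClub.inter (W_cof_ne hs.cof_reg hs.unc) hC hD
  have heq : ∀ i ∈ C ∩ D, h i = h' i := fun i hi => le_antisymm (hC' i hi.1) (hD' i hi.2)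
  funext i
  refine (h3 i).unique (h3' i) fun x => ?_
  constructor
  · rintro ⟨k, ξ, h4, h5, h6, rfl⟩
    exact ⟨k, ξ, h4, h5, h6.congr hs hE heq, rfl⟩
  · rintro ⟨k, ξ, h4, h5, h6, rfl⟩
    exact ⟨k, ξ, h4, h5, h6.congr hs hE (fun i hi => (heq i hi).symm), rfl⟩

theorem V2.club {ν : Cardinal.{u}} (hν : ν.IsRegular) (h0 : ℵ₀ < ν) {y y' : W ν → Ordinal.{u}}
    (h : V2 α ν y) (h' : V2 α ν y') : ∃ C : Set (W ν), IsClub C ∧ ∀ γ ∈ C, y γ ≤ y' γ := by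
  have h1 : ∀ γ, ∃ γ', y γ < y' γ' := fun γ => h'.unb _ (h.lt γ)
  choose F hF using h1
  refine ⟨_, IsClub.inter (W_cof_ne hν h0) (isClub_closure hν h0 F) (isClub_lim hν h0), ?_⟩
  rintro γ ⟨h2, h3⟩
  by_contra hcon
  obtain ⟨γ', h4, h5⟩ := h.cont γ h3 _ (not_le.1 hcon)
  exact (h5.trans ((hF γ').trans_le (h'.mono _ _ (h2 γ' h4).le))).false

theorem Q2.congr {ν : Cardinal.{u}} (hν : ν.IsRegular) (h0 : ℵ₀ < ν) {y y' : W ν → Ordinal.{u}}
    {C : Set (W ν)} (hC : IsClub C) (hy : ∀ γ ∈ C, y γ = y' γ) {i : Idx lam} {w : Ordinal.{u}}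
    (H : Q2 g ν y i w) : Q2 g ν y' i w := by
  obtain ⟨D, hD, hD'⟩ := H
  refine ⟨_, IsClub.inter (W_cof_ne hν h0) hC hD, fun γ hγ => ?_⟩
  rw [← hy γ hγ.1]
  exact hD' γ hγ.2

theorem no_small {ν : Cardinal.{u}} (hν : ν.IsRegular) {y : W ν → Ordinal.{u}} (h : V2 α ν y)
    {A : Type u} (hA : #A < ν) (f : A → Ordinal.{u}) (hf : ∀ a, f a < α)
    (hf' : ∀ ξ, ξ < α → ∃ a, ξ ≤ f a) : False := by
  have h1 : ∀ a, ∃ γ, f a < y γ := fun a => h.unb _ (hf a)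
  choose G hG using h1
  obtain ⟨b, hb⟩ := W_bdd hν hA G
  obtain ⟨a, ha⟩ := hf' _ (h.lt b)
  exact (ha.trans_lt ((hG a).trans_le (h.mono _ _ (hb a).le))).false

theorem V1.no_V2 (hs : Sg lam) {ν : Cardinal.{u}} (hν : Rg lam ν) {y : W ν → Ordinal.{u}}
    (h : V2 α ν y) (hV : V1 α Y) : False := by
  classical
  refine no_small hν.1 h (A := {γ : Idx lam // ∃ η, Y γ η}) ?_ (fun a => a.2.choose) ?_ ?_
  · refine (mk_subtype_le _).trans_lt ?_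
    rw [mk_Idx]
    exact hν.2.1
  · intro a
    exact hV.lt _ _ a.2.choose_spec
  · intro ξ hξ
    obtain ⟨γ, η, h1, h2⟩ := hV.cof ξ hξ
    refine ⟨⟨γ, η, h1⟩, ?_⟩
    have h3 : Y γ (Exists.choose (⟨η, h1⟩ : ∃ η, Y γ η)) := Exists.choose_spec (⟨η, h1⟩ : ∃ η, Y γ η)
    rw [hV.uniq γ _ _ h1 h3] at h2
    exact h2

theorem V2.card_eq {ν ν' : Cardinal.{u}} (hν : ν.IsRegular) (hν' : ν'.IsRegular)
    {y : W ν → Ordinal.{u}} {y' : W ν' → Ordinal.{u}}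
    (h : V2 α ν y) (h' : V2 α ν' y') : ν = ν' := by
  rcases lt_trichotomy ν ν' with h1 | h1 | h1
  · refine (no_small hν' h' (A := W ν) (by rw [mk_W]; exact h1) y h.lt ?_).elim
    intro ξ hξ
    obtain ⟨γ, hγ⟩ := h.unb ξ hξ
    exact ⟨γ, hγ.le⟩
  · exact h1
  · refine (no_small hν h (A := W ν') (by rw [mk_W]; exact h1) y' h'.lt ?_).elim
    intro ξ hξ
    obtain ⟨γ, hγ⟩ := h'.unb ξ hξ
    exact ⟨γ, hγ.le⟩

theorem Rg.unc (hs : Sg lam) {ν : Cardinal.{u}} (hν : Rg lam ν) : ℵ₀ < ν := hs.unc.trans hν.2.1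

theorem V2.club_eq {ν : Cardinal.{u}} (hν : ν.IsRegular) (h0 : ℵ₀ < ν) {y y' : W ν → Ordinal.{u}}
    (h : V2 α ν y) (h' : V2 α ν y') : ∃ C : Set (W ν), IsClub C ∧ ∀ γ ∈ C, y γ = y' γ := by
  obtain ⟨C, hC, hC'⟩ := h.club hν h0 h'
  obtain ⟨D, hD, hD'⟩ := h'.club hν h0 h
  exact ⟨_, IsClub.inter (W_cof_ne hν h0) hC hD, fun γ hγ => le_antisymm (hC' γ hγ.1) (hD' γ hγ.2)⟩

theorem Step2.unique (hs : Sg lam) (H : Step2 g α v) (H' : Step2 g α v') : v = v' := by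
  obtain ⟨ν, h1, y, h2, h3⟩ := H
  obtain ⟨ν', h1', y', h2', h3'⟩ := H'
  have h4 : ν = ν' := h2.card_eq h1.1 h1'.1 h2'
  subst h4
  have h0 := h1.unc hs
  obtain ⟨C, hC, hC'⟩ := h2.club_eq h1.1 h0 h2'
  funext i
  by_cases hi : ν ≤ cm lam i
  · obtain ⟨h5, h6⟩ := (h3 i).1 hi
    obtain ⟨h5', h6'⟩ := (h3' i).1 hi
    rcases lt_trichotomy (v i) (v' i) with h7 | h7 | h7
    · exact (h6' _ h7 (h5.congr h1.1 h0 hC hC')).elim
    · exact h7
    · exact (h6 _ h7 (h5'.congr h1.1 h0 hC (fun γ hγ => (hC' γ hγ).symm))).elim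
  · rw [(h3 i).2 hi, (h3' i).2 hi]

/-- The recursion step does not depend on the choices made. -/
theorem Step.unique (hs : Sg lam) (hI : Inc g α) (H : Step g α v) (H' : Step g α v') :
    v = v' := by
  rcases H with H | H <;> rcases H' with H' | H'
  · exact H.unique hs hI H'
  · obtain ⟨Y, h, h1, h2, h3⟩ := H
    obtain ⟨ν', h1', y', h2', h3'⟩ := H'
    exact (h1.no_V2 hs h1' h2').elim
  · obtain ⟨Y, h, h1, h2, h3⟩ := H'
    obtain ⟨ν', h1', y', h2', h3'⟩ := H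
    exact (h1.no_V2 hs h1' h2').elim
  · exact H.unique hs H'

end Pool.Agent.Helper92.CS
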